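import Pool.Agent.W759.D

/-! Geometry of the sets `Om`, `Om1`. -/

set_option autoImplicit false

namespace Pool.Agent.W741.Sq

open Complex MeasureTheory Filter Topology Set
open Pool.Agent.W759

/-- closed fundamental domain of the theta group -/
def D : Set ℂ := {z | 0 < z.im ∧ |z.re| ≤ 1 ∧ 1 ≤ ‖z‖}

theorem one_lt_norm (w : ℂ) : 1 < ‖w‖ ↔ 1 < w.re ^ 2 + w.im ^ 2 := by
  have h : ‖w‖ ^ 2 = w.re ^ 2 + w.im ^ 2 := by
    rw [Complex.sq_norm, Complex.normSq_apply]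
    ring
  rw [← h]
  exact (one_lt_sq_iff₀ (norm_nonneg w)).symm

theorem one_le_norm (w : ℂ) : 1 ≤ ‖w‖ ↔ 1 ≤ w.re ^ 2 + w.im ^ 2 := by
  have h : ‖w‖ ^ 2 = w.re ^ 2 + w.im ^ 2 := by
    rw [Complex.sq_norm, Complex.normSq_apply]
    ring
  rw [← h]
  exact (one_le_sq_iff₀ (norm_nonneg w)).symm

theorem norm_lt_norm (v w : ℂ) : ‖v‖ < ‖w‖ ↔ v.re ^ 2 + v.im ^ 2 < w.re ^ 2 + w.im ^ 2 := by
  have h : ∀ w : ℂ, ‖w‖ ^ 2 = w.re ^ 2 + w.im ^ 2 := by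
    intro w
    rw [Complex.sq_norm, Complex.normSq_apply]
    ring
  rw [← h, ← h]
  exact (pow_lt_pow_iff_left₀ (norm_nonneg v) (norm_nonneg w) two_ne_zero).symm

theorem mem_Om0 (z : ℂ) : z ∈ Om0 ↔ 0 < z.im ∧ ∀ k : ℤ, k ≠ 0 → 1 < (z.re + 2 * k) ^ 2 + z.im ^ 2 := by
  unfold Om0
  simp only [mem_setOf_eq]
  refine and_congr_right fun _ => forall_congr' fun k => imp_congr_right fun _ => ?_
  rw [one_lt_norm]
  simp

theorem mem_Om (z : ℂ) : z ∈ Om ↔ 0 < z.im ∧ ∀ k : ℤ, 1 < (z.re + 2 * k) ^ 2 + z.im ^ 2 := by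
  unfold Om
  simp only [mem_setOf_eq]
  refine and_congr_right fun _ => forall_congr' fun k => ?_
  rw [one_lt_norm]
  simp

theorem ne_zero_of_im {z : ℂ} (h : 0 < z.im) : z ≠ 0 := by
  intro h0
  rw [h0] at h
  simp at h

theorem im_neg_inv (z : ℂ) : (-z⁻¹).im = z.im / normSq z := by
  simp [Complex.inv_im]
  ring

theorem im_neg_inv_pos {z : ℂ} (h : 0 < z.im) : 0 < (-z⁻¹).im := by
  rw [im_neg_inv]
  exact div_pos h (Complex.normSq_pos.2 (ne_zero_of_im h))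

theorem neg_inv_neg_inv (z : ℂ) : -(-z⁻¹)⁻¹ = z := by
  rw [inv_neg, inv_inv, neg_neg]

theorem mem_Om1 (z : ℂ) : z ∈ Om1 ↔ 0 < z.im ∧ ∀ k : ℤ, k ≠ 0 →
    1 < (z.re + 2 * k) ^ 2 + z.im ^ 2 ∧
      z.re ^ 2 + z.im ^ 2 < (2 * k * z.re - 1) ^ 2 + (2 * k * z.im) ^ 2 := by
  have hkey : ∀ k : ℤ, 0 < z.im → (1 < ‖-z⁻¹ + 2 * k‖ ↔
      z.re ^ 2 + z.im ^ 2 < (2 * k * z.re - 1) ^ 2 + (2 * k * z.im) ^ 2) := by
    intro k hz
    have hz0 := ne_zero_of_im hz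
    have e : -z⁻¹ + 2 * (k : ℂ) = (2 * k * z - 1) / z := by
      field_simp
      ring
    rw [e, norm_div, one_lt_div (norm_pos_iff.2 hz0), norm_lt_norm]
    simp
  constructor
  · rintro ⟨h1, h2⟩
    rw [mem_Om0] at h1
    refine ⟨h1.1, fun k hk => ⟨h1.2 k hk, (hkey k h1.1).1 (h2.2 k hk)⟩⟩
  · rintro ⟨h0, h⟩
    refine ⟨(mem_Om0 z).2 ⟨h0, fun k hk => (h k hk).1⟩, im_neg_inv_pos h0, fun k hk => ?_⟩
    exact (hkey k h0).2 (h k hk).2

theorem Om1_im {z : ℂ} (h : z ∈ Om1) : 0 < z.im := ((mem_Om1 z).1 h).1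

theorem Om1_inv {z : ℂ} (h : z ∈ Om1) : -z⁻¹ ∈ Om1 := by
  refine ⟨h.2, ?_⟩
  rw [neg_inv_neg_inv]
  exact h.1

theorem Om_sub_Om1 : Om ⊆ Om1 := by
  intro z hz
  rw [mem_Om] at hz
  rw [mem_Om1]
  refine ⟨hz.1, fun k hk => ⟨hz.2 k, ?_⟩⟩
  have h0 := hz.2 0
  simp only [Int.cast_zero, mul_zero, add_zero] at h0
  -- `|k| ≥ 1`
  have hk1 : (1 : ℝ) ≤ (k : ℝ) ^ 2 := by
    have : 1 ≤ k ^ 2 := by
      have := Int.one_le_abs hk
      nlinarith [abs_nonneg k, sq_abs k]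
    exact_mod_cast this
  set x := z.re
  set y := z.im
  set K : ℝ := (k : ℝ)
  -- `4 k x ≤ 4 |k| r`
  have hr : (x ^ 2 + y ^ 2 : ℝ) = (Real.sqrt (x ^ 2 + y ^ 2)) ^ 2 := by
    rw [Real.sq_sqrt]
    positivity
  set r := Real.sqrt (x ^ 2 + y ^ 2)
  have hr0 : 0 ≤ r := Real.sqrt_nonneg _
  have hr1 : 1 < r := by
    by_contra h
    push Not at h
    nlinarith
  have hx : |x| ≤ r := by
    refine abs_le_of_sq_le_sq ?_ hr0
    nlinarith [sq_nonneg y]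
  have hK : 1 ≤ |K| := by
    by_contra h
    push Not at h
    have := abs_nonneg K
    nlinarith [sq_abs K]
  have h1 : K * x ≤ |K| * r := by
    calc K * x ≤ |K * x| := le_abs_self _
      _ = |K| * |x| := abs_mul _ _
      _ ≤ _ := by gcongr
  have h2 : K ^ 2 = |K| ^ 2 := (sq_abs K).symm
  have h3 : 0 < ((2 * |K| - 1) * r - 1) * ((2 * |K| + 1) * r - 1) := by
    have e1 : 0 < (2 * |K| - 1) * r - 1 := by nlinarith
    have e2 : 0 < (2 * |K| + 1) * r - 1 := by nlinarith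
    positivity
  have h4 : (2 * K * x - 1) ^ 2 + (2 * K * y) ^ 2 - (x ^ 2 + y ^ 2) =
      (4 * K ^ 2 - 1) * (x ^ 2 + y ^ 2) - 4 * (K * x) + 1 := by ring
  have h5 : ((2 * |K| - 1) * r - 1) * ((2 * |K| + 1) * r - 1) =
      (4 * |K| ^ 2 - 1) * r ^ 2 - 4 * (|K| * r) + 1 := by ring
  have h6 : (4 * K ^ 2 - 1) * (x ^ 2 + y ^ 2) = (4 * |K| ^ 2 - 1) * r ^ 2 := by rw [h2, hr]
  linarith

theorem D_sub_Om1 : D ⊆ Om1 := by
  rintro z ⟨hy, hx, hn⟩
  rw [one_le_norm] at hn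
  rw [mem_Om1]
  refine ⟨hy, fun k hk => ?_⟩
  set x := z.re
  set y := z.im
  have hxx := abs_le.1 hx
  have hkk : (k : ℝ) ≤ -1 ∨ 1 ≤ (k : ℝ) := by
    rcases lt_or_gt_of_ne hk with h | h
    · left
      have : k ≤ -1 := by omega
      exact_mod_cast this
    · right
      exact_mod_cast h
  set K : ℝ := (k : ℝ)
  have hy2 : 0 < y ^ 2 := by positivity
  constructor
  · rcases hkk with h | h
    · nlinarith
    · nlinarith
  · have e : (2 * K * x - 1) ^ 2 + (2 * K * y) ^ 2 - (x ^ 2 + y ^ 2) =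
      (4 * K ^ 2 - 1) * (x ^ 2 + y ^ 2 - 1) + 4 * (K * (K - x)) := by ring
    have h1 : 0 < 4 * K ^ 2 - 1 := by
      rcases hkk with h | h <;> nlinarith
    rcases eq_or_lt_of_le hn with h0 | h0
    · have hx1 : x < 1 := by nlinarith
      have hx2 : -1 < x := by nlinarith
      have h2 : 0 < K * (K - x) := by
        rcases hkk with h | h
        · nlinarith
        · nlinarith
      nlinarith
    · have h2 : 0 ≤ K * (K - x) := by
        rcases hkk with h | h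
        · nlinarith
        · nlinarith
      have h3 : 0 < (4 * K ^ 2 - 1) * (x ^ 2 + y ^ 2 - 1) := mul_pos h1 (by linarith)
      linarith

theorem D_Om {z : ℂ} (h0 : 0 < z.im) (h1 : |z.re| ≤ 1) (h2 : 1 < ‖z‖) : z ∈ Om := by
  rw [one_lt_norm] at h2
  rw [mem_Om]
  refine ⟨h0, fun k => ?_⟩
  by_cases hk : k = 0
  · subst hk
    simpa using h2
  · exact (((mem_Om1 z).1 (D_sub_Om1 ⟨h0, h1, (one_le_norm z).2 h2.le⟩)).2 k hk).1

theorem high_Om {z : ℂ} (h : 1 < z.im) : z ∈ Om := by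
  rw [mem_Om]
  refine ⟨by linarith, fun k => ?_⟩
  nlinarith [sq_nonneg (z.re + 2 * k)]

theorem high_Om1 {z : ℂ} (h : 1 < z.im) : z ∈ Om1 := Om_sub_Om1 (high_Om h)

theorem add_I_re (z : ℂ) (t : ℝ) : (z + t * I).re = z.re := by simp
theorem add_I_im (z : ℂ) (t : ℝ) : (z + t * I).im = z.im + t := by simp

theorem Om1_up {z : ℂ} (h : z ∈ Om1) {t : ℝ} (ht : 0 ≤ t) : z + t * I ∈ Om1 := by
  rw [mem_Om1] at h ⊢
  rw [add_I_re, add_I_im]
  refine ⟨by linarith [h.1], fun k hk => ?_⟩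
  obtain ⟨h1, h2⟩ := h.2 k hk
  have hy := h.1
  have hkk : (1 : ℝ) ≤ (k : ℝ) ^ 2 := by
    have : 1 ≤ k ^ 2 := by
      have := Int.one_le_abs hk
      nlinarith [abs_nonneg k, sq_abs k]
    exact_mod_cast this
  have e : (z.im) ^ 2 ≤ (z.im + t) ^ 2 := by nlinarith
  constructor
  · linarith
  · have e2 : (2 * k * (z.im + t)) ^ 2 - (z.im + t) ^ 2 = (4 * (k : ℝ) ^ 2 - 1) * (z.im + t) ^ 2 := by
      ring
    have e3 : (2 * k * z.im) ^ 2 - z.im ^ 2 = (4 * (k : ℝ) ^ 2 - 1) * z.im ^ 2 := by ring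
    have e4 : (4 * (k : ℝ) ^ 2 - 1) * z.im ^ 2 ≤ (4 * (k : ℝ) ^ 2 - 1) * (z.im + t) ^ 2 := by
      apply mul_le_mul_of_nonneg_left e
      linarith
    linarith

theorem Om_up {z : ℂ} (h : z ∈ Om) {t : ℝ} (ht : 0 ≤ t) : z + t * I ∈ Om := by
  rw [mem_Om] at h ⊢
  rw [add_I_re, add_I_im]
  refine ⟨by linarith [h.1], fun k => ?_⟩
  have hy := h.1
  have h2 := h.2 k
  have e : (z.im) ^ 2 ≤ (z.im + t) ^ 2 := by nlinarith
  linarith

theorem D_up {z : ℂ} (h : z ∈ D) {t : ℝ} (ht : 0 ≤ t) : z + t * I ∈ D := by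
  obtain ⟨h1, h2, h3⟩ := h
  rw [one_le_norm] at h3
  refine ⟨?_, ?_, ?_⟩
  · rw [add_I_im]
    linarith
  · rw [add_I_re]
    exact h2
  · rw [one_le_norm, add_I_re, add_I_im]
    nlinarith

theorem isOpen_Om0 : IsOpen Om0 := by
  rw [isOpen_iff_mem_nhds]
  intro z hz
  obtain ⟨N, hN⟩ := exists_nat_gt (‖z‖ + 2)
  have h1 : ∀ᶠ w : ℂ in 𝓝 z, ‖w‖ < ‖z‖ + 1 :=
    (continuous_norm.tendsto z).eventually (gt_mem_nhds (by linarith))
  have h2 : ∀ᶠ w : ℂ in 𝓝 z, 0 < w.im :=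
    (Complex.continuous_im.tendsto z).eventually (lt_mem_nhds hz.1)
  have h3 : ∀ᶠ w : ℂ in 𝓝 z, ∀ k ∈ Finset.Icc (-(N : ℤ)) N, k ≠ 0 → 1 < ‖w + 2 * k‖ := by
    rw [Filter.eventually_all_finset]
    intro k _
    by_cases hk : k = 0
    · exact Eventually.of_forall fun w h => absurd hk h
    · have hc : Continuous fun w : ℂ => ‖w + 2 * k‖ := by fun_prop
      filter_upwards [(hc.tendsto z).eventually (lt_mem_nhds (hz.2 k hk))] with w hw _
      exact hw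
  filter_upwards [h1, h2, h3] with w hw1 hw2 hw3
  refine ⟨hw2, fun k hk => ?_⟩
  by_cases hkN : k ∈ Finset.Icc (-(N : ℤ)) N
  · exact hw3 k hkN hk
  · have hk' : (N : ℝ) < |(k : ℝ)| := by
      rw [Finset.mem_Icc, not_and_or, not_le, not_le] at hkN
      have : (N : ℤ) < |k| := by
        rcases hkN with h | h
        · exact lt_of_lt_of_le (by omega) (neg_le_abs k)
        · exact lt_of_lt_of_le h (le_abs_self k)
      exact_mod_cast this
    have h4 : ‖(2 * (k : ℂ))‖ = 2 * |(k : ℝ)| := by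
      rw [norm_mul, Complex.norm_intCast]
      simp
    have h5 : ‖(2 * (k : ℂ))‖ ≤ ‖w + 2 * k‖ + ‖w‖ := by
      have : (2 * (k : ℂ)) = (w + 2 * k) - w := by ring
      calc _ = ‖(w + 2 * k) - w‖ := by rw [← this]
        _ ≤ _ := norm_sub_le _ _
    have h6 := norm_nonneg z
    rw [h4] at h5
    linarith

theorem isOpen_Om1 : IsOpen Om1 := by
  rw [isOpen_iff_mem_nhds]
  intro z hz
  have hz0 : z ≠ 0 := ne_zero_of_im (Om1_im hz)
  have h1 : ∀ᶠ w in 𝓝 z, w ∈ Om0 := isOpen_Om0.mem_nhds hz.1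
  have hc : ContinuousAt (fun w : ℂ => -w⁻¹) z := (continuousAt_inv₀ hz0).neg
  have h2 : ∀ᶠ w in 𝓝 z, -w⁻¹ ∈ Om0 := hc.eventually (isOpen_Om0.mem_nhds hz.2)
  filter_upwards [h1, h2] with w hw1 hw2
  exact ⟨hw1, hw2⟩

theorem preconn_Om1 : IsPreconnected Om1 := by
  have hH : IsPreconnected {w : ℂ | 1 < w.im} := by
    have : Convex ℝ {w : ℂ | 1 < w.im} := convex_halfSpace_im_gt 1
    exact this.isPreconnected
  refine isPreconnected_of_forall (2 * I) fun z hz => ?_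
  have hray : IsPreconnected ((fun t : ℝ => z + t * I) '' Set.Ici 0) := by
    refine isPreconnected_Ici.image _ ?_
    fun_prop
  refine ⟨((fun t : ℝ => z + t * I) '' Set.Ici 0) ∪ {w : ℂ | 1 < w.im}, ?_, ?_, ?_, ?_⟩
  · rintro w (⟨t, ht, rfl⟩ | hw)
    · exact Om1_up hz ht
    · exact high_Om1 hw
  · right
    simp
  · left
    exact ⟨0, by simp, by simp⟩
  · refine hray.union (z + (2 : ℝ) * I) ⟨2, by simp, rfl⟩ ?_ hH
    have := Om1_im hz
    show 1 < (z + (2 : ℝ) * I).im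
    rw [add_I_im]
    linarith

theorem Om_add_two {z : ℂ} (h : z ∈ Om) : z + 2 ∈ Om := by
  rw [mem_Om] at h ⊢
  refine ⟨by simpa using h.1, fun k => ?_⟩
  have := h.2 (k + 1)
  push_cast at this
  simp only [add_re, re_ofNat, add_im, im_ofNat, add_zero]
  convert this using 2
  ring

theorem Om_sub_two {z : ℂ} (h : z ∈ Om) : z - 2 ∈ Om := by
  rw [mem_Om] at h ⊢
  refine ⟨by simpa using h.1, fun k => ?_⟩
  have := h.2 (k - 1)
  push_cast at this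
  simp only [sub_re, re_ofNat, sub_im, im_ofNat, sub_zero]
  convert this using 2
  ring

end Pool.Agent.W741.Sq
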