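import Pool.Agent.W759.Stmts
import Pool.Agent.W741.SqGeo

/-! Maximum principle on the fundamental domain of the theta group. -/

set_option autoImplicit false

namespace Pool.Agent.W741.Sq

open Complex MeasureTheory Filter Topology Set Bornology
open Pool.Agent.W759

theorem per_high (P : ℂ → ℂ) (h : ∀ z ∈ Om, P (z + 2) = P z) (z : ℂ) (hz : 1 < z.im) (n : ℤ) :
    P (z - n * 2) = P z := by
  classical
  let Q : ℂ → ℂ := fun z => if 1 < z.im then P z else 0
  have hQ : Function.Periodic Q 2 := by
    intro w
    simp only [Q]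
    by_cases hw : 1 < w.im
    · have hw' : 1 < (w + 2).im := by simpa using hw
      rw [if_pos hw, if_pos hw', h w (high_Om hw)]
    · have hw' : ¬ 1 < (w + 2).im := by simpa using hw
      rw [if_neg hw, if_neg hw']
  have h1 := hQ.sub_int_mul_eq (x := z) n
  have hw' : 1 < (z - n * 2).im := by simpa using hz
  simp only [Q] at h1
  rwa [if_pos hz, if_pos hw'] at h1

/-- Phragmén–Lindelöf on `Im z ≥ 2`. -/
theorem pl_high (P : ℂ → ℂ) (hd : ∀ z : ℂ, 1 < z.im → DifferentiableAt ℂ P z) (C : ℝ)
    (hC : ∀ z : ℂ, 2 ≤ z.im → ‖P z‖ ≤ C) (M : ℝ) (hM : ∀ z : ℂ, z.im = 2 → ‖P z‖ ≤ M) :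
    ∀ z : ℂ, 2 ≤ z.im → ‖P z‖ ≤ M := by
  intro z hz
  set f : ℂ → ℂ := fun w => P (2 * I + I * w) with hf
  have him : ∀ w : ℂ, (2 * I + I * w).im = 2 + w.re := by
    intro w
    simp
  have hfd : DifferentiableOn ℂ f (closure {z : ℂ | 0 < z.re}) := by
    intro w hw
    have hw' : 0 ≤ w.re := by
      have h1 : closure {z : ℂ | 0 < z.re} ⊆ {z : ℂ | 0 ≤ z.re} := by
        apply closure_minimal
        · intro a ha
          have ha' : 0 < a.re := ha
          exact ha'.le
        · exact isClosed_le continuous_const Complex.continuous_re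
      exact h1 hw
    have h2 : DifferentiableAt ℂ P (2 * I + I * w) := hd _ (by rw [him]; linarith)
    have h3 : DifferentiableAt ℂ (fun w : ℂ => 2 * I + I * w) w := by fun_prop
    exact (DifferentiableAt.comp w h2 h3).differentiableWithinAt
  have hbd : ∀ w : ℂ, 0 ≤ w.re → ‖f w‖ ≤ C := fun w hw => hC _ (by rw [him]; linarith)
  have h1 := PhragmenLindelof.right_half_plane_of_bounded_on_real (f := f) (C := M)
    (z := -I * (z - 2 * I)) hfd.diffContOnCl
    ⟨0, by norm_num, 0, by
      simp only [zero_mul, Real.exp_zero]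
      refine Asymptotics.IsBigO.of_bound C ?_
      have : ∀ᶠ w : ℂ in cobounded ℂ ⊓ 𝓟 {z : ℂ | 0 < z.re}, w ∈ {z : ℂ | 0 < z.re} :=
        Filter.mem_inf_of_right (mem_principal_self _)
      filter_upwards [this] with w hw
      rw [norm_one, mul_one]
      exact hbd w (le_of_lt hw)⟩
    ⟨C, by
      rw [eventually_map]
      filter_upwards [eventually_ge_atTop 0] with x hx
      exact hbd x (by simpa using hx)⟩
    (fun x => hM _ (by rw [him]; simp))
    (by simp; linarith)
  have e : 2 * I + I * (-I * (z - 2 * I)) = z := by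
    have : I * I = -1 := I_mul_I
    linear_combination (2 * I - z) * this
  rw [hf] at h1
  simp only [e] at h1
  exact h1

theorem max_main : StMax := by
  intro P hd hper hinv C hC hcusp
  have hdo : DifferentiableOn ℂ P Om1 := fun z hz => (hd z hz).differentiableWithinAt
  have han : AnalyticOnNhd ℂ P Om1 := hdo.analyticOnNhd isOpen_Om1
  have hcont : ∀ z ∈ Om1, ContinuousAt P z := fun z hz => (hd z hz).continuousAt
  -- the claim on the bounded part of the fundamental domain
  have key : ∀ z ∈ D, z.im ≤ 2 → P z = 0 := by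
    intro z1 hz1 hz1'
    by_contra hne
    have hpos : 0 < ‖P z1‖ := norm_pos_iff.2 hne
    obtain ⟨r, hr, hr'⟩ := hcusp (‖P z1‖ / 2) (by positivity)
    let K : Set ℂ := {z | r ≤ z.im ∧ z.im ≤ 2 ∧ |z.re| ≤ 1 ∧ 1 ≤ ‖z‖}
    have hKD : K ⊆ D := fun z hz => ⟨lt_of_lt_of_le hr hz.1, hz.2.2.1, hz.2.2.2⟩
    have hKc : IsCompact K := by
      apply Metric.isCompact_of_isClosed_isBounded
      · refine (isClosed_le continuous_const Complex.continuous_im).inter
          ((isClosed_le Complex.continuous_im continuous_const).inter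
            ((isClosed_le (continuous_abs.comp Complex.continuous_re) continuous_const).inter
              (isClosed_le continuous_const continuous_norm)))
      · refine (Metric.isBounded_closedBall (x := (0 : ℂ)) (r := 3)).subset fun z hz => ?_
        rw [mem_closedBall_zero_iff]
        have h1 := Complex.norm_le_abs_re_add_abs_im z
        have h2 : |z.im| ≤ 2 := by
          rw [abs_of_nonneg (by linarith [hz.1])]
          exact hz.2.1
        linarith [hz.2.2.1]
    have hz1K : z1 ∈ K := by
      refine ⟨?_, hz1', hz1.2.1, hz1.2.2⟩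
      by_contra h
      push Not at h
      have := hr' z1 hz1.1 hz1.2.2 hz1.2.1 h.le
      linarith
    obtain ⟨z0, hz0K, hz0⟩ := hKc.exists_isMaxOn ⟨z1, hz1K⟩
      (f := fun z => ‖P z‖) (fun z hz => ((hcont z (D_sub_Om1 (hKD hz))).norm).continuousWithinAt)
    set M : ℝ := ‖P z0‖ with hMdef
    have hM1 : ‖P z1‖ ≤ M := hz0 hz1K
    have hMpos : 0 < M := by linarith
    have hD2 : ∀ z ∈ D, z.im ≤ 2 → ‖P z‖ ≤ M := by
      intro z hz hz2
      by_cases h : r ≤ z.im
      · exact hz0 (show z ∈ K from ⟨h, hz2, hz.2.1, hz.2.2⟩)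
      · push Not at h
        have := hr' z hz.1 hz.2.2 hz.2.1 h.le
        linarith
    have hline : ∀ z : ℂ, z.im = 2 → ‖P z‖ ≤ M := by
      intro z hz
      have h1 := per_high P hper z (by rw [hz]; norm_num) (round (z.re / 2))
      rw [← h1]
      have him : (z - (round (z.re / 2) : ℤ) * 2).im = 2 := by simpa using hz
      refine hD2 _ ⟨by rw [him]; norm_num, ?_, ?_⟩ him.le
      · have h2 := abs_sub_round (z.re / 2)
        have e : (z - (round (z.re / 2) : ℤ) * 2).re = 2 * (z.re / 2 - round (z.re / 2)) := by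
          simp
          ring
        rw [e, abs_mul, abs_two]
        linarith
      · rw [one_le_norm, him]
        nlinarith [sq_nonneg (z - (round (z.re / 2) : ℤ) * 2).re]
    have hhigh := pl_high P (fun z hz => hd z (high_Om1 hz)) C hC M hline
    have hDM : ∀ z ∈ D, ‖P z‖ ≤ M := by
      intro z hz
      rcases le_total z.im 2 with h | h
      · exact hD2 z hz h
      · exact hhigh z h
    -- local maximum
    have hz0D := hKD hz0K
    have hz0O := D_sub_Om1 hz0D
    have hz0n : z0 ≠ 0 := ne_zero_of_im hz0D.1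
    have evO : ∀ᶠ z in 𝓝 z0, z ∈ Om1 := isOpen_Om1.mem_nhds hz0O
    have hmax : IsLocalMax (norm ∘ P) z0 := by
      show ∀ᶠ z in 𝓝 z0, ‖P z‖ ≤ ‖P z0‖
      by_cases hre : |z0.re| < 1
      · have evre : ∀ᶠ z : ℂ in 𝓝 z0, |z.re| < 1 :=
          ((continuous_abs.comp Complex.continuous_re).tendsto z0).eventually (gt_mem_nhds hre)
        rcases eq_or_lt_of_le hz0D.2.2 with h1 | h1
        · -- on the unit circle
          have hc : ContinuousAt (fun z : ℂ => |(-z⁻¹).re|) z0 :=
            (continuous_abs.comp Complex.continuous_re).continuousAt.comp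
              (continuousAt_inv₀ hz0n).neg
          have hval : |(-z0⁻¹).re| < 1 := by
            have : normSq z0 = 1 := by
              rw [Complex.normSq_eq_norm_sq, ← h1]
              norm_num
            rw [neg_re, inv_re, this, div_one, abs_neg]
            exact hre
          filter_upwards [evO, evre, hc.eventually (gt_mem_nhds hval)] with z h2 h3 h4
          by_cases hzn : 1 ≤ ‖z‖
          · exact hDM z ⟨Om1_im h2, h3.le, hzn⟩
          · push Not at hzn
            rw [← hinv z h2]
            have hz0' : z ≠ 0 := ne_zero_of_im (Om1_im h2)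
            refine hDM _ ⟨im_neg_inv_pos (Om1_im h2), h4.le, ?_⟩
            rw [norm_neg, norm_inv]
            exact (one_le_inv₀ (norm_pos_iff.2 hz0')).2 hzn.le
        · filter_upwards [evO, evre, (continuous_norm.tendsto z0).eventually (lt_mem_nhds h1)]
            with z h2 h3 h4
          exact hDM z ⟨Om1_im h2, h3.le, h4.le⟩
      · have hre1 : |z0.re| = 1 := le_antisymm hz0D.2.1 (not_lt.1 hre)
        have him0 := hz0D.1
        have hn0 : 1 < ‖z0‖ := by
          rw [one_lt_norm, ← sq_abs z0.re, hre1]
          nlinarith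
        rcases (abs_eq zero_le_one).1 hre1 with h1 | h1
        · -- right side
          have ev1 : ∀ᶠ z : ℂ in 𝓝 z0, 0 < z.re :=
            (Complex.continuous_re.tendsto z0).eventually (lt_mem_nhds (by rw [h1]; norm_num))
          have ev2 : ∀ᶠ z : ℂ in 𝓝 z0, z.re < 2 :=
            (Complex.continuous_re.tendsto z0).eventually (gt_mem_nhds (by rw [h1]; norm_num))
          have hc : Continuous fun z : ℂ => ‖z - 2‖ := by fun_prop
          have hv : 1 < ‖z0 - 2‖ := by
            rw [one_lt_norm]
            simp only [sub_re, re_ofNat, sub_im, im_ofNat, sub_zero, h1]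
            nlinarith
          filter_upwards [evO, ev1, ev2, (continuous_norm.tendsto z0).eventually (lt_mem_nhds hn0),
            (hc.tendsto z0).eventually (lt_mem_nhds hv)] with z h2 h3 h4 h5 h6
          by_cases h7 : z.re ≤ 1
          · exact hDM z ⟨Om1_im h2, abs_le.2 ⟨by linarith, h7⟩, h5.le⟩
          · push Not at h7
            have hwi : 0 < (z - 2).im := by simpa using Om1_im h2
            have hwr : |(z - 2).re| ≤ 1 := by
              rw [abs_le]
              simp only [sub_re, re_ofNat]
              constructor <;> linarith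
            have hw := D_Om hwi hwr h6
            have h8 := hper _ hw
            rw [sub_add_cancel] at h8
            rw [h8]
            exact hDM _ ⟨hwi, hwr, h6.le⟩
        · have ev1 : ∀ᶠ z : ℂ in 𝓝 z0, z.re < 0 :=
            (Complex.continuous_re.tendsto z0).eventually (gt_mem_nhds (by rw [h1]; norm_num))
          have ev2 : ∀ᶠ z : ℂ in 𝓝 z0, -2 < z.re :=
            (Complex.continuous_re.tendsto z0).eventually (lt_mem_nhds (by rw [h1]; norm_num))
          have hc : Continuous fun z : ℂ => ‖z + 2‖ := by fun_prop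
          have hv : 1 < ‖z0 + 2‖ := by
            rw [one_lt_norm]
            simp only [add_re, re_ofNat, add_im, im_ofNat, add_zero, h1]
            nlinarith
          filter_upwards [evO, ev1, ev2, (continuous_norm.tendsto z0).eventually (lt_mem_nhds hn0),
            (hc.tendsto z0).eventually (lt_mem_nhds hv)] with z h2 h3 h4 h5 h6
          by_cases h7 : -1 ≤ z.re
          · exact hDM z ⟨Om1_im h2, abs_le.2 ⟨h7, by linarith⟩, h5.le⟩
          · push Not at h7
            have hwi : 0 < (z + 2).im := by simpa using Om1_im h2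
            have hwr : |(z + 2).re| ≤ 1 := by
              rw [abs_le]
              simp only [add_re, re_ofNat]
              constructor <;> linarith
            have hw := D_Om hwi hwr h6
            have hw2 := Om_sub_two hw
            rw [add_sub_cancel_right] at hw2
            have h8 := hper _ hw2
            rw [← h8]
            exact hDM _ ⟨hwi, hwr, h6.le⟩
    have hconst := Complex.eventually_eq_of_isLocalMax_norm (f := P) (c := z0)
      (by filter_upwards [evO] with z hz using hd z hz) hmax
    have hEq : EqOn P (fun _ => P z0) Om1 :=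
      han.eqOn_of_preconnected_of_eventuallyEq analyticOnNhd_const preconn_Om1 hz0O hconst
    obtain ⟨r', hr'0, hr''⟩ := hcusp (M / 2) (by positivity)
    have hwD : (1 + (r' : ℝ) * I : ℂ) ∈ D := by
      refine ⟨by simpa using hr'0, by simp, ?_⟩
      rw [one_le_norm]
      simp only [add_re, one_re, mul_re, ofReal_re, I_re, mul_zero, ofReal_im, I_im, mul_one,
        sub_self, add_zero, add_im, one_im, mul_im, zero_add]
      nlinarith [sq_nonneg r']
    have h1 := hr'' _ hwD.1 hwD.2.2 hwD.2.1 (by simp)
    rw [hEq (D_sub_Om1 hwD)] at h1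
    simp only [← hMdef] at h1
    linarith
  -- identity theorem
  have hp : ((3 / 2 : ℝ) * I : ℂ).im = 3 / 2 := by simp
  have hpr : ((3 / 2 : ℝ) * I : ℂ).re = 0 := by simp
  have hpO : ((3 / 2 : ℝ) * I : ℂ) ∈ Om1 := high_Om1 (by rw [hp]; norm_num)
  have hev : P =ᶠ[𝓝 ((3 / 2 : ℝ) * I : ℂ)] fun _ => (0 : ℂ) := by
    have e1 : ∀ᶠ z : ℂ in 𝓝 ((3 / 2 : ℝ) * I : ℂ), 1 < z.im :=
      (Complex.continuous_im.tendsto _).eventually (lt_mem_nhds (by rw [hp]; norm_num))
    have e2 : ∀ᶠ z : ℂ in 𝓝 ((3 / 2 : ℝ) * I : ℂ), z.im < 2 :=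
      (Complex.continuous_im.tendsto _).eventually (gt_mem_nhds (by rw [hp]; norm_num))
    have e3 : ∀ᶠ z : ℂ in 𝓝 ((3 / 2 : ℝ) * I : ℂ), |z.re| < 1 :=
      ((continuous_abs.comp Complex.continuous_re).tendsto _).eventually
        (gt_mem_nhds (by simp))
    filter_upwards [e1, e2, e3] with z h1 h2 h3
    refine key z ⟨by linarith, h3.le, ?_⟩ h2.le
    rw [one_le_norm]
    nlinarith [sq_nonneg z.re]
  exact han.eqOn_of_preconnected_of_eventuallyEq analyticOnNhd_const preconn_Om1 hpO hev

end Pool.Agent.W741.Sq

/-- SQ-MAX -/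
theorem Pool.Agent.W741.SqMax.main : Pool.Agent.W759.StMax := Pool.Agent.W741.Sq.max_main
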