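import Pool.Agent.W741.SqUniqA

/-! There is no nonzero cusp form of weight 3/2 on the theta group (local form). -/

set_option autoImplicit false

namespace Pool.Agent.W741.SqUniq

open Complex MeasureTheory Filter Topology Set Bornology
open Pool.Agent.W759 Pool.Agent.W741.Sq

theorem main (h1 : StTheta) (h2 : StMax) : StUniq := by
  obtain ⟨Cθ, hθ⟩ := h1
  intro ε hε W hWd hWper hWinv CW hWb hW0
  have hεn : ‖ε‖ = 1 := by rcases hε with rfl | rfl <;> simp
  set g : ℂ → ℂ := fun z => W z * jacobiTheta z with hg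
  have hd : ∀ z ∈ Om1, DifferentiableAt ℂ g z := fun z hz =>
    (hWd z hz).mul (differentiableAt_jacobiTheta (Om1_im hz))
  have hper : ∀ z ∈ Om, g (z + 2) = g z := by
    intro z hz
    simp only [hg]
    rw [hWper z hz, theta_per]
  have hinv : ∀ z ∈ Om1, g (-z⁻¹) = -ε * z ^ 2 * g z := by
    intro z hz
    simp only [hg]
    rw [hWinv z hz, theta_S (Om1_im hz)]
    have := J_pow z
    linear_combination (ε * W z * jacobiTheta z) * this
  have h0 : ∀ δ > 0, ∃ T : ℝ, ∀ z : ℂ, T ≤ z.im → ‖g z‖ ≤ δ := by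
    intro δ hδ
    obtain ⟨T, hT⟩ := hW0 (δ / 2) (by positivity)
    refine ⟨max T 1, fun z hz => ?_⟩
    have e1 := hT z ((le_max_left _ _).trans hz)
    have e2 := theta_bdd ((le_max_right _ _).trans hz)
    simp only [hg]
    rw [norm_mul]
    calc ‖W z‖ * ‖jacobiTheta z‖ ≤ (δ / 2) * 2 :=
          mul_le_mul e1 e2 (norm_nonneg _) (by positivity)
      _ = δ := by ring
  obtain ⟨K0, T0, hdec⟩ := decay_inf g hd hper h0
  have hWb' : ∀ z ∈ D, z.im ≤ 2 → ‖W z‖ ≤ CW * z.im ^ (-1 / 2 : ℝ) := fun z hz hz2 =>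
    hWb z (D_sub_Om1 hz) hz.2.2 hz.2.1 hz2
  obtain ⟨K, hK, hDb⟩ := D_bound g hd K0 T0 _ hdec fun z hz s hs hzs =>
    cusp_bound W Cθ CW hθ hWb' hz hs hzs
  -- the primitive
  have hP : ∀ z ∈ Om1, HasDerivAt (prim g) (g z) z := fun z hz => prim_deriv hd hdec hz
  have hPper : ∀ z ∈ Om, prim g (z + 2) = prim g z := by
    intro z hz
    unfold prim
    congr 1
    refine setIntegral_congr_fun measurableSet_Ioi fun t ht => ?_
    have ht' : 0 ≤ t := le_of_lt ht
    rw [← hper _ (Om_up hz ht')]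
    congr 1
    ring
  have hc : prim g ((-1 : ℝ) : ℂ) = prim g ((1 : ℝ) : ℂ) := by
    unfold prim
    congr 1
    refine setIntegral_congr_fun measurableSet_Ioi fun t ht => ?_
    have ht' : 0 < t := ht
    have hm : ((-1 : ℝ) : ℂ) + t * I ∈ Om := by
      refine D_Om ?_ ?_ ?_
      · rw [add_I_im]
        simpa using ht'
      · rw [add_I_re]
        simp
      · rw [one_lt_norm, add_I_re, add_I_im]
        simp only [ofReal_re, ofReal_im]
        nlinarith
    rw [← hper _ hm]
    congr 1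
    push_cast
    ring
  set c : ℂ := prim g ((1 : ℝ) : ℂ) with hcdef
  have ht1 := prim_tendsto g hd K hK hDb 1 (Or.inl rfl)
  have ht2 := prim_tendsto g hd K hK hDb (-1) (Or.inr rfl)
  rw [hc] at ht2
  set P : ℂ → ℂ := fun z => prim g z - c with hPdef
  have hcusp : ∀ δ > 0, ∃ r > 0, ∀ z : ℂ, 0 < z.im → 1 ≤ ‖z‖ → |z.re| ≤ 1 → z.im ≤ r →
      ‖P z‖ ≤ δ := by
    intro δ hδ
    rw [Metric.tendsto_nhdsWithin_nhds] at ht1 ht2
    obtain ⟨r1, hr1, hr1'⟩ := ht1 δ hδ
    obtain ⟨r2, hr2, hr2'⟩ := ht2 δ hδ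
    refine ⟨min 1 (min (r1 / 3) (r2 / 3)), by positivity, fun z hz hn hx hy => ?_⟩
    have hzD : z ∈ D := ⟨hz, hx, hn⟩
    have e1 : min 1 (min (r1 / 3) (r2 / 3)) ≤ r1 / 3 := (min_le_right _ _).trans (min_le_left _ _)
    have e2 : min 1 (min (r1 / 3) (r2 / 3)) ≤ r2 / 3 := (min_le_right _ _).trans (min_le_right _ _)
    simp only [hPdef]
    rw [← dist_eq_norm]
    rcases D_near hzD (min_le_left 1 _) hy with h | h
    · exact (hr1' hzD (by linarith)).le
    · exact (hr2' hzD (by linarith)).le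
  have hPd : ∀ z ∈ Om1, HasDerivAt P (g z) z := fun z hz => (hP z hz).sub_const c
  -- the modular relation
  have hQ : ∀ z ∈ Om1, P (-z⁻¹) + ε * P z = 0 := by
    have hQd : ∀ z ∈ Om1, HasDerivAt (fun z => P (-z⁻¹) + ε * P z) 0 z := by
      intro z hz
      have hz0 : z ≠ 0 := ne_zero_of_im (Om1_im hz)
      have e1 : HasDerivAt (fun z : ℂ => -z⁻¹) ((z ^ 2)⁻¹) z := by
        have := (hasDerivAt_inv hz0).neg
        rw [neg_neg] at this
        exact this
      have e2 : HasDerivAt P (g (-z⁻¹)) (-z⁻¹) := hPd _ (Om1_inv hz)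
      have e3 := e2.comp z e1
      have e4 := e3.add ((hPd z hz).const_mul ε)
      refine e4.congr_deriv ?_
      rw [hinv z hz]
      field_simp
      ring
    intro z hz
    by_contra hne
    set q : ℂ := P (-z⁻¹) + ε * P z with hq
    have hqpos : 0 < ‖q‖ := norm_pos_iff.2 hne
    obtain ⟨r, hr, hr'⟩ := hcusp (‖q‖ / 3) (by positivity)
    -- a point of the unit circle close to `1`
    set t : ℝ := min r 1 with ht
    have ht0 : 0 < t := lt_min hr one_pos
    have ht1 : t ≤ 1 := min_le_right _ _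
    have hsin : Real.sin t ≤ r := (Real.sin_le ht0.le).trans (min_le_left _ _)
    have hsin0 : 0 < Real.sin t := Real.sin_pos_of_pos_of_lt_pi ht0 (by
      have := Real.pi_gt_three
      linarith)
    set w : ℂ := exp (t * I) with hw
    have hwre : w.re = Real.cos t := by rw [hw, exp_ofReal_mul_I_re]
    have hwim : w.im = Real.sin t := by rw [hw, exp_ofReal_mul_I_im]
    have hwn : ‖w‖ = 1 := by rw [hw, norm_exp_ofReal_mul_I]
    have hwD : w ∈ D := ⟨by rw [hwim]; exact hsin0, by rw [hwre]; exact Real.abs_cos_le_one t,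
      by rw [hwn]⟩
    have hns : normSq w = 1 := by
      rw [Complex.normSq_eq_norm_sq, hwn]
      norm_num
    have hwre' : |(-w⁻¹).re| ≤ 1 := by
      rw [neg_re, inv_re, hns, div_one, abs_neg]
      exact hwD.2.1
    have hwim' : (-w⁻¹).im = Real.sin t := by
      rw [im_neg_inv, hns, div_one, hwim]
    have hwn' : 1 ≤ ‖-w⁻¹‖ := by
      rw [norm_neg, norm_inv, hwn, inv_one]
    have hb1 := hr' w hwD.1 hwD.2.2 hwD.2.1 (by rw [hwim]; exact hsin)
    have hb2 := hr' (-w⁻¹) (by rw [hwim']; exact hsin0) hwn' hwre' (by rw [hwim']; exact hsin)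
    have hconst := isOpen_Om1.is_const_of_deriv_eq_zero preconn_Om1
      (f := fun z => P (-z⁻¹) + ε * P z)
      (fun z hz => (hQd z hz).differentiableAt.differentiableWithinAt)
      (fun z hz => (hQd z hz).deriv) hz (D_sub_Om1 hwD)
    have : ‖q‖ ≤ ‖q‖ / 3 + ‖q‖ / 3 := by
      calc ‖q‖ = ‖P (-w⁻¹) + ε * P w‖ := by rw [hq, hconst]
        _ ≤ ‖P (-w⁻¹)‖ + ‖ε * P w‖ := norm_add_le _ _
        _ = ‖P (-w⁻¹)‖ + ‖P w‖ := by rw [norm_mul, hεn, one_mul]
        _ ≤ _ := by linarith
    linarith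
  -- bound on `Im z ≥ 2`
  have hgb : ∀ z : ℂ, 2 ≤ z.im → ‖g z‖ ≤ K * Real.exp (-z.im) := by
    intro z hz
    have e1 := per_high g hper z (by linarith) (round (z.re / 2))
    rw [← e1]
    have him : (z - (round (z.re / 2) : ℤ) * 2).im = z.im := by simp
    have hzD : z - (round (z.re / 2) : ℤ) * 2 ∈ D := by
      refine ⟨by rw [him]; linarith, ?_, ?_⟩
      · have e2 := abs_sub_round (z.re / 2)
        have e : (z - (round (z.re / 2) : ℤ) * 2).re = 2 * (z.re / 2 - round (z.re / 2)) := by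
          simp
          ring
        rw [e, abs_mul, abs_two]
        linarith
      · rw [one_le_norm, him]
        nlinarith [sq_nonneg (z - (round (z.re / 2) : ℤ) * 2).re]
    have := hDb _ hzD
    rwa [him] at this
  have hPb : ∀ z : ℂ, 2 ≤ z.im → ‖P z‖ ≤ K + ‖c‖ := by
    intro z hz
    simp only [hPdef]
    refine (norm_sub_le _ _).trans ?_
    gcongr
    unfold prim
    rw [norm_mul, norm_neg, norm_I, one_mul]
    have e1 : ‖∫ t in Ioi (0 : ℝ), g (z + t * I)‖ ≤ ∫ t in Ioi (0 : ℝ), K * Real.exp (-t) := by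
      refine norm_integral_le_of_norm_le ((integrableOn_exp_neg_Ioi 0).const_mul K) ?_
      rw [ae_restrict_iff' measurableSet_Ioi]
      refine Eventually.of_forall fun t ht => ?_
      have ht' : 0 < t := ht
      have e2 := hgb (z + t * I) (by rw [add_I_im]; linarith)
      rw [add_I_im] at e2
      refine e2.trans ?_
      gcongr
      linarith
    refine e1.trans ?_
    rw [integral_const_mul, integral_exp_neg_Ioi_zero, mul_one]
  -- maximum principle
  have hPz := h2 P (fun z hz => (hPd z hz).differentiableAt) (fun z hz => by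
      simp only [hPdef]
      rw [hPper z hz])
    (fun z hz => by
      have e1 := hQ z hz
      have e2 : P (-z⁻¹) = -(ε * P z) := eq_neg_of_add_eq_zero_left e1
      rw [e2, norm_neg, norm_mul, hεn, one_mul]) (K + ‖c‖) hPb hcusp
  -- hence `g = 0`
  have hgz : ∀ z ∈ Om1, g z = 0 := by
    intro z hz
    have e1 : P =ᶠ[𝓝 z] fun _ => (0 : ℂ) := by
      filter_upwards [isOpen_Om1.mem_nhds hz] with w hw using hPz w hw
    have e2 := (hPd z hz).congr_of_eventuallyEq e1.symm
    exact e2.unique (hasDerivAt_const z (0 : ℂ)) |> fun h => h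
  -- hence `W = 0`
  have hWdo : DifferentiableOn ℂ W Om1 := fun z hz => (hWd z hz).differentiableWithinAt
  have hWan : AnalyticOnNhd ℂ W Om1 := hWdo.analyticOnNhd isOpen_Om1
  have hpI : (2 * I : ℂ).im = 2 := by simp
  refine hWan.eqOn_of_preconnected_of_eventuallyEq analyticOnNhd_const preconn_Om1
    (z₀ := 2 * I) (high_Om1 (by rw [hpI]; norm_num)) ?_
  have e1 : ∀ᶠ z : ℂ in 𝓝 (2 * I : ℂ), 1 < z.im :=
    (Complex.continuous_im.tendsto _).eventually (lt_mem_nhds (by rw [hpI]; norm_num))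
  filter_upwards [e1] with z hz
  have e2 := hgz z (high_Om1 hz)
  simp only [hg] at e2
  exact (mul_eq_zero.1 e2).resolve_right (theta_ne_zero hz.le)

end Pool.Agent.W741.SqUniq
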