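import Pool.Agent.W564.MY.Defs

/-! Sub-task MY-1: difference quotients of weakly differentiable functions. -/

set_option autoImplicit false

noncomputable section

namespace Pool.Agent.W741.MY

open MeasureTheory Metric Set Filter Topology
open scoped ENNReal Convolution ContDiff
open Pool.Agent.W564.MY

/-- Jensen / Hölder on a probability measure. -/
theorem lint_sq_le {α : Type*} [MeasurableSpace α] (ν : Measure α) (hν : ν univ = 1)
    {h : α → ℝ≥0∞} (hh : AEMeasurable h ν) :
    (∫⁻ a, h a ∂ν) ^ (2 : ℝ) ≤ ∫⁻ a, h a ^ (2 : ℝ) ∂ν := by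
  have hpq : (2 : ℝ).HolderConjugate 2 := Real.HolderConjugate.two_two
  have := ENNReal.lintegral_mul_le_Lp_mul_Lq ν hpq hh (g := fun _ => 1) aemeasurable_const
  simp only [Pi.mul_apply, mul_one, ENNReal.one_rpow, lintegral_const, hν] at this
  calc (∫⁻ a, h a ∂ν) ^ (2 : ℝ) ≤ ((∫⁻ a, h a ^ (2 : ℝ) ∂ν) ^ (1 / (2 : ℝ))) ^ (2 : ℝ) :=
        ENNReal.rpow_le_rpow this (by norm_num)
    _ = _ := by
        rw [← ENNReal.rpow_mul]
        norm_num

variable {V : Type} [NormedAddCommGroup V] [NormedSpace ℝ V] [FiniteDimensional ℝ V]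
  [MeasureSpace V] [BorelSpace V] [(volume : Measure V).IsAddHaarMeasure]

/-- continuity of translations in `L²`. -/
theorem transl (g : V → ℂ) (hg : MemLp g 2 volume) (η : ℝ≥0∞) (hη : 0 < η) :
    ∃ ε : ℝ, 0 < ε ∧ ∀ t : V, ‖t‖ < ε →
      eLpNorm (fun z => g (z - t) - g z) 2 volume ≤ η := by
  let G : V → C(V, V) := fun t => ⟨fun z => z - t, by fun_prop⟩
  have hG : Continuous G := ContinuousMap.continuous_of_continuous_uncurry _ (by
    show Continuous fun p : V × V => p.2 - p.1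
    fun_prop)
  have hmp : ∀ t, MeasurePreserving (G t) volume volume := fun t =>
    measurePreserving_sub_right volume t
  have hc : Continuous fun t => Lp.compMeasurePreserving (G t) (hmp t) (hg.toLp g) :=
    Continuous.compMeasurePreservingLp continuous_const hG hmp (by norm_num)
  have h0 := hc.tendsto 0
  rw [EMetric.tendsto_nhds] at h0
  have h1 := h0 η hη
  rw [Metric.eventually_nhds_iff] at h1
  obtain ⟨ε, hε, h2⟩ := h1
  refine ⟨ε, hε, fun t ht => ?_⟩
  have h3 := h2 (y := t) (by rw [dist_eq_norm, sub_zero]; exact ht)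
  rw [Lp.edist_def] at h3
  have hcoe : ∀ s : V,
      (Lp.compMeasurePreserving (G s) (hmp s) (hg.toLp g) : V → ℂ) =ᵐ[volume]
      fun z => g (z - s) := by
    intro s
    have e1 := Lp.coeFn_compMeasurePreserving (hg.toLp g) (hmp s)
    have e2 : (fun z => (hg.toLp g : V → ℂ) (G s z)) =ᵐ[volume] fun z => g (G s z) :=
      (hmp s).quasiMeasurePreserving.ae_eq_comp hg.coeFn_toLp
    exact e1.trans e2
  have h4 : eLpNorm (fun z => g (z - t) - g z) 2 volume =
      eLpNorm ((Lp.compMeasurePreserving (G t) (hmp t) (hg.toLp g) : V → ℂ) -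
        (Lp.compMeasurePreserving (G 0) (hmp 0) (hg.toLp g) : V → ℂ)) 2 volume := by
    apply eLpNorm_congr_ae
    filter_upwards [hcoe t, hcoe 0] with z h5 h6
    rw [Pi.sub_apply, h5, h6, sub_zero]
  rw [h4]
  exact h3.le

theorem moll (g : V → ℂ) (hgm : Measurable g) (hg : MemLp g 2 volume)
    (ρ : V → ℝ)
    (hρc : Continuous ρ) (hρs : HasCompactSupport ρ) (hρ0 : ∀ t, 0 ≤ ρ t) (hρ1 : ∫ t, ρ t = 1)
    (ε : ℝ) (hρε : ∀ t, ρ t ≠ 0 → ‖t‖ < ε) (η : ℝ≥0∞)
    (h : ∀ t : V, ‖t‖ < ε → eLpNorm (fun z => g (z - t) - g z) 2 volume ≤ η) :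
    eLpNorm (fun z => (∫ t, ρ t • g (z - t)) - g z) 2 volume ≤ η := by
  have hρint : Integrable ρ := hρc.integrable_of_hasCompactSupport hρs
  have hloc : LocallyIntegrable g volume := hg.locallyIntegrable (by norm_num)
  have hρm : Measurable fun t => ‖ρ t‖ₑ := hρc.measurable.enorm
  set ν : Measure V := volume.withDensity fun t => ‖ρ t‖ₑ with hν
  have hρ1' : ∫⁻ t, ‖ρ t‖ₑ = 1 := by
    rw [← ofReal_integral_norm_eq_lintegral_enorm hρint]
    have : ∫ x, ‖ρ x‖ = 1 := by
      rw [← hρ1]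
      refine integral_congr_ae (Filter.Eventually.of_forall fun w => ?_)
      exact Real.norm_of_nonneg (hρ0 w)
    rw [this, ENNReal.ofReal_one]
  have hν1 : ν univ = 1 := by
    rw [hν, withDensity_apply _ MeasurableSet.univ, Measure.restrict_univ, hρ1']
  have hpt : ∀ z, ‖(∫ t, ρ t • g (z - t)) - g z‖ₑ ^ (2 : ℝ) ≤
      ∫⁻ t, ‖ρ t‖ₑ * ‖g (z - t) - g z‖ₑ ^ (2 : ℝ) := by
    intro z
    have hi1 : Integrable fun t => ρ t • g (z - t) :=
      hρs.convolutionExists_left (ContinuousLinearMap.lsmul ℝ ℝ) hρc hloc z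
    have hi2 : Integrable fun t => ρ t • g z := hρint.smul_const _
    have e1 : (∫ t, ρ t • g (z - t)) - g z = ∫ t, ρ t • (g (z - t) - g z) := by
      have : ∫ t, ρ t • g z = g z := by rw [integral_smul_const, hρ1, one_smul]
      calc (∫ t, ρ t • g (z - t)) - g z = (∫ t, ρ t • g (z - t)) - ∫ t, ρ t • g z := by rw [this]
        _ = ∫ t, (ρ t • g (z - t) - ρ t • g z) := (integral_sub hi1 hi2).symm
        _ = _ := by simp only [smul_sub]
    have hm1 : Measurable fun t => ‖g (z - t) - g z‖ₑ :=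
      ((hgm.comp (measurable_const.sub measurable_id)).sub measurable_const).enorm
    have h1 : ‖∫ t, ρ t • (g (z - t) - g z)‖ₑ ≤ ∫⁻ t, ‖g (z - t) - g z‖ₑ ∂ν := by
      refine (enorm_integral_le_lintegral_enorm _).trans (le_of_eq ?_)
      rw [hν, lintegral_withDensity_eq_lintegral_mul _ hρm hm1]
      refine lintegral_congr fun t => ?_
      rw [enorm_smul]
      rfl
    rw [e1]
    calc ‖∫ t, ρ t • (g (z - t) - g z)‖ₑ ^ (2 : ℝ) ≤ (∫⁻ t, ‖g (z - t) - g z‖ₑ ∂ν) ^ (2 : ℝ) :=
          ENNReal.rpow_le_rpow h1 (by norm_num)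
      _ ≤ ∫⁻ t, ‖g (z - t) - g z‖ₑ ^ (2 : ℝ) ∂ν := lint_sq_le ν hν1 hm1.aemeasurable
      _ = _ := by
          rw [hν, lintegral_withDensity_eq_lintegral_mul _ hρm (hm1.pow_const _)]
          rfl
  have hmm : Measurable fun q : V × V =>
      ‖ρ q.2‖ₑ * ‖g (q.1 - q.2) - g q.1‖ₑ ^ (2 : ℝ) :=
    (hρm.comp measurable_snd).mul ((((hgm.comp (measurable_fst.sub measurable_snd)).sub
      (hgm.comp measurable_fst)).enorm).pow_const _)
  have key : ∫⁻ z, ‖(∫ t, ρ t • g (z - t)) - g z‖ₑ ^ (2 : ℝ) ≤ η ^ (2 : ℝ) := by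
    calc ∫⁻ z, ‖(∫ t, ρ t • g (z - t)) - g z‖ₑ ^ (2 : ℝ)
        ≤ ∫⁻ z, ∫⁻ t, ‖ρ t‖ₑ * ‖g (z - t) - g z‖ₑ ^ (2 : ℝ) := lintegral_mono hpt
      _ = ∫⁻ t, ∫⁻ z, ‖ρ t‖ₑ * ‖g (z - t) - g z‖ₑ ^ (2 : ℝ) :=
          lintegral_lintegral_swap hmm.aemeasurable
      _ ≤ ∫⁻ t, ‖ρ t‖ₑ * η ^ (2 : ℝ) := by
          refine lintegral_mono fun t => ?_
          simp only
          have hmt : Measurable fun z => ‖g (z - t) - g z‖ₑ ^ (2 : ℝ) :=
            (((hgm.comp (measurable_id.sub_const t)).sub hgm).enorm).pow_const _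
          rw [lintegral_const_mul _ hmt]
          by_cases ht : ρ t = 0
          · rw [ht]; simp
          · gcongr
            have h1 := h t (hρε t ht)
            rw [eLpNorm_eq_lintegral_rpow_enorm_toReal (by norm_num) (by norm_num)] at h1
            simp only [ENNReal.toReal_ofNat] at h1
            have h2 := ENNReal.rpow_le_rpow h1 (show (0 : ℝ) ≤ 2 by norm_num)
            rw [← ENNReal.rpow_mul] at h2
            norm_num at h2
            norm_num
            exact h2
      _ = η ^ (2 : ℝ) := by rw [lintegral_mul_const _ hρm, hρ1', one_mul]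
  rw [eLpNorm_eq_lintegral_rpow_enorm_toReal (by norm_num) (by norm_num)]
  simp only [ENNReal.toReal_ofNat]
  calc (∫⁻ z, ‖(∫ t, ρ t • g (z - t)) - g z‖ₑ ^ (2 : ℝ)) ^ (1 / (2 : ℝ))
      ≤ (η ^ (2 : ℝ)) ^ (1 / (2 : ℝ)) := ENNReal.rpow_le_rpow key (by norm_num)
    _ = η := by rw [← ENNReal.rpow_mul]; norm_num

/-- the derivative of the mollified function -/
theorem moll_deriv (φ : ContDiffBump (0 : V)) {ψ g : V → ℂ} {v : V} (hψ : MemLp ψ 2 volume)
    (h : WeakDir v ψ g) :
    ContDiff ℝ ((⊤ : ℕ∞) : WithTop ℕ∞) (fun x => ∫ t, φ.normed volume t • ψ (x - t)) ∧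
    ∀ x, fderiv ℝ (fun x => ∫ t, φ.normed volume t • ψ (x - t)) x v =
      ∫ t, φ.normed volume t • g (x - t) := by
  have hloc : LocallyIntegrable ψ volume := hψ.locallyIntegrable (by norm_num)
  set ρ : V → ℝ := φ.normed volume with hρ
  have hρs : ContDiff ℝ ((⊤ : ℕ∞) : WithTop ℕ∞) ρ := φ.contDiff_normed
  have hρ1 : ContDiff ℝ 1 ρ := hρs.of_le (by exact_mod_cast le_top)
  have hρc : HasCompactSupport ρ := φ.hasCompactSupport_normed
  have hfun : (fun x => ∫ t, ρ t • ψ (x - t)) =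
      (ρ ⋆[ContinuousLinearMap.lsmul ℝ ℝ, volume] ψ) := rfl
  refine ⟨?_, ?_⟩
  · rw [hfun]
    exact hρc.contDiff_convolution_left (ContinuousLinearMap.lsmul ℝ ℝ) hρs hloc
  intro x
  have h1 := hρc.hasFDerivAt_convolution_left (ContinuousLinearMap.lsmul ℝ ℝ) hρ1 hloc x
  have h2 : ConvolutionExistsAt (fderiv ℝ ρ) ψ x
      ((ContinuousLinearMap.lsmul ℝ ℝ : ℝ →L[ℝ] ℂ →L[ℝ] ℂ).precompL V) volume :=
    (hρc.fderiv ℝ).convolutionExists_left _ (hρ1.continuous_fderiv (by norm_num)) hloc x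
  have h3 : fderiv ℝ (fun x => ∫ t, ρ t • ψ (x - t)) x v =
      ∫ t, (fderiv ℝ ρ t v : ℝ) • ψ (x - t) := by
    rw [hfun, h1.fderiv]
    unfold convolution
    rw [ContinuousLinearMap.integral_apply h2]
    refine integral_congr_ae (Eventually.of_forall fun t => ?_)
    simp [ContinuousLinearMap.precompL_apply]
  have h4 : ∫ t, (fderiv ℝ ρ t v : ℝ) • ψ (x - t) =
      ∫ y, (fderiv ℝ ρ (x - y) v : ℝ) • ψ y := by
    rw [← integral_sub_left_eq_self (fun y => (fderiv ℝ ρ (x - y) v : ℝ) • ψ y) volume x]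
    refine integral_congr_ae (Eventually.of_forall fun t => ?_)
    simp
  have hcs : HasCompactSupport (fun y => ((ρ (x - y) : ℝ) : ℂ)) :=
    (hρc.comp_homeomorph (Homeomorph.subLeft x)).comp_left (g := fun r : ℝ => (r : ℂ))
      Complex.ofReal_zero
  have hsm' : ContDiff ℝ ((⊤ : ℕ∞) : WithTop ℕ∞) (fun y => ρ (x - y)) :=
    hρs.comp (contDiff_const.sub contDiff_id)
  have hsm : ContDiff ℝ ((⊤ : ℕ∞) : WithTop ℕ∞) (fun y => ((ρ (x - y) : ℝ) : ℂ)) :=
    Complex.ofRealCLM.contDiff.comp hsm'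
  have hpd : ∀ y, fderiv ℝ (fun y => ((ρ (x - y) : ℝ) : ℂ)) y v =
      - ((fderiv ℝ ρ (x - y) v : ℝ) : ℂ) := by
    intro y
    have e1 : HasFDerivAt (fun y : V => x - y)
        (-ContinuousLinearMap.id ℝ V) y := (hasFDerivAt_id y).const_sub x
    have e2 : HasFDerivAt ρ (fderiv ℝ ρ (x - y)) (x - y) :=
      (hρ1.differentiable (by norm_num) (x - y)).hasFDerivAt
    have e3 := e2.comp y e1
    have e5 := (Complex.ofRealCLM.hasFDerivAt (x := ρ (x - y))).comp y e3
    have e4 : fderiv ℝ (fun y => ((ρ (x - y) : ℝ) : ℂ)) y =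
        Complex.ofRealCLM.comp ((fderiv ℝ ρ (x - y)).comp
          (-ContinuousLinearMap.id ℝ V)) := e5.fderiv
    rw [e4]
    simp
  have h5 := h (fun y => ((ρ (x - y) : ℝ) : ℂ)) hsm hcs
  have h6 : ∫ y, (fderiv ℝ ρ (x - y) v : ℝ) • ψ y = ∫ y, (ρ (x - y) : ℝ) • g y := by
    have e1 : ∫ y, ψ y * fderiv ℝ (fun y => ((ρ (x - y) : ℝ) : ℂ)) y v =
        - ∫ y, (fderiv ℝ ρ (x - y) v : ℝ) • ψ y := by
      rw [← integral_neg]
      refine integral_congr_ae (Eventually.of_forall fun y => ?_)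
      simp only [hpd y, Complex.real_smul]
      ring
    have e2 : ∫ y, g y * ((ρ (x - y) : ℝ) : ℂ) = ∫ y, (ρ (x - y) : ℝ) • g y := by
      refine integral_congr_ae (Eventually.of_forall fun y => ?_)
      simp only [Complex.real_smul]
      ring
    rw [e1, e2] at h5
    exact neg_injective h5
  have h7 : ∫ t, ρ t • g (x - t) = ∫ y, (ρ (x - y) : ℝ) • g y := by
    rw [← integral_sub_left_eq_self (fun y => (ρ (x - y) : ℝ) • g y) volume x]
    refine integral_congr_ae (Eventually.of_forall fun t => ?_)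
    simp
  rw [h3, h4, h6, h7]

/-- averages of translates over a unit interval -/
theorem avg (h : V → ℂ) (hh : Continuous h) (v : V) (t : ℝ) (η : ℝ≥0∞)
    (hη : ∀ s ∈ Set.Icc (0 : ℝ) 1,
      eLpNorm (fun z => h (z + (s * t) • v) - h z) 2 volume ≤ η) :
    eLpNorm (fun z => ∫ s in (0 : ℝ)..1, (h (z + (s * t) • v) - h z)) 2 volume ≤ η := by
  set ν : Measure ℝ := volume.restrict (Set.Ioc (0 : ℝ) 1) with hν
  have hν1 : ν univ = 1 := by
    rw [hν, Measure.restrict_apply_univ]
    simp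
  have hmc : Continuous fun q : V × ℝ => h (q.1 + (q.2 * t) • v) - h q.1 := by fun_prop
  have hmm : Measurable fun q : V × ℝ => ‖h (q.1 + (q.2 * t) • v) - h q.1‖ₑ ^ (2 : ℝ) :=
    (hmc.measurable.enorm).pow_const _
  have hpt : ∀ z, ‖∫ s in (0 : ℝ)..1, (h (z + (s * t) • v) - h z)‖ₑ ^ (2 : ℝ) ≤
      ∫⁻ s, ‖h (z + (s * t) • v) - h z‖ₑ ^ (2 : ℝ) ∂ν := by
    intro z
    have hcz : Continuous fun s : ℝ => h (z + (s * t) • v) - h z := by fun_prop
    rw [intervalIntegral.integral_of_le zero_le_one]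
    calc ‖∫ s in Set.Ioc (0 : ℝ) 1, (h (z + (s * t) • v) - h z)‖ₑ ^ (2 : ℝ)
        ≤ (∫⁻ s, ‖h (z + (s * t) • v) - h z‖ₑ ∂ν) ^ (2 : ℝ) :=
          ENNReal.rpow_le_rpow (enorm_integral_le_lintegral_enorm _) (by norm_num)
      _ ≤ _ := lint_sq_le ν hν1 hcz.measurable.enorm.aemeasurable
  have key : ∫⁻ z, ‖∫ s in (0 : ℝ)..1, (h (z + (s * t) • v) - h z)‖ₑ ^ (2 : ℝ) ≤ η ^ (2 : ℝ) := by
    calc ∫⁻ z, ‖∫ s in (0 : ℝ)..1, (h (z + (s * t) • v) - h z)‖ₑ ^ (2 : ℝ)
        ≤ ∫⁻ z : V, (∫⁻ s, ‖h (z + (s * t) • v) - h z‖ₑ ^ (2 : ℝ) ∂ν) := lintegral_mono hpt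
      _ = ∫⁻ s, (∫⁻ z : V, ‖h (z + (s * t) • v) - h z‖ₑ ^ (2 : ℝ)) ∂ν :=
          lintegral_lintegral_swap hmm.aemeasurable
      _ ≤ ∫⁻ s, η ^ (2 : ℝ) ∂ν := by
          rw [hν]
          refine setLIntegral_mono' measurableSet_Ioc fun s hs => ?_
          have h1 := hη s ⟨hs.1.le, hs.2⟩
          rw [eLpNorm_eq_lintegral_rpow_enorm_toReal (by norm_num) (by norm_num)] at h1
          simp only [ENNReal.toReal_ofNat] at h1
          have h2 := ENNReal.rpow_le_rpow h1 (show (0 : ℝ) ≤ 2 by norm_num)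
          rw [← ENNReal.rpow_mul] at h2
          norm_num at h2
          norm_num
          exact h2
      _ = η ^ (2 : ℝ) := by rw [lintegral_const, hν1, mul_one]
  rw [eLpNorm_eq_lintegral_rpow_enorm_toReal (by norm_num) (by norm_num)]
  simp only [ENNReal.toReal_ofNat]
  calc (∫⁻ z, ‖∫ s in (0 : ℝ)..1, (h (z + (s * t) • v) - h z)‖ₑ ^ (2 : ℝ)) ^ (1 / (2 : ℝ))
      ≤ (η ^ (2 : ℝ)) ^ (1 / (2 : ℝ)) := ENNReal.rpow_le_rpow key (by norm_num)
    _ = η := by rw [← ENNReal.rpow_mul]; norm_num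

/-- difference quotients of smooth functions as averages -/
theorem dq_smooth (w : V → ℂ) (hw : ContDiff ℝ ((⊤ : ℕ∞) : WithTop ℕ∞) w) (v : V) (t : ℝ)
    (ht : t ≠ 0) (x : V) :
    DQ v t w x - fderiv ℝ w x v =
      ∫ s in (0 : ℝ)..1, (fderiv ℝ w (x + (s * t) • v) v - fderiv ℝ w x v) := by
  have hc : Continuous fun y => fderiv ℝ w y v :=
    (hw.continuous_fderiv (by simp)).clm_apply continuous_const
  have hd : ∀ s : ℝ, HasDerivAt (fun s : ℝ => w (x + (s * t) • v))
      (t • fderiv ℝ w (x + (s * t) • v) v) s := by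
    intro s
    have h1 : HasDerivAt (fun s : ℝ => x + (s * t) • v) (t • v) s := by
      have := (((hasDerivAt_id s).mul_const t).smul_const v).const_add x
      simpa using this
    have h2 : HasFDerivAt w (fderiv ℝ w (x + (s * t) • v)) (x + (s * t) • v) :=
      (hw.differentiable (by simp) _).hasFDerivAt
    have h3 := h2.comp_hasDerivAt s h1
    rw [map_smul] at h3
    exact h3
  have hcs : Continuous fun s : ℝ => fderiv ℝ w (x + (s * t) • v) v :=
    hc.comp (continuous_const.add ((continuous_id.mul continuous_const).smul continuous_const) :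
      Continuous fun s : ℝ => x + (s * t) • v)
  have hi : IntervalIntegrable (fun s : ℝ => t • fderiv ℝ w (x + (s * t) • v) v) volume 0 1 :=
    (hcs.const_smul t).intervalIntegrable _ _
  have h4 := intervalIntegral.integral_eq_sub_of_hasDerivAt (fun s _ => hd s) hi
  rw [intervalIntegral.integral_smul] at h4
  simp only [one_mul, zero_mul, zero_smul, add_zero] at h4
  have hi2 : IntervalIntegrable (fun s : ℝ => fderiv ℝ w (x + (s * t) • v) v) volume 0 1 :=
    hcs.intervalIntegrable _ _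
  rw [intervalIntegral.integral_sub hi2 intervalIntegrable_const]
  simp only [intervalIntegral.integral_const, sub_zero, one_smul]
  unfold DQ
  rw [← h4]
  have ht' : (t : ℂ) ≠ 0 := by exact_mod_cast ht
  rw [Complex.real_smul, ← mul_assoc, inv_mul_cancel₀ ht', one_mul]

/-- MY-1 for measurable functions. -/
theorem dq_meas (v : V) (u g : V → ℂ) (hum : Measurable u) (hgm : Measurable g)
    (hu : MemLp u 2) (hg : MemLp g 2) (hw : WeakDir v u g) :
    Tendsto (fun t : ℝ => eLpNorm (fun x => DQ v t u x - g x) 2 volume) (𝓝[≠] 0) (𝓝 0) := by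
  rw [ENNReal.tendsto_nhds_zero]
  intro η hη
  -- work with `η/5`
  obtain ⟨ε, hε, hεη⟩ : ∃ ε : ℝ≥0∞, 0 < ε ∧ 5 * ε ≤ η := by
    refine ⟨η / 5, ENNReal.div_pos hη.ne' (by norm_num), ?_⟩
    rw [ENNReal.mul_div_cancel (by norm_num) (by norm_num)]
  obtain ⟨r, hr, hrg⟩ := transl g hg ε hε
  have hev : ∀ᶠ t : ℝ in 𝓝[≠] 0, t ≠ 0 ∧ ‖t • v‖ < r := by
    have h1 : ∀ᶠ t : ℝ in 𝓝 0, ‖t • v‖ < r := by
      have hc : Continuous fun t : ℝ => ‖t • v‖ := by fun_prop
      have := hc.tendsto 0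
      simp only [zero_smul, norm_zero] at this
      exact this.eventually (gt_mem_nhds hr)
    exact (eventually_nhdsWithin_of_forall fun t ht => ht).and (nhdsWithin_le_nhds h1)
  filter_upwards [hev] with t ht
  obtain ⟨ht0, htr⟩ := ht
  -- choose the mollification radius
  have hη' : 0 < ENNReal.ofReal |t| * ε / 2 := by
    refine ENNReal.div_pos ?_ (by norm_num)
    exact (ENNReal.mul_pos (ENNReal.ofReal_pos.2 (abs_pos.2 ht0)).ne' hε.ne').ne'
  obtain ⟨r', hr', hru⟩ := transl u hu _ hη'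
  let δ : ℝ := min r r'
  have hδ : 0 < δ := lt_min hr hr'
  let φ : ContDiffBump (0 : V) := ⟨δ / 2, δ, by positivity, by linarith⟩
  have hρc : Continuous (φ.normed volume) := φ.continuous_normed
  have hρs : HasCompactSupport (φ.normed volume) := φ.hasCompactSupport_normed
  have hρ1 : ∫ t, φ.normed volume t = 1 := φ.integral_normed
  have hρ0 : ∀ t, 0 ≤ φ.normed volume t := fun t => φ.nonneg_normed t
  have hρε : ∀ t, φ.normed volume t ≠ 0 → ‖t‖ < δ := by
    intro t ht
    have h1 : t ∈ Function.support (φ.normed volume) := ht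
    rw [φ.support_normed_eq, mem_ball_zero_iff] at h1
    exact h1
  obtain ⟨hws, hdw⟩ := moll_deriv φ hu hw
  have hA := moll u hum hu (φ.normed volume) hρc hρs hρ0 hρ1 δ hρε _
    (fun t ht => hru t (ht.trans_le (min_le_right _ _)))
  have hB := moll g hgm hg (φ.normed volume) hρc hρs hρ0 hρ1 δ hρε _
    (fun t ht => hrg t (ht.trans_le (min_le_left _ _)))
  set w : V → ℂ := fun x => ∫ t, φ.normed volume t • u (x - t) with hwdef
  set h : V → ℂ := fun x => fderiv ℝ w x v with hhdef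
  have hh : Continuous h := (hws.continuous_fderiv (by simp)).clm_apply continuous_const
  have hB' : eLpNorm (fun x => h x - g x) 2 volume ≤ ε := by
    have e : (fun x => h x - g x) = fun z => (∫ t, φ.normed volume t • g (z - t)) - g z := by
      funext x
      rw [hhdef]
      simp only [hdw x]
    rw [e]
    exact hB
  have hhm : AEStronglyMeasurable h volume := hh.aestronglyMeasurable
  have hwm : AEStronglyMeasurable w volume := hws.continuous.aestronglyMeasurable
  -- translations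
  have htrans : ∀ (f : V → ℂ), AEStronglyMeasurable f volume → ∀ a : V,
      eLpNorm (fun z => f (z + a)) 2 volume = eLpNorm f 2 volume := by
    intro f hf a
    exact eLpNorm_comp_measurePreserving hf (measurePreserving_add_right volume a)
  have hcomp : ∀ (f : V → ℂ), Measurable f → ∀ a : V,
      AEStronglyMeasurable (fun z => f (z + a)) volume := fun f hf a =>
    (hf.comp (measurable_id.add_const a)).aestronglyMeasurable
  -- translates of `h`
  have hC : ∀ s ∈ Set.Icc (0 : ℝ) 1,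
      eLpNorm (fun z => h (z + (s * t) • v) - h z) 2 volume ≤ 3 * ε := by
    intro s hs
    set a : V := (s * t) • v with ha
    have e : (fun z => h (z + a) - h z) =
        (fun z => (h (z + a) - g (z + a))) + ((fun z => g (z + a) - g z) +
          fun z => g z - h z) := by
      funext z
      simp only [Pi.add_apply]
      ring
    rw [e]
    have m1 : AEStronglyMeasurable (fun z => h z - g z) volume :=
      hhm.sub hgm.aestronglyMeasurable
    have m1' : AEStronglyMeasurable (fun z => (h (z + a) - g (z + a))) volume :=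
      (hcomp h hh.measurable a).sub (hcomp g hgm a)
    have m2 : AEStronglyMeasurable (fun z => g (z + a) - g z) volume :=
      (hcomp g hgm a).sub hgm.aestronglyMeasurable
    have m3 : AEStronglyMeasurable (fun z => g z - h z) volume :=
      hgm.aestronglyMeasurable.sub hhm
    have n1 : eLpNorm (fun z => (h (z + a) - g (z + a))) 2 volume ≤ ε := by
      rw [htrans (fun z => h z - g z) m1 a]
      exact hB'
    have n2 : eLpNorm (fun z => g (z + a) - g z) 2 volume ≤ ε := by
      have := hrg (-a) (by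
        rw [norm_neg, ha, mul_smul, norm_smul, Real.norm_of_nonneg hs.1]
        calc s * ‖t • v‖ ≤ 1 * ‖t • v‖ := by gcongr; exact hs.2
          _ < r := by rw [one_mul]; exact htr)
      simpa only [sub_neg_eq_add] using this
    have n3 : eLpNorm (fun z => g z - h z) 2 volume ≤ ε := by
      have e : (fun z => g z - h z) = -fun z => h z - g z := by
        funext z
        simp
      rw [e, eLpNorm_neg]
      exact hB'
    calc _ ≤ _ + _ := eLpNorm_add_le m1' (m2.add m3) (by norm_num)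
      _ ≤ _ + (_ + _) := by
          gcongr
          exact eLpNorm_add_le m2 m3 (by norm_num)
      _ ≤ ε + (ε + ε) := by gcongr
      _ = 3 * ε := by ring
  have hD : eLpNorm (fun x => DQ v t w x - h x) 2 volume ≤ 3 * ε := by
    have e : (fun x => DQ v t w x - h x) =
        fun z => ∫ s in (0 : ℝ)..1, (h (z + (s * t) • v) - h z) := by
      funext x
      exact dq_smooth w hws v t ht0 x
    rw [e]
    exact avg h hh v t _ hC
  -- the first error
  have hE : eLpNorm (fun x => DQ v t u x - DQ v t w x) 2 volume ≤ ε := by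
    have e : (fun x => DQ v t u x - DQ v t w x) =
        ((t : ℂ)⁻¹) • ((fun x => (w x - u x)) - fun x => (w (x + t • v) - u (x + t • v))) := by
      funext x
      simp only [DQ, Pi.smul_apply, Pi.sub_apply, smul_eq_mul]
      ring
    rw [e, eLpNorm_const_smul]
    have m1 : AEStronglyMeasurable (fun z => w z - u z) volume :=
      hwm.sub hum.aestronglyMeasurable
    have m2 : AEStronglyMeasurable (fun z => w (z + t • v) - u (z + t • v)) volume :=
      (hcomp w hws.continuous.measurable _).sub (hcomp u hum _)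
    have n2 : eLpNorm (fun z => w (z + t • v) - u (z + t • v)) 2 volume =
        eLpNorm (fun z => w z - u z) 2 volume := htrans (fun z => w z - u z) m1 _
    have hc : ‖((t : ℂ)⁻¹)‖ₑ = (ENNReal.ofReal |t|)⁻¹ := by
      rw [enorm_inv (by exact_mod_cast ht0)]
      congr 1
      rw [← ofReal_norm_eq_enorm, Complex.norm_real, Real.norm_eq_abs]
    have h0 : ENNReal.ofReal |t| ≠ 0 := (ENNReal.ofReal_pos.2 (abs_pos.2 ht0)).ne'
    calc _ ≤ ‖((t : ℂ)⁻¹)‖ₑ * (ENNReal.ofReal |t| * ε / 2 + ENNReal.ofReal |t| * ε / 2) := by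
          gcongr
          refine (eLpNorm_sub_le m1 m2 (by norm_num)).trans ?_
          rw [n2]
          gcongr
      _ = ε := by
          rw [ENNReal.add_halves, hc, ← mul_assoc,
            ENNReal.inv_mul_cancel h0 ENNReal.ofReal_ne_top, one_mul]
  have e : (fun x => DQ v t u x - g x) = (fun x => DQ v t u x - DQ v t w x) +
      ((fun x => DQ v t w x - h x) + fun x => h x - g x) := by
    funext x
    simp only [Pi.add_apply]
    ring
  have hDm : ∀ f : V → ℂ, Measurable f → Measurable (DQ v t f) := by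
    intro f hf
    unfold DQ
    exact ((hf.comp (measurable_id.add_const _)).sub hf).const_mul _
  rw [e]
  have m1 : AEStronglyMeasurable (fun x => DQ v t u x - DQ v t w x) volume :=
    ((hDm u hum).sub (hDm w hws.continuous.measurable)).aestronglyMeasurable
  have m2 : AEStronglyMeasurable (fun x => DQ v t w x - h x) volume :=
    ((hDm w hws.continuous.measurable).sub hh.measurable).aestronglyMeasurable
  have m3 : AEStronglyMeasurable (fun x => h x - g x) volume :=
    hhm.sub hgm.aestronglyMeasurable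
  calc _ ≤ _ + _ := eLpNorm_add_le m1 (m2.add m3) (by norm_num)
    _ ≤ _ + (_ + _) := by
        gcongr
        exact eLpNorm_add_le m2 m3 (by norm_num)
    _ ≤ ε + (3 * ε + ε) := by gcongr
    _ = 5 * ε := by ring
    _ ≤ η := hεη

theorem dq_gen (v : V) (u g : V → ℂ) (hu : MemLp u 2) (hg : MemLp g 2) (hw : WeakDir v u g) :
    Tendsto (fun t : ℝ => eLpNorm (fun x => DQ v t u x - g x) 2 volume) (𝓝[≠] 0) (𝓝 0) := by
  have hue := hu.1.ae_eq_mk
  have hge := hg.1.ae_eq_mk
  have h1 := dq_meas v (hu.1.mk u) (hg.1.mk g) hu.1.stronglyMeasurable_mk.measurable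
    hg.1.stronglyMeasurable_mk.measurable (hu.ae_eq hue) (hg.ae_eq hge) (by
      intro φ hφ hφc
      have e1 : ∫ x, hu.1.mk u x * fderiv ℝ φ x v = ∫ x, u x * fderiv ℝ φ x v := by
        refine integral_congr_ae ?_
        filter_upwards [hue] with x hx
        rw [hx]
      have e2 : ∫ x, hg.1.mk g x * φ x = ∫ x, g x * φ x := by
        refine integral_congr_ae ?_
        filter_upwards [hge] with x hx
        rw [← hx]
      rw [e1, e2]
      exact hw φ hφ hφc)
  refine h1.congr fun t => ?_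
  apply eLpNorm_congr_ae
  have h2 : (fun x => hu.1.mk u (x + t • v)) =ᵐ[volume] fun x => u (x + t • v) :=
    (measurePreserving_add_right volume (t • v)).quasiMeasurePreserving.ae_eq_comp hue.symm
  filter_upwards [hue, hge, h2] with x h3 h4 h5
  simp only [DQ]
  rw [h5, ← h3, ← h4]

end Pool.Agent.W741.MY

open Pool.Agent.W564.MY in
/-- MY-1 -/
theorem Pool.Agent.W741.MY.dq : S_dq := by
  intro V _ _ _ _ _ _ v u g hu hg hw
  exact Pool.Agent.W741.MY.dq_gen v u g hu hg hw
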