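import Pool.Agent.W741.MYwin1

/-! Sub-task MY-2: orthonormality of the folded functions. -/

set_option autoImplicit false

noncomputable section

namespace Pool.Agent.W741.MY

open MeasureTheory Metric Set Filter Topology
open scoped ENNReal ContDiff ComplexConjugate
open Pool.Agent.W564.MY

/-- integral of a full period of an exponential -/
theorem exp_int {T : ℝ} (hT : 0 < T) (n : ℤ) :
    ∫ t in (0 : ℝ)..T, Complex.exp ((2 * Real.pi * n / T * t : ℝ) * Complex.I) =
      if n = 0 then (T : ℂ) else 0 := by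
  split_ifs with h
  · subst h
    simp
  · have hc : (2 * Real.pi * n / T : ℝ) * Complex.I ≠ 0 := by
      refine mul_ne_zero ?_ Complex.I_ne_zero
      have : (2 * Real.pi * n / T : ℝ) ≠ 0 := by
        have h1 : (n : ℝ) ≠ 0 := by exact_mod_cast h
        have := Real.pi_pos
        positivity
      exact_mod_cast this
    have e : (fun t : ℝ => Complex.exp ((2 * Real.pi * n / T * t : ℝ) * Complex.I)) =
        fun t : ℝ => Complex.exp ((((2 * Real.pi * n / T : ℝ) : ℂ) * Complex.I) * t) := by
      funext t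
      congr 1
      push_cast
      ring
    rw [e, integral_exp_mul_complex hc]
    have e2 : Complex.exp ((((2 * Real.pi * n / T : ℝ) : ℂ) * Complex.I) * T) = 1 := by
      have : (((2 * Real.pi * n / T : ℝ) : ℂ) * Complex.I) * T = n * (2 * Real.pi * Complex.I) := by
        have hT' : (T : ℂ) ≠ 0 := by exact_mod_cast hT.ne'
        push_cast
        field_simp
      rw [this, Complex.exp_int_mul_two_pi_mul_I]
    rw [e2]
    simp

theorem cell_split {J : ℕ} (hJ : 0 < J) {u : ℝ} (F : ℝ → ℂ) (hF : Continuous F) :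
    ∫ s in (0 : ℝ)..1, F s = ∑ j ∈ Finset.range J,
      ((∫ t in (0 : ℝ)..u, F (t + j / J)) + (∫ t in u..(1 / J - u), F (t + j / J)) +
        ∫ t in (0 : ℝ)..u, F (t + (1 / J - u) + j / J)) := by
  have hJ' : (J : ℝ) ≠ 0 := by exact_mod_cast hJ.ne'
  have h1 := intervalIntegral.sum_integral_adjacent_intervals (f := F) (μ := volume)
    (a := fun k : ℕ => (k : ℝ) / J) (n := J) (fun k _ => hF.intervalIntegrable _ _)
  simp only [Nat.cast_zero, zero_div, div_self hJ'] at h1
  rw [← h1]
  refine Finset.sum_congr rfl fun j _ => ?_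
  have h2 : ∫ s in ((j : ℝ) / J)..((j + 1 : ℕ) : ℝ) / J, F s =
      ∫ t in (0 : ℝ)..(1 / J), F (t + j / J) := by
    rw [intervalIntegral.integral_comp_add_right]
    congr 1
    · ring
    · push_cast
      ring
  have h3 : ∫ t in (0 : ℝ)..u, F (t + (1 / J - u) + j / J) =
      ∫ t in (1 / J - u)..(1 / J), F (t + j / J) := by
    rw [intervalIntegral.integral_comp_add_right (fun t => F (t + j / J))]
    congr 1
    · ring
    · ring
  have hG : Continuous fun t : ℝ => F (t + j / J) := hF.comp (by fun_prop)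
  rw [h2, h3, intervalIntegral.integral_add_adjacent_intervals (hG.intervalIntegrable _ _)
    (hG.intervalIntegrable _ _), intervalIntegral.integral_add_adjacent_intervals
    (hG.intervalIntegrable _ _) (hG.intervalIntegrable _ _)]

section
variable {J : ℕ} {u : ℝ} (hJ : 0 < J) (hu : 0 < u) (h2 : 2 * u ≤ 1 / J)
include hJ hu h2

theorem bulk_zero {i : ℕ} {k : ℤ} {j : ℕ} (hji : j ≠ i) {t : ℝ} (ht : 0 ≤ t) (ht' : t ≤ 1 / J) :
    bulk J u i k (t + j / J) = 0 := by
  have hJ' : (0 : ℝ) < J := by exact_mod_cast hJ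
  unfold bulk
  have hW : Wf u (1 / J - u) (t + j / J - i / J) = 0 := by
    rcases lt_or_gt_of_ne hji with h | h
    · refine Wf_zero_left hu ?_
      have : (j : ℝ) + 1 ≤ i := by exact_mod_cast h
      have h1 : ((j : ℝ) + 1) / J ≤ i / J := div_le_div_of_nonneg_right this hJ'.le
      rw [add_div] at h1
      linarith
    · refine Wf_zero_right hu ?_
      have : (i : ℝ) + 1 ≤ j := by exact_mod_cast h
      have h1 : ((i : ℝ) + 1) / J ≤ j / J := div_le_div_of_nonneg_right this hJ'.le
      rw [add_div] at h1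
      linarith
  rw [hW]
  simp

/-- the values of the bulk functions on their own cell -/
theorem bulk_own (i : ℕ) (k : ℤ) (t : ℝ) :
    bulk J u i k (t + i / J) = (Wf u (1 / J - u) t : ℂ) *
      Complex.exp ((2 * Real.pi * k / (1 / J - u) * t : ℝ) * Complex.I) /
        ((Real.sqrt (1 / J - u) : ℝ) : ℂ) := by
  unfold bulk
  rw [add_sub_cancel_right]

theorem bulk_own_right (i : ℕ) (k : ℤ) {t : ℝ} (ht : 0 ≤ t) :
    bulk J u i k (t + (1 / J - u) + i / J) = (Real.cos (ang (t / u)) : ℂ) *
      Complex.exp ((2 * Real.pi * k / (1 / J - u) * t : ℝ) * Complex.I) /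
        ((Real.sqrt (1 / J - u) : ℝ) : ℂ) := by
  have hl : 0 < 1 / (J : ℝ) - u := by linarith
  rw [bulk_own hJ hu h2, Wf_right hu (by linarith) ht]
  congr 2
  have e : ((2 * Real.pi * k / (1 / J - u) * (t + (1 / J - u)) : ℝ) : ℂ) * Complex.I =
      ((2 * Real.pi * k / (1 / J - u) * t : ℝ) : ℂ) * Complex.I + k * (2 * Real.pi * Complex.I) := by
    have h3 : (2 * Real.pi * k / (1 / J - u) * (t + (1 / J - u)) : ℝ) =
        2 * Real.pi * k / (1 / J - u) * t + k * (2 * Real.pi) := by
      rw [mul_add, div_mul_cancel₀ _ hl.ne']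
      ring
    rw [h3]
    push_cast
    ring
  rw [e, Complex.exp_add, Complex.exp_int_mul_two_pi_mul_I, mul_one]

theorem skel_left (m : ℤ) {j : ℕ} (hj : j < J) {t : ℝ} (ht : 0 ≤ t) (ht' : t ≤ u) :
    skel J u m (t + j / J) = (((-1 : ℝ) ^ j * Real.cos (ang (t / u)) : ℝ) : ℂ) *
      Complex.exp ((2 * Real.pi * m / (J * u) * (t + j * u) : ℝ) * Complex.I) /
        ((Real.sqrt (J * u) : ℝ) : ℂ) := by
  have hJ' : (0 : ℝ) < J := by exact_mod_cast hJ
  unfold skel
  rw [Finset.sum_eq_single_of_mem j (Finset.mem_range.2 (by omega)) fun i _ hij => ?_]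
  · rw [add_sub_cancel_right, bf_right hu ht, add_comm ((j : ℝ) * u) t]
  · have h0 : bf u (t + j / J - i / J) = 0 := by
      refine bf_zero hu ?_
      rcases lt_or_gt_of_ne hij with h | h
      · have : (i : ℝ) + 1 ≤ j := by exact_mod_cast h
        have h1 : ((i : ℝ) + 1) / J ≤ j / J := div_le_div_of_nonneg_right this hJ'.le
        rw [add_div] at h1
        rw [le_abs]
        left
        linarith
      · have : (j : ℝ) + 1 ≤ i := by exact_mod_cast h
        have h1 : ((j : ℝ) + 1) / J ≤ i / J := div_le_div_of_nonneg_right this hJ'.le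
        rw [add_div] at h1
        rw [le_abs]
        right
        linarith
    rw [h0]
    simp

theorem skel_mid (m : ℤ) {j : ℕ} {t : ℝ} (ht : u ≤ t) (ht' : t ≤ 1 / J - u) :
    skel J u m (t + j / J) = 0 := by
  have hJ' : (0 : ℝ) < J := by exact_mod_cast hJ
  unfold skel
  rw [Finset.sum_eq_zero fun i _ => ?_, zero_div]
  have h0 : bf u (t + j / J - i / J) = 0 := by
    refine bf_zero hu ?_
    rcases le_or_gt i j with h | h
    · have : (i : ℝ) ≤ j := by exact_mod_cast h
      have h1 : (i : ℝ) / J ≤ j / J := div_le_div_of_nonneg_right this hJ'.le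
      rw [le_abs]
      left
      linarith
    · have : (j : ℝ) + 1 ≤ i := by exact_mod_cast h
      have h1 : ((j : ℝ) + 1) / J ≤ i / J := div_le_div_of_nonneg_right this hJ'.le
      rw [add_div] at h1
      rw [le_abs]
      right
      linarith
  rw [h0]
  simp

theorem skel_right (m : ℤ) {j : ℕ} (hj : j < J) {t : ℝ} (ht : 0 ≤ t) (ht' : t ≤ u) :
    skel J u m (t + (1 / J - u) + j / J) = (((-1 : ℝ) ^ (j + 1) * Real.sin (ang (t / u)) : ℝ) : ℂ) *
      Complex.exp ((2 * Real.pi * m / (J * u) * (t + j * u) : ℝ) * Complex.I) /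
        ((Real.sqrt (J * u) : ℝ) : ℂ) := by
  have hJ' : (0 : ℝ) < J := by exact_mod_cast hJ
  unfold skel
  rw [Finset.sum_eq_single_of_mem (j + 1) (Finset.mem_range.2 (by omega)) fun i _ hij => ?_]
  · have e : t + (1 / (J : ℝ) - u) + j / J - ((j + 1 : ℕ) : ℝ) / J = t - u := by
      push_cast
      ring
    rw [e, bf_left hu ht']
    congr 3
    push_cast
    ring
  · have h0 : bf u (t + (1 / J - u) + j / J - i / J) = 0 := by
      refine bf_zero hu ?_
      rcases lt_or_gt_of_ne hij with h | h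
      · have : (i : ℝ) ≤ j := by exact_mod_cast (by omega : i ≤ j)
        have h1 : (i : ℝ) / J ≤ j / J := div_le_div_of_nonneg_right this hJ'.le
        rw [le_abs]
        left
        linarith
      · have : (j : ℝ) + 2 ≤ i := by exact_mod_cast (by omega : j + 2 ≤ i)
        have h1 : ((j : ℝ) + 2) / J ≤ i / J := div_le_div_of_nonneg_right this hJ'.le
        have h3 : (2 : ℝ) / J = 1 / J + 1 / J := by ring
        rw [add_div, h3] at h1
        rw [le_abs]
        right
        linarith
    rw [h0]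
    simp

end

/-- product of two phases -/
theorem phase_mul (a b : ℝ) :
    Complex.exp (((a : ℝ) : ℂ) * Complex.I) * conj (Complex.exp (((b : ℝ) : ℂ) * Complex.I)) =
      Complex.exp (((a - b : ℝ) : ℂ) * Complex.I) := by
  rw [← Complex.exp_conj, ← Complex.exp_add]
  congr 1
  simp
  ring

/-- general form of the products -/
theorem term_mul (w w' a b r : ℝ) (hr : 0 ≤ r) :
    ((w : ℂ) * Complex.exp (((a : ℝ) : ℂ) * Complex.I) / ((Real.sqrt r : ℝ) : ℂ)) *
      conj ((w' : ℂ) * Complex.exp (((b : ℝ) : ℂ) * Complex.I) / ((Real.sqrt r : ℝ) : ℂ)) =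
      ((w * w' : ℝ) : ℂ) * Complex.exp (((a - b : ℝ) : ℂ) * Complex.I) / (r : ℂ) := by
  rw [← phase_mul a b, map_div₀, map_mul, Complex.conj_ofReal, Complex.conj_ofReal]
  have h : ((Real.sqrt r : ℝ) : ℂ) * ((Real.sqrt r : ℝ) : ℂ) = (r : ℂ) := by
    rw [← Complex.ofReal_mul, Real.mul_self_sqrt hr]
  rw [← h]
  push_cast
  ring

theorem term_mul' (w w' a b r r' : ℝ) :
    ((w : ℂ) * Complex.exp (((a : ℝ) : ℂ) * Complex.I) / ((Real.sqrt r : ℝ) : ℂ)) *
      conj ((w' : ℂ) * Complex.exp (((b : ℝ) : ℂ) * Complex.I) / ((Real.sqrt r' : ℝ) : ℂ)) =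
      ((w * w' : ℝ) : ℂ) * Complex.exp (((a - b : ℝ) : ℂ) * Complex.I) /
        (((Real.sqrt r : ℝ) : ℂ) * ((Real.sqrt r' : ℝ) : ℂ)) := by
  rw [← phase_mul a b, map_div₀, map_mul, Complex.conj_ofReal, Complex.conj_ofReal]
  push_cast
  ring

section
variable {J : ℕ} {u : ℝ} (hJ : 0 < J) (hu : 0 < u) (h2 : 2 * u ≤ 1 / J)
include hJ hu h2

theorem bulk_bulk (i : ℕ) (hi : i < J) (i' : ℕ) (hi' : i' < J) (k k' : ℤ) :
    ∫ s in (0 : ℝ)..1, bulk J u i k s * conj (bulk J u i' k' s) =
        if i = i' ∧ k = k' then 1 else 0 := by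
  have hJ' : (0 : ℝ) < J := by exact_mod_cast hJ
  have hl : 0 < 1 / (J : ℝ) - u := by linarith
  have hc : Continuous fun s => bulk J u i k s * conj (bulk J u i' k' s) :=
    (bulk_smooth J u i k).continuous.mul
      (Complex.continuous_conj.comp (bulk_smooth J u i' k').continuous)
  rw [cell_split hJ (u := u) _ hc]
  -- the other cells
  have hz : ∀ j : ℕ, (j ≠ i ∨ j ≠ i') →
      ((∫ t in (0 : ℝ)..u, bulk J u i k (t + j / J) * conj (bulk J u i' k' (t + j / J))) +
        (∫ t in u..(1 / J - u), bulk J u i k (t + j / J) * conj (bulk J u i' k' (t + j / J))) +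
        ∫ t in (0 : ℝ)..u, bulk J u i k (t + (1 / J - u) + j / J) *
          conj (bulk J u i' k' (t + (1 / J - u) + j / J))) = 0 := by
    intro j hj
    have hval : ∀ t : ℝ, 0 ≤ t → t ≤ 1 / J →
        bulk J u i k (t + j / J) * conj (bulk J u i' k' (t + j / J)) = 0 := by
      intro t ht ht'
      rcases hj with hj | hj
      · rw [bulk_zero hJ hu h2 hj ht ht', zero_mul]
      · rw [bulk_zero hJ hu h2 hj ht ht', map_zero, mul_zero]
    have e1 : ∫ t in (0 : ℝ)..u, bulk J u i k (t + j / J) * conj (bulk J u i' k' (t + j / J)) = 0 := by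
      rw [intervalIntegral.integral_congr (g := fun _ => (0 : ℂ)) fun t ht => ?_,
        intervalIntegral.integral_zero]
      rw [uIcc_of_le hu.le] at ht
      exact hval t ht.1 (by linarith [ht.2])
    have e2 : ∫ t in u..(1 / J - u), bulk J u i k (t + j / J) *
        conj (bulk J u i' k' (t + j / J)) = 0 := by
      rw [intervalIntegral.integral_congr (g := fun _ => (0 : ℂ)) fun t ht => ?_,
        intervalIntegral.integral_zero]
      rw [uIcc_of_le (by linarith)] at ht
      exact hval t (by linarith [ht.1]) (by linarith [ht.2])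
    have e3 : ∫ t in (0 : ℝ)..u, bulk J u i k (t + (1 / J - u) + j / J) *
          conj (bulk J u i' k' (t + (1 / J - u) + j / J)) = 0 := by
      rw [intervalIntegral.integral_congr (g := fun _ => (0 : ℂ)) fun t ht => ?_,
        intervalIntegral.integral_zero]
      rw [uIcc_of_le hu.le] at ht
      exact hval _ (by linarith [ht.1]) (by linarith [ht.2])
    rw [e1, e2, e3]
    simp
  by_cases hii : i = i'
  · subst hii
    rw [Finset.sum_eq_single_of_mem i (Finset.mem_range.2 hi) fun j _ hj => hz j (Or.inl hj)]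
    set l' : ℝ := 1 / J - u with hl'
    -- value of the product
    have hA : ∀ a b w : ℝ, ((w * w : ℝ) : ℂ) * Complex.exp (((a - b : ℝ) : ℂ) * Complex.I) / (l' : ℂ) =
        ((w * w : ℝ) : ℂ) * Complex.exp (((a - b : ℝ) : ℂ) * Complex.I) / (l' : ℂ) := fun _ _ _ => rfl
    have hph : ∀ t : ℝ, (2 * Real.pi * k / l' * t - 2 * Real.pi * k' / l' * t : ℝ) =
        2 * Real.pi * ((k - k' : ℤ) : ℝ) / l' * t := by
      intro t
      push_cast
      ring
    set P : ℝ → ℂ := fun t => Complex.exp ((2 * Real.pi * ((k - k' : ℤ) : ℝ) / l' * t : ℝ) *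
      Complex.I) with hP
    have hPc : Continuous P := by
      rw [hP]
      fun_prop
    have e1 : ∫ t in (0 : ℝ)..u, bulk J u i k (t + i / J) * conj (bulk J u i k' (t + i / J)) =
        ∫ t in (0 : ℝ)..u, ((Real.sin (ang (t / u)) ^ 2 : ℝ) : ℂ) * P t / (l' : ℂ) := by
      refine intervalIntegral.integral_congr fun t ht => ?_
      rw [uIcc_of_le hu.le] at ht
      rw [bulk_own hJ hu h2, bulk_own hJ hu h2, ← hl', term_mul _ _ _ _ _ hl.le, hph,
        Wf_left hu (by linarith) ht.2, sq]
    have e2 : ∫ t in u..l', bulk J u i k (t + i / J) * conj (bulk J u i k' (t + i / J)) =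
        ∫ t in u..l', P t / (l' : ℂ) := by
      refine intervalIntegral.integral_congr fun t ht => ?_
      rw [uIcc_of_le (by linarith)] at ht
      rw [bulk_own hJ hu h2, bulk_own hJ hu h2, ← hl', term_mul _ _ _ _ _ hl.le, hph,
        Wf_mid hu ht.1 ht.2]
      simp [hP]
    have e3 : ∫ t in (0 : ℝ)..u, bulk J u i k (t + l' + i / J) *
        conj (bulk J u i k' (t + l' + i / J)) =
        ∫ t in (0 : ℝ)..u, ((Real.cos (ang (t / u)) ^ 2 : ℝ) : ℂ) * P t / (l' : ℂ) := by
      refine intervalIntegral.integral_congr fun t ht => ?_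
      rw [uIcc_of_le hu.le] at ht
      rw [hl', bulk_own_right hJ hu h2 i k ht.1, bulk_own_right hJ hu h2 i k' ht.1, ← hl',
        term_mul _ _ _ _ _ hl.le, hph, sq]
    have hcs : Continuous fun t : ℝ => ang (t / u) := ang_smooth.continuous.comp (by fun_prop)
    have c1 : Continuous fun t : ℝ => ((Real.sin (ang (t / u)) ^ 2 : ℝ) : ℂ) * P t / (l' : ℂ) := by
      fun_prop
    have c3 : Continuous fun t : ℝ => ((Real.cos (ang (t / u)) ^ 2 : ℝ) : ℂ) * P t / (l' : ℂ) := by
      fun_prop
    have cP : Continuous fun t : ℝ => P t / (l' : ℂ) := by fun_prop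
    have e4 : (∫ t in (0 : ℝ)..u, ((Real.sin (ang (t / u)) ^ 2 : ℝ) : ℂ) * P t / (l' : ℂ)) +
        ∫ t in (0 : ℝ)..u, ((Real.cos (ang (t / u)) ^ 2 : ℝ) : ℂ) * P t / (l' : ℂ) =
        ∫ t in (0 : ℝ)..u, P t / (l' : ℂ) := by
      rw [← intervalIntegral.integral_add (c1.intervalIntegrable _ _) (c3.intervalIntegrable _ _)]
      refine intervalIntegral.integral_congr fun t _ => ?_
      rw [← add_div, ← add_mul, ← Complex.ofReal_add, Real.sin_sq_add_cos_sq, Complex.ofReal_one,
        one_mul]
    rw [e1, e2, e3, add_right_comm, e4, intervalIntegral.integral_add_adjacent_intervals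
      (cP.intervalIntegrable _ _) (cP.intervalIntegrable _ _), intervalIntegral.integral_div,
      exp_int hl]
    have hl0 : (l' : ℂ) ≠ 0 := by exact_mod_cast hl.ne'
    by_cases hk : k = k'
    · simp [hk, hl0]
    · have : k - k' ≠ 0 := sub_ne_zero.2 hk
      simp [hk, this]
  · rw [if_neg (fun h => hii h.1)]
    refine Finset.sum_eq_zero fun j _ => hz j ?_
    by_contra h
    push Not at h
    exact hii (h.1.symm.trans h.2)

theorem bulk_skel (i : ℕ) (hi : i < J) (k m : ℤ) :
    ∫ s in (0 : ℝ)..1, bulk J u i k s * conj (skel J u m s) = 0 := by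
  have hJ' : (0 : ℝ) < J := by exact_mod_cast hJ
  have hl : 0 < 1 / (J : ℝ) - u := by linarith
  have hc : Continuous fun s => bulk J u i k s * conj (skel J u m s) :=
    (bulk_smooth J u i k).continuous.mul
      (Complex.continuous_conj.comp (skel_smooth J u m).continuous)
  rw [cell_split hJ (u := u) _ hc]
  refine Finset.sum_eq_zero fun j hj => ?_
  have hjJ := Finset.mem_range.1 hj
  by_cases hji : j = i
  · subst hji
    set l' : ℝ := 1 / J - u with hl'
    set Q : ℝ → ℂ := fun t => Complex.exp ((2 * Real.pi * k / l' * t -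
      2 * Real.pi * m / (J * u) * (t + j * u) : ℝ) * Complex.I) /
        (((Real.sqrt l' : ℝ) : ℂ) * ((Real.sqrt (J * u) : ℝ) : ℂ)) with hQ
    have e1 : ∫ t in (0 : ℝ)..u, bulk J u j k (t + j / J) * conj (skel J u m (t + j / J)) =
        ∫ t in (0 : ℝ)..u, ((Real.sin (ang (t / u)) * ((-1 : ℝ) ^ j * Real.cos (ang (t / u))) : ℝ) : ℂ) *
          Q t := by
      refine intervalIntegral.integral_congr fun t ht => ?_
      rw [uIcc_of_le hu.le] at ht
      simp only [hQ]
      rw [bulk_own hJ hu h2, skel_left hJ hu h2 m hjJ ht.1 ht.2, ← hl', term_mul',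
        Wf_left hu (by linarith) ht.2, mul_div_assoc]
    have e2 : ∫ t in u..l', bulk J u j k (t + j / J) * conj (skel J u m (t + j / J)) = 0 := by
      rw [intervalIntegral.integral_congr (g := fun _ => (0 : ℂ)) fun t ht => ?_,
        intervalIntegral.integral_zero]
      rw [uIcc_of_le (by linarith)] at ht
      simp only
      rw [skel_mid hJ hu h2 m ht.1 ht.2, map_zero, mul_zero]
    have e3 : ∫ t in (0 : ℝ)..u, bulk J u j k (t + l' + j / J) *
        conj (skel J u m (t + l' + j / J)) =
        ∫ t in (0 : ℝ)..u, -(((Real.sin (ang (t / u)) * ((-1 : ℝ) ^ j * Real.cos (ang (t / u))) : ℝ) : ℂ) *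
          Q t) := by
      refine intervalIntegral.integral_congr fun t ht => ?_
      rw [uIcc_of_le hu.le] at ht
      simp only [hQ]
      rw [hl', bulk_own_right hJ hu h2 j k ht.1, skel_right hJ hu h2 m hjJ ht.1 ht.2, ← hl',
        term_mul', mul_div_assoc, ← neg_mul, ← Complex.ofReal_neg]
      congr 2
      rw [pow_succ]
      ring
    rw [e1, e2, e3, intervalIntegral.integral_neg]
    ring
  · have hval : ∀ t : ℝ, 0 ≤ t → t ≤ 1 / J →
        bulk J u i k (t + j / J) * conj (skel J u m (t + j / J)) = 0 := by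
      intro t ht ht'
      rw [bulk_zero hJ hu h2 hji ht ht', zero_mul]
    have e1 : ∫ t in (0 : ℝ)..u, bulk J u i k (t + j / J) * conj (skel J u m (t + j / J)) = 0 := by
      rw [intervalIntegral.integral_congr (g := fun _ => (0 : ℂ)) fun t ht => ?_,
        intervalIntegral.integral_zero]
      rw [uIcc_of_le hu.le] at ht
      exact hval t ht.1 (by linarith [ht.2])
    have e2 : ∫ t in u..(1 / J - u), bulk J u i k (t + j / J) *
        conj (skel J u m (t + j / J)) = 0 := by
      rw [intervalIntegral.integral_congr (g := fun _ => (0 : ℂ)) fun t ht => ?_,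
        intervalIntegral.integral_zero]
      rw [uIcc_of_le (by linarith)] at ht
      exact hval t (by linarith [ht.1]) (by linarith [ht.2])
    have e3 : ∫ t in (0 : ℝ)..u, bulk J u i k (t + (1 / J - u) + j / J) *
          conj (skel J u m (t + (1 / J - u) + j / J)) = 0 := by
      rw [intervalIntegral.integral_congr (g := fun _ => (0 : ℂ)) fun t ht => ?_,
        intervalIntegral.integral_zero]
      rw [uIcc_of_le hu.le] at ht
      exact hval _ (by linarith [ht.1]) (by linarith [ht.2])
    rw [e1, e2, e3]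
    simp

theorem skel_skel (m m' : ℤ) :
    ∫ s in (0 : ℝ)..1, skel J u m s * conj (skel J u m' s) = if m = m' then 1 else 0 := by
  have hJ' : (0 : ℝ) < J := by exact_mod_cast hJ
  have hl : 0 < 1 / (J : ℝ) - u := by linarith
  have hJu : 0 < (J : ℝ) * u := by positivity
  have hc : Continuous fun s => skel J u m s * conj (skel J u m' s) :=
    (skel_smooth J u m).continuous.mul
      (Complex.continuous_conj.comp (skel_smooth J u m').continuous)
  rw [cell_split hJ (u := u) _ hc]
  set l' : ℝ := 1 / J - u with hl'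
  set P : ℝ → ℂ := fun t => Complex.exp ((2 * Real.pi * ((m - m' : ℤ) : ℝ) / (J * u) * t : ℝ) *
      Complex.I) with hP
  have hPc : Continuous P := by
    rw [hP]
    fun_prop
  have hph : ∀ t : ℝ, (2 * Real.pi * m / (J * u) * t - 2 * Real.pi * m' / (J * u) * t : ℝ) =
      2 * Real.pi * ((m - m' : ℤ) : ℝ) / (J * u) * t := by
    intro t
    push_cast
    ring
  have hcell : ∀ j ∈ Finset.range J,
      ((∫ t in (0 : ℝ)..u, skel J u m (t + j / J) * conj (skel J u m' (t + j / J))) +
        (∫ t in u..l', skel J u m (t + j / J) * conj (skel J u m' (t + j / J))) +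
        ∫ t in (0 : ℝ)..u, skel J u m (t + l' + j / J) *
          conj (skel J u m' (t + l' + j / J))) =
        (∫ τ in ((j : ℝ) * u)..((j + 1 : ℕ) : ℝ) * u, P τ) / ((J * u : ℝ) : ℂ) := by
    intro j hj
    have hjJ := Finset.mem_range.1 hj
    have hsq : ∀ n : ℕ, ((-1 : ℝ) ^ n) * ((-1 : ℝ) ^ n) = 1 := by
      intro n
      rw [← mul_pow]
      norm_num
    have e1 : ∫ t in (0 : ℝ)..u, skel J u m (t + j / J) * conj (skel J u m' (t + j / J)) =
        ∫ t in (0 : ℝ)..u, ((Real.cos (ang (t / u)) ^ 2 : ℝ) : ℂ) * P (t + j * u) /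
          ((J * u : ℝ) : ℂ) := by
      refine intervalIntegral.integral_congr fun t ht => ?_
      rw [uIcc_of_le hu.le] at ht
      rw [skel_left hJ hu h2 m hjJ ht.1 ht.2, skel_left hJ hu h2 m' hjJ ht.1 ht.2,
        term_mul _ _ _ _ _ hJu.le, hph]
      congr 3
      calc _ = ((-1 : ℝ) ^ j * (-1 : ℝ) ^ j) * Real.cos (ang (t / u)) ^ 2 := by ring
        _ = _ := by rw [hsq, one_mul]
    have e2 : ∫ t in u..l', skel J u m (t + j / J) * conj (skel J u m' (t + j / J)) = 0 := by
      rw [intervalIntegral.integral_congr (g := fun _ => (0 : ℂ)) fun t ht => ?_,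
        intervalIntegral.integral_zero]
      rw [uIcc_of_le (by linarith)] at ht
      simp only
      rw [skel_mid hJ hu h2 m ht.1 ht.2, zero_mul]
    have e3 : ∫ t in (0 : ℝ)..u, skel J u m (t + l' + j / J) *
        conj (skel J u m' (t + l' + j / J)) =
        ∫ t in (0 : ℝ)..u, ((Real.sin (ang (t / u)) ^ 2 : ℝ) : ℂ) * P (t + j * u) /
          ((J * u : ℝ) : ℂ) := by
      refine intervalIntegral.integral_congr fun t ht => ?_
      rw [uIcc_of_le hu.le] at ht
      rw [hl', skel_right hJ hu h2 m hjJ ht.1 ht.2, skel_right hJ hu h2 m' hjJ ht.1 ht.2,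
        term_mul _ _ _ _ _ hJu.le, hph]
      congr 3
      calc _ = ((-1 : ℝ) ^ (j + 1) * (-1 : ℝ) ^ (j + 1)) * Real.sin (ang (t / u)) ^ 2 := by ring
        _ = _ := by rw [hsq, one_mul]
    have hcs : Continuous fun t : ℝ => ang (t / u) := ang_smooth.continuous.comp (by fun_prop)
    have c1 : Continuous fun t : ℝ => ((Real.sin (ang (t / u)) ^ 2 : ℝ) : ℂ) * P (t + j * u) /
          ((J * u : ℝ) : ℂ) := by
      fun_prop
    have c3 : Continuous fun t : ℝ => ((Real.cos (ang (t / u)) ^ 2 : ℝ) : ℂ) * P (t + j * u) /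
          ((J * u : ℝ) : ℂ) := by
      fun_prop
    have e4 : (∫ t in (0 : ℝ)..u, ((Real.cos (ang (t / u)) ^ 2 : ℝ) : ℂ) * P (t + j * u) /
          ((J * u : ℝ) : ℂ)) + (∫ t in (0 : ℝ)..u, ((Real.sin (ang (t / u)) ^ 2 : ℝ) : ℂ) *
            P (t + j * u) / ((J * u : ℝ) : ℂ)) =
        ∫ t in (0 : ℝ)..u, P (t + j * u) / ((J * u : ℝ) : ℂ) := by
      rw [← intervalIntegral.integral_add (c3.intervalIntegrable _ _) (c1.intervalIntegrable _ _)]
      refine intervalIntegral.integral_congr fun t _ => ?_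
      rw [← add_div, ← add_mul, ← Complex.ofReal_add, Real.cos_sq_add_sin_sq, Complex.ofReal_one,
        one_mul]
    rw [e1, e2, e3, add_zero, e4, intervalIntegral.integral_div,
      intervalIntegral.integral_comp_add_right]
    congr 2
    · ring
    · push_cast
      ring
  rw [Finset.sum_congr rfl hcell, ← Finset.sum_div]
  have h1 := intervalIntegral.sum_integral_adjacent_intervals (f := P) (μ := volume)
    (a := fun k : ℕ => (k : ℝ) * u) (n := J) (fun k _ => hPc.intervalIntegrable _ _)
  simp only [Nat.cast_zero, zero_mul] at h1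
  rw [h1, exp_int hJu]
  have hJu0 : ((J * u : ℝ) : ℂ) ≠ 0 := by exact_mod_cast hJu.ne'
  by_cases hk : m = m'
  · subst hk
    simp only [sub_self, if_true]
    exact div_self hJu0
  · have : m - m' ≠ 0 := sub_ne_zero.2 hk
    simp [hk, this]

theorem partition (s : ℝ) (hs : s ∈ Set.Icc (0 : ℝ) 1) :
    ∑ i ∈ Finset.range J, Wf u (1 / J - u) (s - i / J) ^ 2 + Bf J u s ^ 2 = 1 := by
  have hJ' : (0 : ℝ) < J := by exact_mod_cast hJ
  have hl : 0 < 1 / (J : ℝ) - u := by linarith
  -- the cell of `s`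
  obtain ⟨j, hj, hj1, hj2⟩ : ∃ j : ℕ, j < J ∧ (j : ℝ) / J ≤ s ∧ s ≤ (j + 1 : ℝ) / J := by
    by_cases h1 : s = 1
    · refine ⟨J - 1, by omega, ?_, ?_⟩
      · rw [h1, div_le_one hJ']
        exact_mod_cast Nat.sub_le J 1
      · rw [h1, one_le_div hJ']
        have : ((J - 1 : ℕ) : ℝ) = J - 1 := by
          rw [Nat.cast_sub hJ]
          simp
        rw [this]
        linarith
    · have hs1 : s < 1 := lt_of_le_of_ne hs.2 h1
      refine ⟨⌊s * J⌋₊, ?_, ?_, ?_⟩
      · rw [Nat.floor_lt (mul_nonneg hs.1 hJ'.le)]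
        calc s * J < 1 * J := by gcongr
          _ = J := one_mul _
      · rw [div_le_iff₀ hJ']
        exact Nat.floor_le (mul_nonneg hs.1 hJ'.le)
      · rw [le_div_iff₀ hJ']
        exact (Nat.lt_floor_add_one _).le
  obtain ⟨t, rfl⟩ : ∃ t, s = t + j / J := ⟨s - j / J, by ring⟩
  have ht0 : 0 ≤ t := by linarith
  have ht1 : t ≤ 1 / J := by
    rw [add_div] at hj2
    linarith
  have hW : ∑ i ∈ Finset.range J, Wf u (1 / J - u) (t + j / J - i / J) ^ 2 =
      Wf u (1 / J - u) t ^ 2 := by
    rw [Finset.sum_eq_single_of_mem j (Finset.mem_range.2 hj) fun i _ hij => ?_]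
    · rw [add_sub_cancel_right]
    · rcases lt_or_gt_of_ne hij with h | h
      · have : (i : ℝ) + 1 ≤ j := by exact_mod_cast h
        have h1 : ((i : ℝ) + 1) / J ≤ j / J := div_le_div_of_nonneg_right this hJ'.le
        rw [add_div] at h1
        rw [Wf_zero_right hu (by linarith)]
        norm_num
      · have : (j : ℝ) + 1 ≤ i := by exact_mod_cast h
        have h1 : ((j : ℝ) + 1) / J ≤ i / J := div_le_div_of_nonneg_right this hJ'.le
        rw [add_div] at h1
        rw [Wf_zero_left hu (by linarith)]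
        norm_num
  rw [hW]
  have hsq : ∀ n : ℕ, ((-1 : ℝ) ^ n) ^ 2 = 1 := by
    intro n
    rw [← pow_mul, mul_comm, pow_mul]
    norm_num
  rcases le_or_gt t u with htu | htu
  · -- left edge
    have hB : Bf J u (t + j / J) = (-1 : ℝ) ^ j * Real.cos (ang (t / u)) := by
      unfold Bf
      rw [Finset.sum_eq_single_of_mem j (Finset.mem_range.2 (by omega)) fun i _ hij => ?_]
      · rw [add_sub_cancel_right, bf_right hu ht0]
      · rw [bf_zero hu ?_, mul_zero]
        rcases lt_or_gt_of_ne hij with h | h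
        · have : (i : ℝ) + 1 ≤ j := by exact_mod_cast h
          have h1 : ((i : ℝ) + 1) / J ≤ j / J := div_le_div_of_nonneg_right this hJ'.le
          rw [add_div] at h1
          rw [le_abs]
          left
          linarith
        · have : (j : ℝ) + 1 ≤ i := by exact_mod_cast h
          have h1 : ((j : ℝ) + 1) / J ≤ i / J := div_le_div_of_nonneg_right this hJ'.le
          rw [add_div] at h1
          rw [le_abs]
          right
          linarith
    rw [hB, Wf_left hu (by linarith) htu, mul_pow, hsq, one_mul, Real.sin_sq_add_cos_sq]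
  rcases le_or_gt t (1 / J - u) with htl | htl
  · have hB : Bf J u (t + j / J) = 0 := by
      unfold Bf
      refine Finset.sum_eq_zero fun i _ => ?_
      rw [bf_zero hu ?_, mul_zero]
      rcases le_or_gt i j with h | h
      · have : (i : ℝ) ≤ j := by exact_mod_cast h
        have h1 : (i : ℝ) / J ≤ j / J := div_le_div_of_nonneg_right this hJ'.le
        rw [le_abs]
        left
        linarith
      · have : (j : ℝ) + 1 ≤ i := by exact_mod_cast h
        have h1 : ((j : ℝ) + 1) / J ≤ i / J := div_le_div_of_nonneg_right this hJ'.le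
        rw [add_div] at h1
        rw [le_abs]
        right
        linarith
    rw [hB, Wf_mid hu htu.le htl]
    norm_num
  · obtain ⟨τ, rfl⟩ : ∃ τ, t = τ + (1 / J - u) := ⟨t - (1 / J - u), by ring⟩
    have hτ0 : 0 ≤ τ := by linarith
    have hτ1 : τ ≤ u := by linarith
    have hB : Bf J u (τ + (1 / J - u) + j / J) = (-1 : ℝ) ^ (j + 1) * Real.sin (ang (τ / u)) := by
      unfold Bf
      rw [Finset.sum_eq_single_of_mem (j + 1) (Finset.mem_range.2 (by omega)) fun i _ hij => ?_]
      · have e : τ + (1 / (J : ℝ) - u) + j / J - ((j + 1 : ℕ) : ℝ) / J = τ - u := by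
          push_cast
          ring
        rw [e, bf_left hu hτ1]
      · rw [bf_zero hu ?_, mul_zero]
        rcases lt_or_gt_of_ne hij with h | h
        · have : (i : ℝ) ≤ j := by exact_mod_cast (by omega : i ≤ j)
          have h1 : (i : ℝ) / J ≤ j / J := div_le_div_of_nonneg_right this hJ'.le
          rw [le_abs]
          left
          linarith
        · have : (j : ℝ) + 2 ≤ i := by exact_mod_cast (by omega : j + 2 ≤ i)
          have h1 : ((j : ℝ) + 2) / J ≤ i / J := div_le_div_of_nonneg_right this hJ'.le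
          have h3 : (2 : ℝ) / J = 1 / J + 1 / J := by ring
          rw [add_div, h3] at h1
          rw [le_abs]
          right
          linarith
    rw [hB, Wf_right hu (by linarith) hτ0, mul_pow, hsq, one_mul, Real.cos_sq_add_sin_sq]

end

/-- MY-2 -/
theorem win : S_win := by
  refine ⟨fun J u hJ hu h2 => ⟨?_, ?_, ?_, ?_, ?_, ?_⟩, ?_, bounds, ?_, ?_⟩
  · exact fun i hi i' hi' k k' => bulk_bulk hJ hu h2 i hi i' hi' k k'
  · exact fun i hi k m => bulk_skel hJ hu h2 i hi k m
  · exact fun m m' => skel_skel hJ hu h2 m m'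
  · exact fun s hs => partition hJ hu h2 s hs
  · exact fun i k s => bulk_deriv J u i k s
  · exact fun m s => skel_deriv hJ hu h2 m s
  · exact fun J u l' i k => ⟨Wf_smooth u l', Bf_smooth J u, bulk_smooth J u i k, skel_smooth J u k⟩
  · exact fun u l' t hu _ h => Wf_supp hu h
  · exact fun J u s hu h => Bf_active hu h

end Pool.Agent.W741.MY
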