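import Pool.Agent.W741.ERbase

/-! ER-3: the resolvent bound implies decay. -/

set_option autoImplicit false

open MeasureTheory Complex Filter Topology Set
open scoped ENNReal Real

namespace Pool.Agent.W741.ER3

open Pool.Agent.W805.ER Pool.Agent.W741.ER

section
variable {ι H : Type} [NormedAddCommGroup H] [InnerProductSpace ℂ H] [CompleteSpace H]

/-- Fourier coefficient on `[0,L]` -/
noncomputable def FC (L : ℝ) (n : ℤ) (f : ℝ → H) : H :=
  ∫ t in (0 : ℝ)..L, cexp (-((2 * π * n / L : ℝ) * I) * t) • f t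

theorem exp_cont (L : ℝ) (n : ℤ) : Continuous fun t : ℝ => cexp (-((2 * π * n / L : ℝ) * I) * t) := by
  fun_prop

theorem FC_int {L : ℝ} (hL : 0 < L) (n : ℤ) {f : ℝ → H} (hf : ContinuousOn f (Icc 0 L)) :
    IntervalIntegrable (fun t : ℝ => cexp (-((2 * π * n / L : ℝ) * I) * t) • f t) volume 0 L := by
  apply ContinuousOn.intervalIntegrable
  rw [uIcc_of_le hL.le]
  exact (exp_cont L n).continuousOn.smul hf

theorem FC_add {L : ℝ} (hL : 0 < L) (n : ℤ) {f g : ℝ → H} (hf : ContinuousOn f (Icc 0 L))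
    (hg : ContinuousOn g (Icc 0 L)) : FC L n (fun t => f t + g t) = FC L n f + FC L n g := by
  unfold FC
  rw [← intervalIntegral.integral_add (FC_int hL n hf) (FC_int hL n hg)]
  simp only [smul_add]

theorem FC_sub {L : ℝ} (hL : 0 < L) (n : ℤ) {f g : ℝ → H} (hf : ContinuousOn f (Icc 0 L))
    (hg : ContinuousOn g (Icc 0 L)) : FC L n (fun t => f t - g t) = FC L n f - FC L n g := by
  unfold FC
  rw [← intervalIntegral.integral_sub (FC_int hL n hf) (FC_int hL n hg)]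
  simp only [smul_sub]

theorem FC_neg (L : ℝ) (n : ℤ) (f : ℝ → H) : FC L n (fun t => -f t) = -FC L n f := by
  unfold FC
  rw [← intervalIntegral.integral_neg]
  simp only [smul_neg]

theorem FC_map {L : ℝ} (hL : 0 < L) (n : ℤ) (D : H →L[ℂ] H) {f : ℝ → H}
    (hf : ContinuousOn f (Icc 0 L)) : FC L n (fun t => D (f t)) = D (FC L n f) := by
  unfold FC
  rw [← D.intervalIntegral_comp_comm (FC_int hL n hf)]
  simp only [map_smul]

theorem FC_coord (e : HilbertBasis ι ℂ H) {L : ℝ} (hL : 0 < L) (n : ℤ) {f : ℝ → H}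
    (hf : ContinuousOn f (Icc 0 L)) (k : ι) :
    e.repr (FC L n f) k = ∫ t in (0 : ℝ)..L, cexp (-((2 * π * n / L : ℝ) * I) * t) *
      e.repr (f t) k := by
  unfold FC
  rw [e.repr_apply_apply]
  have := (innerSL ℂ (e k)).intervalIntegral_comp_comm (FC_int hL n hf)
  simp only [innerSL_apply_apply, inner_smul_right] at this
  rw [← this]
  simp only [e.repr_apply_apply]

theorem FC_mult (e : HilbertBasis ι ℂ H) (d : ι → ℝ) {L : ℝ} (hL : 0 < L) (n : ℤ) {f g : ℝ → H}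
    (hf : ContinuousOn f (Icc 0 L)) (hg : ContinuousOn g (Icc 0 L))
    (h : ∀ t ∈ Icc (0 : ℝ) L, Mult e d (f t) (g t)) : Mult e d (FC L n f) (FC L n g) := by
  intro k
  rw [FC_coord e hL n hf, FC_coord e hL n hg, ← intervalIntegral.integral_const_mul]
  refine intervalIntegral.integral_congr fun t ht => ?_
  rw [uIcc_of_le hL.le] at ht
  simp only
  rw [h t ht k]
  ring

/-- integration by parts -/
theorem ibp {L : ℝ} (hL : 0 < L) (n : ℤ) {χ χ' : ℝ → ℝ} (hχ : ∀ t, HasDerivAt χ (χ' t) t)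
    (cχ : Continuous χ') (h0 : χ 0 = 0) (h1 : χ L = 0) {b b' : ℝ → H}
    (hb : ∀ t, 0 ≤ t → HasDerivWithinAt b (b' t) (Ici 0) t) (cb : ContinuousOn b' (Ici 0)) :
    (((2 * π * n / L : ℝ) : ℂ) * I) • FC L n (fun t => ((χ t : ℝ) : ℂ) • b t) =
      FC L n (fun t => ((χ' t : ℝ) : ℂ) • b t + ((χ t : ℝ) : ℂ) • b' t) := by
  have cχ0 : Continuous χ := continuous_iff_continuousAt.2 fun x => (hχ x).continuousAt
  have cb0 : ContinuousOn b (Ici 0) := fun t ht => (hb t ht).continuousWithinAt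
  have sub : Icc 0 L ⊆ Ici (0 : ℝ) := fun t ht => ht.1
  set η : ℝ := 2 * π * n / L with hη
  set E : ℝ → ℂ := fun t => cexp (-((η : ℝ) * I) * t) with hE
  have cE : Continuous E := by
    rw [hE]
    fun_prop
  have hEd : ∀ t : ℝ, HasDerivAt E (-((η : ℝ) * I) * E t) t := by
    intro t
    have h2 : HasDerivAt (fun t : ℝ => -(((η : ℝ) : ℂ) * I) * (t : ℂ)) (-(((η : ℝ) : ℂ) * I)) t := by
      have := (hasDerivAt_id t).ofReal_comp.const_mul (-(((η : ℝ) : ℂ) * I))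
      simpa using this
    have h3 := h2.cexp
    refine h3.congr_deriv ?_
    simp only [hE]
    ring
  -- the total derivative
  have hd : ∀ t : ℝ, 0 < t → HasDerivAt (fun t => (E t * ((χ t : ℝ) : ℂ)) • b t)
      (E t • (((χ' t : ℝ) : ℂ) • b t + ((χ t : ℝ) : ℂ) • b' t) -
        (((η : ℝ) : ℂ) * I) • (E t • (((χ t : ℝ) : ℂ) • b t))) t := by
    intro t ht
    have e1 : HasDerivAt b (b' t) t := (hb t ht.le).hasDerivAt (Ici_mem_nhds ht)
    have e2 : HasDerivAt (fun t => E t * ((χ t : ℝ) : ℂ))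
        (-((η : ℝ) * I) * E t * ((χ t : ℝ) : ℂ) + E t * ((χ' t : ℝ) : ℂ)) t :=
      (hEd t).mul (hχ t).ofReal_comp
    have e3 := e2.smul e1
    refine e3.congr_deriv ?_
    module
  have hint := intervalIntegral.integral_eq_sub_of_hasDeriv_right (a := 0) (b := L)
    (f := fun t => (E t * ((χ t : ℝ) : ℂ)) • b t)
    (f' := fun t => E t • (((χ' t : ℝ) : ℂ) • b t + ((χ t : ℝ) : ℂ) • b' t) -
        (((η : ℝ) : ℂ) * I) • (E t • (((χ t : ℝ) : ℂ) • b t)))
    (by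
      rw [uIcc_of_le hL.le]
      exact ((cE.mul (continuous_ofReal.comp cχ0)).continuousOn).smul (cb0.mono sub))
    (fun t ht => by
      rw [min_eq_left hL.le] at ht
      exact (hd t ht.1).hasDerivWithinAt)
    (by
      apply ContinuousOn.intervalIntegrable
      rw [uIcc_of_le hL.le]
      have c1 : ContinuousOn (fun t => ((χ t : ℝ) : ℂ) • b t) (Icc 0 L) :=
        (continuous_ofReal.comp cχ0).continuousOn.smul (cb0.mono sub)
      have c2 : ContinuousOn (fun t => ((χ' t : ℝ) : ℂ) • b t) (Icc 0 L) :=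
        (continuous_ofReal.comp cχ).continuousOn.smul (cb0.mono sub)
      have c3 : ContinuousOn (fun t => ((χ t : ℝ) : ℂ) • b' t) (Icc 0 L) :=
        (continuous_ofReal.comp cχ0).continuousOn.smul (cb.mono sub)
      exact (cE.continuousOn.smul (c2.add c3)).sub ((cE.continuousOn.smul c1).const_smul _))
  have c1 : ContinuousOn (fun t => ((χ t : ℝ) : ℂ) • b t) (Icc 0 L) :=
    (continuous_ofReal.comp cχ0).continuousOn.smul (cb0.mono sub)
  have c2 : ContinuousOn (fun t => ((χ' t : ℝ) : ℂ) • b t) (Icc 0 L) :=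
    (continuous_ofReal.comp cχ).continuousOn.smul (cb0.mono sub)
  have c3 : ContinuousOn (fun t => ((χ t : ℝ) : ℂ) • b' t) (Icc 0 L) :=
    (continuous_ofReal.comp cχ0).continuousOn.smul (cb.mono sub)
  have I1 : IntervalIntegrable (fun t => E t • (((χ' t : ℝ) : ℂ) • b t + ((χ t : ℝ) : ℂ) • b' t))
      volume 0 L := FC_int hL n (c2.add c3)
  have I2 : IntervalIntegrable (fun t => (((η : ℝ) : ℂ) * I) • (E t • (((χ t : ℝ) : ℂ) • b t)))
      volume 0 L := (FC_int hL n c1).smul _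
  rw [intervalIntegral.integral_sub I1 I2,
    intervalIntegral.integral_smul, h0, h1] at hint
  simp only [ofReal_zero, mul_zero, zero_smul, sub_zero] at hint
  exact (sub_eq_zero.1 hint).symm

/-! ### the cut-off -/

noncomputable def ch (L t : ℝ) : ℝ := t ^ 2 * (L - t) ^ 2 / L ^ 3
noncomputable def ch1 (L t : ℝ) : ℝ := 2 * t * (L - t) * (L - 2 * t) / L ^ 3
noncomputable def ch2 (L t : ℝ) : ℝ := (2 * (L - 2 * t) ^ 2 - 4 * t * (L - t)) / L ^ 3

theorem ch_deriv (L t : ℝ) : HasDerivAt (ch L) (ch1 L t) t := by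
  have h1 : HasDerivAt (fun x : ℝ => L - x) (-1) t := (hasDerivAt_id t).const_sub L
  have := (((hasDerivAt_pow 2 t).mul (h1.pow 2)).div_const (L ^ 3))
  refine this.congr_deriv ?_
  unfold ch1
  push_cast
  simp only [Pi.pow_apply]
  ring

theorem ch1_deriv (L t : ℝ) : HasDerivAt (ch1 L) (ch2 L t) t := by
  have h0 : HasDerivAt (fun x : ℝ => 2 * x) 2 t := by
    simpa using (hasDerivAt_id t).const_mul (2 : ℝ)
  have h1 : HasDerivAt (fun x : ℝ => L - x) (-1) t := (hasDerivAt_id t).const_sub L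
  have h2 : HasDerivAt (fun x : ℝ => L - 2 * x) (-2) t := h0.const_sub L
  have := ((h0.mul h1).mul h2).div_const (L ^ 3)
  refine this.congr_deriv ?_
  unfold ch2
  simp only [Pi.mul_apply]
  ring

theorem ch_cont (L : ℝ) : Continuous (ch L) :=
  continuous_iff_continuousAt.2 fun x => (ch_deriv L x).continuousAt
theorem ch1_cont (L : ℝ) : Continuous (ch1 L) :=
  continuous_iff_continuousAt.2 fun x => (ch1_deriv L x).continuousAt
theorem ch2_cont (L : ℝ) : Continuous (ch2 L) := by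
  unfold ch2
  fun_prop

theorem ch1_bd {L t : ℝ} (hL : 1 ≤ L) (ht : t ∈ Icc 0 L) : ch1 L t ^ 2 ≤ 1 / 4 := by
  have h0 : 0 ≤ t * (L - t) := mul_nonneg ht.1 (by linarith [ht.2])
  have h1 : t * (L - t) ≤ L ^ 2 / 4 := by nlinarith [sq_nonneg (2 * t - L)]
  have h2 : |L - 2 * t| ≤ L := by
    rw [abs_le]
    constructor <;> linarith [ht.1, ht.2]
  have h3 : |ch1 L t| ≤ 1 / 2 := by
    unfold ch1
    rw [abs_div, abs_of_pos (by positivity : 0 < L ^ 3), div_le_iff₀ (by positivity)]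
    have e : |2 * t * (L - t) * (L - 2 * t)| = 2 * (t * (L - t)) * |L - 2 * t| := by
      rw [mul_assoc 2 t (L - t), abs_mul, abs_mul, abs_two, abs_of_nonneg h0]
    rw [e]
    calc 2 * (t * (L - t)) * |L - 2 * t| ≤ 2 * (L ^ 2 / 4) * L := by gcongr
      _ = 1 / 2 * L ^ 3 := by ring
  rw [← sq_abs]
  nlinarith [abs_nonneg (ch1 L t)]

theorem ch2_bd {L t : ℝ} (hL : 1 ≤ L) (ht : t ∈ Icc 0 L) : ch2 L t ^ 2 ≤ 4 := by
  have h0 : 0 ≤ t * (L - t) := mul_nonneg ht.1 (by linarith [ht.2])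
  have h1 : t * (L - t) ≤ L ^ 2 / 4 := by nlinarith [sq_nonneg (2 * t - L)]
  have hL2 : L ^ 2 ≤ L ^ 3 := by nlinarith
  have h3 : |ch2 L t| ≤ 2 := by
    unfold ch2
    rw [abs_div, abs_of_pos (by positivity : 0 < L ^ 3), div_le_iff₀ (by positivity), abs_le]
    constructor
    · nlinarith [sq_nonneg (L - 2 * t)]
    · nlinarith [sq_nonneg (L - 2 * t)]
  rw [← sq_abs]
  nlinarith [abs_nonneg (ch2 L t)]

theorem ch_low {L t : ℝ} (hL : 0 < L) (h1 : L / 4 ≤ t) (h2 : t ≤ L / 2) :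
    (L / 64) ^ 2 ≤ ch L t ^ 2 := by
  have h3 : L / 64 ≤ ch L t := by
    unfold ch
    rw [le_div_iff₀ (by positivity)]
    have e1 : 3 * L ^ 2 / 16 ≤ t * (L - t) := by nlinarith
    have e2 : (3 * L ^ 2 / 16) ^ 2 ≤ (t * (L - t)) ^ 2 := pow_le_pow_left₀ (by positivity) e1 2
    have e3 : t ^ 2 * (L - t) ^ 2 = (t * (L - t)) ^ 2 := by ring
    rw [e3]
    refine le_trans ?_ e2
    have : (3 * L ^ 2 / 16) ^ 2 = 9 / 256 * L ^ 4 := by ring
    rw [this]
    have : L / 64 * L ^ 3 = 1 / 64 * L ^ 4 := by ring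
    rw [this]
    have : 0 < L ^ 4 := by positivity
    linarith
  exact pow_le_pow_left₀ (by positivity) h3 2

end

theorem main (hP : TaskParseval) (hE : TaskEnergy) : TaskDecay := by
  intro ι H _ _ _ _ e d D C hD hRE
  set C' : ℝ := max C 0 with hC'
  have hC'0 : 0 ≤ C' := le_max_right _ _
  refine ⟨36864 * C' + 1, by positivity, ?_⟩
  intro a w a1 w1 hS hker T hT
  obtain ⟨hanti, hder⟩ := hE ι H e d D hD a w a1 w1 hS
  set X0 := ‖a 0‖ ^ 2 + ‖w 0‖ ^ 2 with hX0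
  set X1 := ‖a1 0‖ ^ 2 + ‖w1 0‖ ^ 2 with hX1
  have hX00 : 0 ≤ X0 := by positivity
  have hX10 : 0 ≤ X1 := by positivity
  have hXle : ∀ t, 0 ≤ t → ‖a t‖ ^ 2 + ‖w t‖ ^ 2 ≤ X0 := fun t ht =>
    hanti (mem_Ici.2 le_rfl) (mem_Ici.2 ht) ht
  have hgoal : ‖a 0‖ ^ 2 + ‖w 0‖ ^ 2 + ‖a1 0‖ ^ 2 + ‖w1 0‖ ^ 2 = X0 + X1 := by
    rw [hX0, hX1]
    ring
  rw [hgoal]
  rcases le_total T (1 / 2) with hT2 | hT2
  · -- small times
    have h1 := hXle T hT.le
    have h2 : 1 ≤ (36864 * C' + 1) / T ^ 2 := by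
      rw [one_le_div (by positivity)]
      nlinarith
    calc ‖a T‖ ^ 2 + ‖w T‖ ^ 2 ≤ X0 := h1
      _ ≤ 1 * (X0 + X1) := by linarith
      _ ≤ _ := by gcongr
  -- large times
  set L : ℝ := 2 * T with hL
  have hL1 : 1 ≤ L := by rw [hL]; linarith
  have hL0 : 0 < L := by linarith
  have sub : Icc 0 L ⊆ Ici (0 : ℝ) := fun t ht => ht.1
  have ca : ContinuousOn a (Icc 0 L) := fun t ht => ((hS.ha t ht.1).continuousWithinAt).mono sub
  have cw : ContinuousOn w (Icc 0 L) := fun t ht => ((hS.hw t ht.1).continuousWithinAt).mono sub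
  have ca1 : ContinuousOn a1 (Icc 0 L) := hS.ca.mono sub
  have cw1 : ContinuousOn w1 (Icc 0 L) := hS.cw.mono sub
  have cs : ∀ (χ : ℝ → ℝ), Continuous χ → ∀ b : ℝ → H, ContinuousOn b (Icc 0 L) →
      ContinuousOn (fun t => ((χ t : ℝ) : ℂ) • b t) (Icc 0 L) := fun χ hχ b hb =>
    (continuous_ofReal.comp hχ).continuousOn.smul hb
  have ch00 : ch L 0 = 0 := by unfold ch; ring
  have chL : ch L L = 0 := by unfold ch; ring
  have ch10 : ch1 L 0 = 0 := by unfold ch1; ring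
  have ch1L : ch1 L L = 0 := by unfold ch1; ring
  -- the functions
  set fa : ℝ → H := fun t => ((ch L t : ℝ) : ℂ) • a t with hfa
  set fw : ℝ → H := fun t => ((ch L t : ℝ) : ℂ) • w t with hfw
  set fa1 : ℝ → H := fun t => ((ch L t : ℝ) : ℂ) • a1 t with hfa1
  set fw1 : ℝ → H := fun t => ((ch L t : ℝ) : ℂ) • w1 t with hfw1
  set ga : ℝ → H := fun t => ((ch1 L t : ℝ) : ℂ) • a t with hga
  set gw : ℝ → H := fun t => ((ch1 L t : ℝ) : ℂ) • w t with hgw
  set ka : ℝ → H := fun t => ((ch2 L t : ℝ) : ℂ) • a t + ((ch1 L t : ℝ) : ℂ) • a1 t with hka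
  set kw : ℝ → H := fun t => ((ch2 L t : ℝ) : ℂ) • w t + ((ch1 L t : ℝ) : ℂ) • w1 t with hkw
  have cfa : ContinuousOn fa (Icc 0 L) := cs _ (ch_cont L) _ ca
  have cfw : ContinuousOn fw (Icc 0 L) := cs _ (ch_cont L) _ cw
  have cfa1 : ContinuousOn fa1 (Icc 0 L) := cs _ (ch_cont L) _ ca1
  have cfw1 : ContinuousOn fw1 (Icc 0 L) := cs _ (ch_cont L) _ cw1
  have cga : ContinuousOn ga (Icc 0 L) := cs _ (ch1_cont L) _ ca
  have cgw : ContinuousOn gw (Icc 0 L) := cs _ (ch1_cont L) _ cw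
  have cka : ContinuousOn ka (Icc 0 L) := (cs _ (ch2_cont L) _ ca).add (cs _ (ch1_cont L) _ ca1)
  have ckw : ContinuousOn kw (Icc 0 L) := (cs _ (ch2_cont L) _ cw).add (cs _ (ch1_cont L) _ cw1)
  have cDfw : ContinuousOn (fun t => D (fw t)) (Icc 0 L) := D.continuous.comp_continuousOn cfw
  -- the bound for each frequency
  have hn : ∀ n : ℤ, ‖FC L n fa‖ ^ 2 + ‖FC L n fw‖ ^ 2 ≤
      C' * (‖FC L n ga‖ ^ 2 + ‖FC L n gw‖ ^ 2 + ‖FC L n ka‖ ^ 2 + ‖FC L n kw‖ ^ 2) := by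
    intro n
    set η : ℝ := 2 * π * n / L with hη
    have i1 : (((η : ℝ) : ℂ) * I) • FC L n fa = FC L n ga + FC L n fa1 := by
      rw [← FC_add hL0 n cga cfa1]
      exact ibp hL0 n (ch_deriv L) (ch1_cont L) ch00 chL hS.ha hS.ca
    have i2 : (((η : ℝ) : ℂ) * I) • FC L n fw = FC L n gw + FC L n fw1 := by
      rw [← FC_add hL0 n cgw cfw1]
      exact ibp hL0 n (ch_deriv L) (ch1_cont L) ch00 chL hS.hw hS.cw
    have i3 : (((η : ℝ) : ℂ) * I) • FC L n ga = FC L n ka :=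
      ibp hL0 n (ch1_deriv L) (ch2_cont L) ch10 ch1L hS.ha hS.ca
    have i4 : (((η : ℝ) : ℂ) * I) • FC L n gw = FC L n kw :=
      ibp hL0 n (ch1_deriv L) (ch2_cont L) ch10 ch1L hS.hw hS.cw
    have m1 : Mult e d (FC L n fw) (FC L n fa1) := by
      refine FC_mult e d hL0 n cfw cfa1 fun t ht k => ?_
      simp only [hfw, hfa1, map_smul, lp.coeFn_smul, Pi.smul_apply, smul_eq_mul]
      rw [hS.ga t ht.1 k]
      ring
    have m2 : Mult e d (FC L n fa) (-(FC L n fw1) - D (FC L n fw)) := by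
      have cneg : ContinuousOn (fun t => -fw1 t) (Icc 0 L) := cfw1.neg
      have csub : ContinuousOn (fun t => -fw1 t - D (fw t)) (Icc 0 L) := cneg.sub cDfw
      rw [← FC_map hL0 n D cfw, ← FC_neg, ← FC_sub hL0 n cneg cDfw]
      refine FC_mult e d hL0 n cfa csub fun t ht k => ?_
      have h1 := hS.gw t ht.1 k
      have e1 : -fw1 t - D (fw t) = ((ch L t : ℝ) : ℂ) • (-(w1 t) - D (w t)) := by
        simp only [hfw1, hfw, map_smul]
        module
      rw [e1]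
      simp only [hfa, map_smul, lp.coeFn_smul, Pi.smul_apply, smul_eq_mul]
      simp only at h1
      rw [h1]
      ring
    have m3 : ∀ k, d k = 0 → e.repr (FC L n fa) k = 0 := by
      intro k hk
      rw [FC_coord e hL0 n cfa]
      rw [intervalIntegral.integral_congr (g := fun _ => (0 : ℂ)) fun t ht => ?_,
        intervalIntegral.integral_zero]
      rw [uIcc_of_le hL0.le] at ht
      simp only [hfa, map_smul, lp.coeFn_smul, Pi.smul_apply]
      rw [hker t ht.1 k hk]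
      simp
    have hr := hRE η (FC L n fa) (FC L n fw) _ _ m1 m2 m3
    have r1 : (((η : ℝ) : ℂ) * I) • FC L n fa - FC L n fa1 = FC L n ga := by
      rw [i1]
      abel
    have r2 : (((η : ℝ) : ℂ) * I) • FC L n fw + (-(FC L n fw1) - D (FC L n fw)) +
        D (FC L n fw) = FC L n gw := by
      rw [i2]
      abel
    rw [r1, r2] at hr
    have hηI : ‖(((η : ℝ) : ℂ) * I)‖ = |η| := by
      rw [norm_mul, norm_I, mul_one, Complex.norm_real, Real.norm_eq_abs]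
    have r3 : η ^ 2 * ‖FC L n ga‖ ^ 2 = ‖FC L n ka‖ ^ 2 := by
      rw [← i3, norm_smul, hηI, mul_pow, sq_abs]
    have r4 : η ^ 2 * ‖FC L n gw‖ ^ 2 = ‖FC L n kw‖ ^ 2 := by
      rw [← i4, norm_smul, hηI, mul_pow, sq_abs]
    have h0 : 0 ≤ (1 + η ^ 2) * (‖FC L n ga‖ ^ 2 + ‖FC L n gw‖ ^ 2) := by positivity
    calc _ ≤ C * (1 + η ^ 2) * (‖FC L n ga‖ ^ 2 + ‖FC L n gw‖ ^ 2) := hr
      _ = C * ((1 + η ^ 2) * (‖FC L n ga‖ ^ 2 + ‖FC L n gw‖ ^ 2)) := by ring
      _ ≤ C' * ((1 + η ^ 2) * (‖FC L n ga‖ ^ 2 + ‖FC L n gw‖ ^ 2)) := by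
          gcongr
          exact le_max_left _ _
      _ = _ := by
          rw [← r3, ← r4]
          ring
  -- summation
  have p1 := hP ι H e L fa hL0 cfa
  have p2 := hP ι H e L fw hL0 cfw
  have p3 := hP ι H e L ga hL0 cga
  have p4 := hP ι H e L gw hL0 cgw
  have p5 := hP ι H e L ka hL0 cka
  have p6 := hP ι H e L kw hL0 ckw
  have hsum := hasSum_le hn (p1.add p2) ((((p3.add p4).add p5).add p6).mul_left C')
  -- integrals
  have hii : ∀ f : ℝ → H, ContinuousOn f (Icc 0 L) →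
      IntervalIntegrable (fun t => ‖f t‖ ^ 2) volume 0 L := by
    intro f hf
    apply ContinuousOn.intervalIntegrable
    rw [uIcc_of_le hL0.le]
    exact hf.norm.pow 2
  have hns : ∀ (x : ℝ) (v : H), ‖((x : ℝ) : ℂ) • v‖ ^ 2 = x ^ 2 * ‖v‖ ^ 2 := by
    intro x v
    rw [norm_smul, Complex.norm_real, Real.norm_eq_abs, mul_pow, sq_abs]
  have hsq : ∀ (x y : H), ‖x + y‖ ^ 2 ≤ 2 * (‖x‖ ^ 2 + ‖y‖ ^ 2) := by
    intro x y
    have h1 := norm_add_le x y
    have h2 := norm_nonneg (x + y)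
    nlinarith [sq_nonneg (‖x‖ - ‖y‖)]
  -- upper bound of the right side
  have up : (∫ t in (0 : ℝ)..L, ‖ga t‖ ^ 2) + (∫ t in (0 : ℝ)..L, ‖gw t‖ ^ 2) +
      (∫ t in (0 : ℝ)..L, ‖ka t‖ ^ 2) + (∫ t in (0 : ℝ)..L, ‖kw t‖ ^ 2) ≤ 9 * L * (X0 + X1) := by
    rw [← intervalIntegral.integral_add (hii _ cga) (hii _ cgw),
      ← intervalIntegral.integral_add ((hii _ cga).add (hii _ cgw)) (hii _ cka),
      ← intervalIntegral.integral_add (((hii _ cga).add (hii _ cgw)).add (hii _ cka)) (hii _ ckw)]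
    calc _ ≤ ∫ t in (0 : ℝ)..L, (9 * (X0 + X1)) := by
          refine intervalIntegral.integral_mono_on hL0.le
            ((((hii _ cga).add (hii _ cgw)).add (hii _ cka)).add (hii _ ckw))
            intervalIntegrable_const fun t ht => ?_
          have b1 := ch1_bd hL1 ht
          have b2 := ch2_bd hL1 ht
          have x0 := hXle t ht.1
          have x1 := hder t ht.1
          have q1 : ‖ga t‖ ^ 2 = ch1 L t ^ 2 * ‖a t‖ ^ 2 := hns _ _
          have q2 : ‖gw t‖ ^ 2 = ch1 L t ^ 2 * ‖w t‖ ^ 2 := hns _ _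
          have q3 : ‖ka t‖ ^ 2 ≤ 2 * (ch2 L t ^ 2 * ‖a t‖ ^ 2 + ch1 L t ^ 2 * ‖a1 t‖ ^ 2) := by
            refine (hsq _ _).trans ?_
            rw [hns, hns]
          have q4 : ‖kw t‖ ^ 2 ≤ 2 * (ch2 L t ^ 2 * ‖w t‖ ^ 2 + ch1 L t ^ 2 * ‖w1 t‖ ^ 2) := by
            refine (hsq _ _).trans ?_
            rw [hns, hns]
          have s1 : 0 ≤ ‖a t‖ ^ 2 + ‖w t‖ ^ 2 := by positivity
          have s2 : 0 ≤ ‖a1 t‖ ^ 2 + ‖w1 t‖ ^ 2 := by positivity
          have t1 : ch1 L t ^ 2 * (‖a t‖ ^ 2 + ‖w t‖ ^ 2) ≤ 1 / 4 * X0 :=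
            mul_le_mul b1 x0 s1 (by norm_num)
          have t2 : ch2 L t ^ 2 * (‖a t‖ ^ 2 + ‖w t‖ ^ 2) ≤ 4 * X0 :=
            mul_le_mul b2 x0 s1 (by norm_num)
          have t3 : ch1 L t ^ 2 * (‖a1 t‖ ^ 2 + ‖w1 t‖ ^ 2) ≤ 1 / 4 * X1 :=
            mul_le_mul b1 x1 s2 (by norm_num)
          rw [q1, q2]
          nlinarith
      _ = 9 * L * (X0 + X1) := by
          rw [intervalIntegral.integral_const, smul_eq_mul]
          ring
  -- lower bound of the left side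
  have low : L / 4 * ((L / 64) ^ 2 * (‖a T‖ ^ 2 + ‖w T‖ ^ 2)) ≤
      (∫ t in (0 : ℝ)..L, ‖fa t‖ ^ 2) + (∫ t in (0 : ℝ)..L, ‖fw t‖ ^ 2) := by
    rw [← intervalIntegral.integral_add (hii _ cfa) (hii _ cfw)]
    have hTL : T = L / 2 := by rw [hL]; ring
    calc L / 4 * ((L / 64) ^ 2 * (‖a T‖ ^ 2 + ‖w T‖ ^ 2))
        = ∫ t in (L / 4)..(L / 2), (L / 64) ^ 2 * (‖a T‖ ^ 2 + ‖w T‖ ^ 2) := by
          rw [intervalIntegral.integral_const, smul_eq_mul]
          ring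
      _ ≤ ∫ t in (L / 4)..(L / 2), (‖fa t‖ ^ 2 + ‖fw t‖ ^ 2) := by
          refine intervalIntegral.integral_mono_on (by linarith) intervalIntegrable_const
            (((hii _ cfa).add (hii _ cfw)).mono_set ?_) fun t ht => ?_
          · rw [uIcc_of_le (by linarith), uIcc_of_le hL0.le]
            exact Icc_subset_Icc (by linarith) (by linarith)
          · have e1 : ‖fa t‖ ^ 2 = ch L t ^ 2 * ‖a t‖ ^ 2 := hns _ _
            have e2 : ‖fw t‖ ^ 2 = ch L t ^ 2 * ‖w t‖ ^ 2 := hns _ _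
            rw [e1, e2, ← mul_add]
            have e3 : ‖a T‖ ^ 2 + ‖w T‖ ^ 2 ≤ ‖a t‖ ^ 2 + ‖w t‖ ^ 2 :=
              hanti (mem_Ici.2 (by linarith [ht.1])) (mem_Ici.2 hT.le) (by linarith [ht.2])
            exact mul_le_mul (ch_low hL0 ht.1 ht.2) e3 (by positivity) (by positivity)
      _ ≤ ∫ t in (0 : ℝ)..L, (‖fa t‖ ^ 2 + ‖fw t‖ ^ 2) :=
          intervalIntegral.integral_mono_interval (by linarith) (by linarith) (by linarith)
            (Eventually.of_forall fun t => by positivity) ((hii _ cfa).add (hii _ cfw))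
  have hfin : L * (L / 4 * ((L / 64) ^ 2 * (‖a T‖ ^ 2 + ‖w T‖ ^ 2))) ≤
      L * (C' * (9 * L * (X0 + X1))) := by
    calc _ ≤ L * ((∫ t in (0 : ℝ)..L, ‖fa t‖ ^ 2) + (∫ t in (0 : ℝ)..L, ‖fw t‖ ^ 2)) := by gcongr
      _ = L * (∫ t in (0 : ℝ)..L, ‖fa t‖ ^ 2) + L * ∫ t in (0 : ℝ)..L, ‖fw t‖ ^ 2 := by ring
      _ ≤ _ := hsum
      _ = L * (C' * ((∫ t in (0 : ℝ)..L, ‖ga t‖ ^ 2) + (∫ t in (0 : ℝ)..L, ‖gw t‖ ^ 2) +
      (∫ t in (0 : ℝ)..L, ‖ka t‖ ^ 2) + (∫ t in (0 : ℝ)..L, ‖kw t‖ ^ 2))) := by ring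
      _ ≤ _ := by gcongr
  have hfin2 := le_of_mul_le_mul_left hfin hL0
  have hY0 : 0 ≤ ‖a T‖ ^ 2 + ‖w T‖ ^ 2 := by positivity
  set Y := ‖a T‖ ^ 2 + ‖w T‖ ^ 2 with hY
  have hLY : L ^ 2 * Y ≤ 147456 * C' * (X0 + X1) := by
    have e1 : L * (L ^ 2 * Y) ≤ L * (147456 * C' * (X0 + X1)) := by
      have : L / 4 * ((L / 64) ^ 2 * Y) = L * (L ^ 2 * Y) / 16384 := by ring
      rw [this] at hfin2
      have h2 : L * (L ^ 2 * Y) ≤ 16384 * (C' * (9 * L * (X0 + X1))) := by linarith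
      calc _ ≤ _ := h2
        _ = _ := by ring
    exact le_of_mul_le_mul_left e1 hL0
  have hTY : T ^ 2 * Y ≤ 36864 * C' * (X0 + X1) := by
    have : L ^ 2 = 4 * T ^ 2 := by rw [hL]; ring
    rw [this] at hLY
    linarith
  rw [div_mul_eq_mul_div, le_div_iff₀ (by positivity)]
  nlinarith

end Pool.Agent.W741.ER3
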