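import Pool.Agent.W741.ERbase

/-! ER-5: from the stationary lower bound to the resolvent bound. -/

set_option autoImplicit false

open MeasureTheory Complex Filter Topology Set
open scoped ENNReal Real

namespace Pool.Agent.W741.ER5

open Pool.Agent.W805.ER Pool.Agent.W741.ER

section
variable {ι H : Type} [NormedAddCommGroup H] [InnerProductSpace ℂ H] [CompleteSpace H]
  (e : HilbertBasis ι ℂ H) (d : ι → ℝ) (D : H →L[ℂ] H)

/-- energy pairing -/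
theorem pairing (hDim : ∀ w : H, (inner ℂ w (D w)).im = 0) {η : ℝ} {a w g h : H}
    (hw : Mult e d w h) (ha : Mult e d a g) :
    |η| * |‖w‖ ^ 2 - ‖a‖ ^ 2| ≤ ‖w‖ * ‖((η : ℂ) * I) • w + g + D w‖ +
      ‖a‖ * ‖((η : ℂ) * I) • a - h‖ := by
  set F2 := ((η : ℂ) * I) • w + g + D w with hF2
  set F1 := ((η : ℂ) * I) • a - h with hF1
  have h1 : inner ℂ w F2 = ((η : ℂ) * I) * (‖w‖ ^ 2 : ℝ) + inner ℂ w g + inner ℂ w (D w) := by
    rw [hF2, inner_add_right, inner_add_right, inner_smul_right, inner_self_eq_norm_sq_to_K]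
    push_cast
    rfl
  have h2 : inner ℂ F1 a = -((η : ℂ) * I) * (‖a‖ ^ 2 : ℝ) - inner ℂ h a := by
    rw [hF1, inner_sub_left, inner_smul_left, inner_self_eq_norm_sq_to_K]
    simp
  have h3 : inner ℂ w F2 + inner ℂ F1 a =
      ((η * (‖w‖ ^ 2 - ‖a‖ ^ 2) : ℝ) : ℂ) * I + inner ℂ w (D w) := by
    rw [h1, h2, inner_mult e hw ha]
    push_cast
    ring
  have h4 : (inner ℂ w F2 + inner ℂ F1 a : ℂ).im = η * (‖w‖ ^ 2 - ‖a‖ ^ 2) := by
    rw [h3, add_im, hDim, add_zero, mul_I_im, ofReal_re]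
  rw [← abs_mul, ← h4]
  calc |(inner ℂ w F2 + inner ℂ F1 a : ℂ).im| ≤ ‖(inner ℂ w F2 + inner ℂ F1 a : ℂ)‖ :=
        Complex.abs_im_le_norm _
    _ ≤ ‖inner ℂ w F2‖ + ‖inner ℂ F1 a‖ := norm_add_le _ _
    _ ≤ ‖w‖ * ‖F2‖ + ‖F1‖ * ‖a‖ := add_le_add (norm_inner_le_norm _ _) (norm_inner_le_norm _ _)
    _ = _ := by ring

/-- high frequencies -/
theorem high (hD : ‖D‖ ≤ 1) (hDim : ∀ w : H, (inner ℂ w (D w)).im = 0) {s c : ℝ} (hs : 0 < s)
    (hc : 0 < c)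
    (hlow : ∀ τ : ℝ, s ≤ |τ| → ∀ u g : H, Mult e (fun k => d k ^ 2) u g →
      c * ‖u‖ ≤ ‖g - ((τ ^ 2 : ℝ) : ℂ) • u + ((τ : ℂ) * I) • D u‖)
    {η : ℝ} (hη : s ≤ |η|) {a w g h : H} (hw : Mult e d w h) (ha : Mult e d a g) :
    ‖a‖ + ‖w‖ ≤ (2 * (1 / c + 1 / (2 * s)) + 1 / s) * (1 + |η|) *
      (‖((η : ℂ) * I) • a - h‖ + ‖((η : ℂ) * I) • w + g + D w‖) := by
  have hpair := pairing e d D hDim (η := η) hw ha
  set F2 := ((η : ℂ) * I) • w + g + D w with hF2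
  set F1 := ((η : ℂ) * I) • a - h with hF1
  set N := ‖F1‖ + ‖F2‖ with hN
  have hN0 : 0 ≤ N := by positivity
  have hη0 : 0 < |η| := by linarith
  have hηne : η ≠ 0 := abs_pos.1 hη0
  have hηsq : 0 < η ^ 2 := by positivity
  -- the multiplier
  have hm : ∀ k, |(-(d k) / (d k ^ 2 + η ^ 2))| ≤ 1 / (2 * |η|) := by
    intro k
    rw [abs_div, abs_neg, abs_of_pos (by positivity : 0 < d k ^ 2 + η ^ 2),
      div_le_div_iff₀ (by positivity) (by positivity)]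
    nlinarith [sq_nonneg (|d k| - |η|), sq_abs (d k), sq_abs η]
  obtain ⟨z, hz⟩ := exists_mult e _ hm F1
  have hzn : ‖z‖ ≤ 1 / (2 * |η|) * ‖F1‖ := by
    refine norm_le_of_coord e (by positivity) z F1 fun k => ?_
    rw [hz k, norm_mul, Complex.norm_real, Real.norm_eq_abs]
    exact mul_le_mul_of_nonneg_right (hm k) (norm_nonneg _)
  set y := w - z with hy
  set gy := ((η : ℂ) * I) • F2 + ((η ^ 2 : ℝ) : ℂ) • z + ((η ^ 2 : ℝ) : ℂ) • w -
    ((η : ℂ) * I) • D w with hgy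
  have hF1k : ∀ k, e.repr F1 k = ((η : ℂ) * I) * e.repr a k - (d k : ℂ) * e.repr w k := by
    intro k
    rw [hF1, map_sub, map_smul, lp.coeFn_sub, Pi.sub_apply, lp.coeFn_smul, Pi.smul_apply, hw k]
    rfl
  have hF2k : ∀ k, e.repr F2 k = ((η : ℂ) * I) * e.repr w k + (d k : ℂ) * e.repr a k +
      e.repr (D w) k := by
    intro k
    rw [hF2, map_add, map_add, map_smul, lp.coeFn_add, Pi.add_apply, lp.coeFn_add, Pi.add_apply,
      lp.coeFn_smul, Pi.smul_apply, ha k]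
    rfl
  have hmul : Mult e (fun k => d k ^ 2) y gy := by
    intro k
    have hzk := hz k
    have hpos : ((d k ^ 2 + η ^ 2 : ℝ) : ℂ) ≠ 0 := by
      have : (d k ^ 2 + η ^ 2 : ℝ) ≠ 0 := by positivity
      exact_mod_cast this
    have hzk' : ((d k : ℂ) ^ 2 + (η : ℂ) ^ 2) * e.repr z k = -(d k : ℂ) * e.repr F1 k := by
      rw [hzk]
      push_cast
      have hpos' : ((d k : ℂ) ^ 2 + (η : ℂ) ^ 2) ≠ 0 := by
        have := hpos
        push_cast at this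
        exact this
      field_simp
    have e1 : e.repr gy k = ((η : ℂ) * I) * e.repr F2 k + ((η ^ 2 : ℝ) : ℂ) * e.repr z k +
        ((η ^ 2 : ℝ) : ℂ) * e.repr w k - ((η : ℂ) * I) * e.repr (D w) k := by
      rw [hgy]
      simp only [map_sub, map_add, map_smul, lp.coeFn_sub, lp.coeFn_add, lp.coeFn_smul,
        Pi.sub_apply, Pi.add_apply, Pi.smul_apply, smul_eq_mul]
    have e2 : e.repr y k = e.repr w k - e.repr z k := by
      rw [hy, map_sub, lp.coeFn_sub, Pi.sub_apply]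
    rw [e1, e2, hF2k k]
    rw [hF1k k] at hzk'
    have hI : I ^ 2 = -1 := I_sq
    push_cast
    linear_combination (η : ℂ) ^ 2 * e.repr w k * hI + hzk'
  have hlow' := hlow η hη y gy hmul
  have hval : gy - ((η ^ 2 : ℝ) : ℂ) • y + ((η : ℂ) * I) • D y =
      ((η : ℂ) * I) • F2 + (2 * ((η ^ 2 : ℝ) : ℂ)) • z - ((η : ℂ) * I) • D z := by
    rw [hgy, hy, map_sub]
    module
  rw [hval] at hlow'
  have hDz : ‖D z‖ ≤ ‖z‖ := by
    calc ‖D z‖ ≤ ‖D‖ * ‖z‖ := D.le_opNorm z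
      _ ≤ 1 * ‖z‖ := by gcongr
      _ = ‖z‖ := one_mul _
  have hηI : ‖((η : ℂ) * I)‖ = |η| := by
    rw [norm_mul, norm_I, mul_one, Complex.norm_real, Real.norm_eq_abs]
  have h1 : c * ‖y‖ ≤ (1 + |η|) * N := by
    calc c * ‖y‖ ≤ _ := hlow'
      _ ≤ ‖((η : ℂ) * I) • F2‖ + ‖(2 * ((η ^ 2 : ℝ) : ℂ)) • z‖ + ‖((η : ℂ) * I) • D z‖ :=
          (norm_sub_le _ _).trans (add_le_add (norm_add_le _ _) le_rfl)
      _ = |η| * ‖F2‖ + 2 * η ^ 2 * ‖z‖ + |η| * ‖D z‖ := by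
          rw [norm_smul, norm_smul, norm_smul, hηI, norm_mul, Complex.norm_real, Real.norm_eq_abs,
            abs_of_pos hηsq]
          simp
      _ ≤ |η| * ‖F2‖ + 2 * η ^ 2 * (1 / (2 * |η|) * ‖F1‖) + |η| * (1 / (2 * |η|) * ‖F1‖) := by
          gcongr
          exact hDz.trans hzn
      _ = |η| * ‖F2‖ + |η| * ‖F1‖ + 1 / 2 * ‖F1‖ := by
          rw [← sq_abs η]
          field_simp
      _ ≤ (1 + |η|) * N := by
          rw [hN]
          nlinarith [norm_nonneg F1, norm_nonneg F2]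
  have hyn : ‖y‖ ≤ 1 / c * ((1 + |η|) * N) := by
    rw [one_div, ← div_eq_inv_mul, le_div_iff₀ hc]
    linarith
  have hzn' : ‖z‖ ≤ 1 / (2 * s) * ((1 + |η|) * N) := by
    calc ‖z‖ ≤ 1 / (2 * |η|) * ‖F1‖ := hzn
      _ ≤ 1 / (2 * s) * ((1 + |η|) * N) := by
          have e1 : ‖F1‖ ≤ (1 + |η|) * N := by
            rw [hN]
            nlinarith [norm_nonneg F1, norm_nonneg F2]
          gcongr
  have hwn : ‖w‖ ≤ (1 / c + 1 / (2 * s)) * ((1 + |η|) * N) := by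
    have e1 : w = y + z := by rw [hy, sub_add_cancel]
    calc ‖w‖ = ‖y + z‖ := by rw [← e1]
      _ ≤ ‖y‖ + ‖z‖ := norm_add_le _ _
      _ ≤ _ := by
          rw [add_mul]
          exact add_le_add hyn hzn'
  -- the other component
  have han : ‖a‖ ≤ ‖w‖ + N / s := by
    by_contra hcon
    push Not at hcon
    have hNs : 0 ≤ N / s := by positivity
    have hw0 := norm_nonneg w
    have ha0 : 0 < ‖a‖ := by linarith
    have e1 : |η| * (‖a‖ ^ 2 - ‖w‖ ^ 2) ≤ (‖w‖ + ‖a‖) * N := by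
      calc |η| * (‖a‖ ^ 2 - ‖w‖ ^ 2) ≤ |η| * |‖w‖ ^ 2 - ‖a‖ ^ 2| := by
            gcongr
            rw [abs_sub_comm]
            exact le_abs_self _
        _ ≤ ‖w‖ * ‖F2‖ + ‖a‖ * ‖F1‖ := hpair
        _ ≤ (‖w‖ + ‖a‖) * N := by
            rw [hN]
            nlinarith [norm_nonneg F1, norm_nonneg F2]
    have e2 : s * (‖a‖ - ‖w‖) * (‖a‖ + ‖w‖) ≤ |η| * (‖a‖ ^ 2 - ‖w‖ ^ 2) := by
      have : ‖a‖ ^ 2 - ‖w‖ ^ 2 = (‖a‖ - ‖w‖) * (‖a‖ + ‖w‖) := by ring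
      rw [this, mul_assoc]
      have : 0 ≤ (‖a‖ - ‖w‖) * (‖a‖ + ‖w‖) := mul_nonneg (by linarith) (by linarith)
      gcongr
    have e3 : s * (‖a‖ - ‖w‖) * (‖a‖ + ‖w‖) ≤ N * (‖a‖ + ‖w‖) := by linarith
    have e4 : s * (‖a‖ - ‖w‖) ≤ N := le_of_mul_le_mul_right e3 (by linarith)
    have e5 : ‖a‖ - ‖w‖ ≤ N / s := by
      rw [le_div_iff₀ hs]
      linarith
    linarith
  have hNs : N / s ≤ 1 / s * ((1 + |η|) * N) := by
    rw [div_eq_mul_one_div, mul_comm]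
    gcongr
    nlinarith
  calc ‖a‖ + ‖w‖ ≤ 2 * ‖w‖ + N / s := by linarith
    _ ≤ 2 * ((1 / c + 1 / (2 * s)) * ((1 + |η|) * N)) + 1 / s * ((1 + |η|) * N) := by
        gcongr
    _ = _ := by ring

/-- low frequencies -/
theorem low (κ : ι) (hd0 : ∀ k, 0 ≤ d k) (hdκ : d κ = 0) (hd1 : ∀ k, k ≠ κ → 1 ≤ d k)
    (hD : ‖D‖ ≤ 1) {δ : ℝ} (hδ : δ = (inner ℂ (e κ) (D (e κ))).re) (hδ0 : 0 < δ)
    {η : ℝ} (hη : |η| ≤ 1 / (2 * (3 + 2 / δ))) {a w g h : H} (hw : Mult e d w h)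
    (ha : Mult e d a g) (haκ : ∀ k, d k = 0 → e.repr a k = 0) :
    ‖a‖ + ‖w‖ ≤ (2 * (3 + 2 / δ) + 2 * (1 + 1 / δ)) *
      (‖((η : ℂ) * I) • a - h‖ + ‖((η : ℂ) * I) • w + g + D w‖) := by
  classical
  set F2 := ((η : ℂ) * I) • w + g + D w with hF2
  set F1 := ((η : ℂ) * I) • a - h with hF1
  set N := ‖F1‖ + ‖F2‖ with hN
  have hηI : ‖((η : ℂ) * I)‖ = |η| := by
    rw [norm_mul, norm_I, mul_one, Complex.norm_real, Real.norm_eq_abs]
  have hη0 := abs_nonneg η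
  have hC : 3 ≤ 3 + 2 / δ := by
    have : 0 < 2 / δ := by positivity
    linarith
  have hη1 : |η| ≤ 1 := by
    refine hη.trans ?_
    rw [div_le_one (by positivity)]
    linarith
  -- the decomposition
  set wκ : ℂ := e.repr w κ with hwκ
  set w' := w - wκ • e κ with hw'
  have hw'k : ∀ k, e.repr w' k = if k = κ then 0 else e.repr w k := by
    intro k
    rw [hw', map_sub, map_smul, e.repr_self, lp.coeFn_sub, Pi.sub_apply, lp.coeFn_smul,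
      Pi.smul_apply]
    by_cases hk : k = κ
    · subst hk
      simp [hwκ]
    · rw [if_neg hk, lp.single_apply_ne _ _ _ hk]
      simp
  have hw'n : ‖w'‖ ≤ 1 * ‖h‖ := by
    refine norm_le_of_coord e zero_le_one w' h fun k => ?_
    rw [hw'k k, hw k, norm_mul, Complex.norm_real, Real.norm_eq_abs, abs_of_nonneg (hd0 k), one_mul]
    by_cases hk : k = κ
    · rw [if_pos hk, norm_zero]
      have := hd0 k
      positivity
    · rw [if_neg hk]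
      have := hd1 k hk
      nlinarith [norm_nonneg (e.repr w k)]
  have hh : ‖h‖ ≤ ‖F1‖ + |η| * ‖a‖ := by
    have e1 : h = ((η : ℂ) * I) • a - F1 := by rw [hF1]; abel
    calc ‖h‖ = ‖((η : ℂ) * I) • a - F1‖ := by rw [← e1]
      _ ≤ ‖((η : ℂ) * I) • a‖ + ‖F1‖ := norm_sub_le _ _
      _ = _ := by rw [norm_smul, hηI, add_comm]
  have hw'n2 : ‖w'‖ ≤ ‖F1‖ + |η| * ‖a‖ := by linarith
  have hDw' : ‖D w'‖ ≤ ‖w'‖ := by
    calc ‖D w'‖ ≤ ‖D‖ * ‖w'‖ := D.le_opNorm _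
      _ ≤ 1 * ‖w'‖ := by gcongr
      _ = _ := one_mul _
  -- the coordinate `κ`
  have hκ : e.repr F2 κ = wκ * (((η : ℂ) * I) + inner ℂ (e κ) (D (e κ))) + inner ℂ (e κ) (D w') := by
    have e1 : w = w' + wκ • e κ := by rw [hw', sub_add_cancel]
    have e2 : D w = D w' + wκ • D (e κ) := by
      conv_lhs => rw [e1]
      rw [map_add, map_smul]
    rw [hF2, map_add, map_add, map_smul, lp.coeFn_add, Pi.add_apply, lp.coeFn_add, Pi.add_apply,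
      lp.coeFn_smul, Pi.smul_apply, ha κ, hdκ, e.repr_apply_apply (D w), e2, inner_add_right,
      inner_smul_right, ← hwκ]
    simp only [smul_eq_mul]
    push_cast
    ring
  have hκn : δ * ‖wκ‖ ≤ N + |η| * ‖a‖ := by
    have e1 : δ ≤ ‖((η : ℂ) * I) + inner ℂ (e κ) (D (e κ))‖ := by
      have e2 : (((η : ℂ) * I) + inner ℂ (e κ) (D (e κ))).re = δ := by
        rw [add_re, hδ]
        simp
      rw [← e2]
      exact Complex.re_le_norm _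
    have e3 : ‖wκ * (((η : ℂ) * I) + inner ℂ (e κ) (D (e κ)))‖ ≤ ‖e.repr F2 κ‖ +
        ‖inner ℂ (e κ) (D w')‖ := by
      have : wκ * (((η : ℂ) * I) + inner ℂ (e κ) (D (e κ))) =
          e.repr F2 κ - inner ℂ (e κ) (D w') := by rw [hκ]; ring
      rw [this]
      exact norm_sub_le _ _
    have e4 : ‖e.repr F2 κ‖ ≤ ‖F2‖ := by
      rw [e.repr_apply_apply]
      refine (norm_inner_le_norm _ _).trans ?_
      rw [e.orthonormal.1 κ, one_mul]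
    have e5 : ‖inner ℂ (e κ) (D w')‖ ≤ ‖w'‖ := by
      refine (norm_inner_le_norm _ _).trans ?_
      rw [e.orthonormal.1 κ, one_mul]
      exact hDw'
    rw [norm_mul] at e3
    calc δ * ‖wκ‖ ≤ ‖((η : ℂ) * I) + inner ℂ (e κ) (D (e κ))‖ * ‖wκ‖ := by gcongr
      _ = ‖wκ‖ * ‖((η : ℂ) * I) + inner ℂ (e κ) (D (e κ))‖ := mul_comm _ _
      _ ≤ ‖F2‖ + ‖w'‖ := by linarith
      _ ≤ N + |η| * ‖a‖ := by
          rw [hN]
          linarith
  have hwn : ‖w‖ ≤ (1 + 1 / δ) * (N + |η| * ‖a‖) := by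
    have e1 : w = w' + wκ • e κ := by rw [hw', sub_add_cancel]
    have e2 : ‖wκ‖ ≤ 1 / δ * (N + |η| * ‖a‖) := by
      rw [one_div, ← div_eq_inv_mul, le_div_iff₀ hδ0]
      linarith
    calc ‖w‖ = ‖w' + wκ • e κ‖ := by rw [← e1]
      _ ≤ ‖w'‖ + ‖wκ • e κ‖ := norm_add_le _ _
      _ = ‖w'‖ + ‖wκ‖ := by rw [norm_smul, e.orthonormal.1 κ, mul_one]
      _ ≤ (N + |η| * ‖a‖) + 1 / δ * (N + |η| * ‖a‖) := by
          refine add_le_add ?_ e2
          rw [hN]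
          linarith [norm_nonneg F2]
      _ = _ := by ring
  have hag : ‖a‖ ≤ 1 * ‖g‖ := by
    refine norm_le_of_coord e zero_le_one a g fun k => ?_
    rw [ha k, norm_mul, Complex.norm_real, Real.norm_eq_abs, abs_of_nonneg (hd0 k), one_mul]
    by_cases hk : k = κ
    · rw [hk, haκ κ hdκ]
      simp
    · have := hd1 k hk
      nlinarith [norm_nonneg (e.repr a k)]
  have hgn : ‖g‖ ≤ N + 2 * ‖w‖ := by
    have e1 : g = F2 - ((η : ℂ) * I) • w - D w := by rw [hF2]; abel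
    have hDw : ‖D w‖ ≤ ‖w‖ := by
      calc ‖D w‖ ≤ ‖D‖ * ‖w‖ := D.le_opNorm _
        _ ≤ 1 * ‖w‖ := by gcongr
        _ = _ := one_mul _
    calc ‖g‖ = ‖F2 - ((η : ℂ) * I) • w - D w‖ := by rw [← e1]
      _ ≤ ‖F2‖ + ‖((η : ℂ) * I) • w‖ + ‖D w‖ :=
          (norm_sub_le _ _).trans (add_le_add (norm_sub_le _ _) le_rfl)
      _ = ‖F2‖ + |η| * ‖w‖ + ‖D w‖ := by rw [norm_smul, hηI]
      _ ≤ N + 2 * ‖w‖ := by
          rw [hN]
          nlinarith [norm_nonneg F1, norm_nonneg w]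
  set C' := 3 + 2 / δ with hC'
  have hN0 : 0 ≤ N := by positivity
  have ha0 := norm_nonneg a
  have e1 : ‖a‖ ≤ C' * (N + |η| * ‖a‖) := by
    have e2 : C' = 1 + 2 * (1 + 1 / δ) := by rw [hC']; ring
    have e3 : 0 ≤ |η| * ‖a‖ := by positivity
    calc ‖a‖ ≤ N + 2 * ‖w‖ := by linarith
      _ ≤ N + 2 * ((1 + 1 / δ) * (N + |η| * ‖a‖)) := by gcongr
      _ ≤ (N + |η| * ‖a‖) + 2 * ((1 + 1 / δ) * (N + |η| * ‖a‖)) := by linarith
      _ = _ := by rw [e2]; ring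
  have hC'0 : 0 < C' := by linarith
  have e2 : C' * (|η| * ‖a‖) ≤ ‖a‖ / 2 := by
    have : C' * |η| ≤ 1 / 2 := by
      calc C' * |η| ≤ C' * (1 / (2 * C')) := by gcongr
        _ = 1 / 2 := by field_simp
    nlinarith
  have e3 : ‖a‖ ≤ 2 * C' * N := by nlinarith
  have e4 : |η| * ‖a‖ ≤ N := by
    calc |η| * ‖a‖ ≤ (1 / (2 * C')) * (2 * C' * N) := by gcongr
      _ = N := by field_simp
  have e5 : ‖w‖ ≤ 2 * (1 + 1 / δ) * N := by
    calc ‖w‖ ≤ (1 + 1 / δ) * (N + |η| * ‖a‖) := hwn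
      _ ≤ (1 + 1 / δ) * (N + N) := by gcongr
      _ = _ := by ring
  calc ‖a‖ + ‖w‖ ≤ 2 * C' * N + 2 * (1 + 1 / δ) * N := add_le_add e3 e5
    _ = _ := by ring

end

theorem main : TaskResolvent := by
  intro ι H _ _ _ e d D κ hd0 hdκ hd1 hD hDim hDre hδ hlow
  set δ := (inner ℂ (e κ) (D (e κ))).re with hδdef
  set s := 1 / (2 * (3 + 2 / δ)) with hs
  have hs0 : 0 < s := by positivity
  obtain ⟨c, hc, hc'⟩ := hlow s hs0
  set B1 := 2 * (1 / c + 1 / (2 * s)) + 1 / s with hB1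
  set B2 := 2 * (3 + 2 / δ) + 2 * (1 + 1 / δ) with hB2
  have hB10 : 0 < B1 := by positivity
  have hB20 : 0 < B2 := by positivity
  refine ⟨4 * (B1 + B2) ^ 2, fun η a w g h hw ha haκ => ?_⟩
  set N1 := ‖((η : ℂ) * I) • a - h‖ with hN1
  set N2 := ‖((η : ℂ) * I) • w + g + D w‖ with hN2
  have hN10 : 0 ≤ N1 := norm_nonneg _
  have hN20 : 0 ≤ N2 := norm_nonneg _
  have key : ‖a‖ + ‖w‖ ≤ (B1 + B2) * (1 + |η|) * (N1 + N2) := by
    rcases le_total s |η| with h1 | h1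
    · have := high e d D hD hDim hs0 hc hc' h1 hw ha
      refine this.trans ?_
      rw [← hB1]
      gcongr
      linarith
    · have := low e d D κ hd0 hdκ hd1 hD hδdef hδ h1 hw ha haκ
      refine this.trans ?_
      rw [← hB2]
      have h2 := abs_nonneg η
      have h3 : B2 ≤ (B1 + B2) * (1 + |η|) := by nlinarith
      gcongr
  have ha0 := norm_nonneg a
  have hw0 := norm_nonneg w
  have h1 : ‖a‖ ^ 2 + ‖w‖ ^ 2 ≤ (‖a‖ + ‖w‖) ^ 2 := by nlinarith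
  have h2 : (‖a‖ + ‖w‖) ^ 2 ≤ ((B1 + B2) * (1 + |η|) * (N1 + N2)) ^ 2 :=
    pow_le_pow_left₀ (by positivity) key 2
  have h3 : (1 + |η|) ^ 2 ≤ 2 * (1 + η ^ 2) := by
    nlinarith [sq_abs η, sq_nonneg (1 - |η|)]
  have h4 : (N1 + N2) ^ 2 ≤ 2 * (N1 ^ 2 + N2 ^ 2) := by nlinarith [sq_nonneg (N1 - N2)]
  calc ‖a‖ ^ 2 + ‖w‖ ^ 2 ≤ ((B1 + B2) * (1 + |η|) * (N1 + N2)) ^ 2 := h1.trans h2
    _ = (B1 + B2) ^ 2 * (1 + |η|) ^ 2 * (N1 + N2) ^ 2 := by ring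
    _ ≤ (B1 + B2) ^ 2 * (2 * (1 + η ^ 2)) * (2 * (N1 ^ 2 + N2 ^ 2)) := by gcongr
    _ = _ := by ring

end Pool.Agent.W741.ER5
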