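import Pool.Agent.W805.ER.Defs

/-! ER-7: the one-dimensional core/layer inequality. -/

set_option autoImplicit false

open Filter Topology Set intervalIntegral
open MeasureTheory (volume)
open scoped ENNReal Real

namespace Pool.Agent.W741.ER7

open Pool.Agent.W805.ER

section
variable {μ : ℝ} {u u' u'' : ℝ → ℂ} (hu : ∀ x, HasDerivAt u (u' x) x)
  (hu' : ∀ x, HasDerivAt u' (u'' x) x) (hc : Continuous u'')

include hu hu' hc

theorem cont_u : Continuous u := continuous_iff_continuousAt.2 fun x => (hu x).continuousAt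
theorem cont_u' : Continuous u' := continuous_iff_continuousAt.2 fun x => (hu' x).continuousAt
theorem cont_g : Continuous fun x => u'' x + (μ : ℂ) * u x :=
  hc.add (continuous_const.mul (cont_u hu hu' hc))

/-- the basic identity -/
theorem ident {p q : ℝ} {z z' z'' : ℝ → ℝ} (hz : ∀ x, HasDerivAt z (z' x) x)
    (hz' : ∀ x, HasDerivAt z' (z'' x) x) (hzc : Continuous z'') (h1 : z p = 0) (h2 : z q = 0)
    (h3 : z' p = 0) (h4 : z' q = 0) :
    ∫ x in p..q, z x * ‖u' x‖ ^ 2 = ∫ x in p..q, (1 / 2 * z'' x * ‖u x‖ ^ 2 +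
      μ * (z x * ‖u x‖ ^ 2) - z x * inner ℝ (u x) (u'' x + (μ : ℂ) * u x)) := by
  have cu := cont_u hu hu' hc
  have cu' := cont_u' hu hu' hc
  have cg := cont_g (μ := μ) hu hu' hc
  have cz : Continuous z := continuous_iff_continuousAt.2 fun x => (hz x).continuousAt
  have cz' : Continuous z' := continuous_iff_continuousAt.2 fun x => (hz' x).continuousAt
  have hg : ∀ x, inner ℝ (u x) (u'' x) =
      inner ℝ (u x) (u'' x + (μ : ℂ) * u x) - μ * ‖u x‖ ^ 2 := by
    intro x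
    rw [inner_add_right]
    have : (μ : ℂ) * u x = μ • u x := by rw [Complex.real_smul]
    rw [this, inner_smul_right, real_inner_self_eq_norm_sq]
    ring
  have hd : ∀ x, HasDerivAt (fun x => z x * inner ℝ (u x) (u' x) - 1 / 2 * (z' x * ‖u x‖ ^ 2))
      (z x * ‖u' x‖ ^ 2 + z x * inner ℝ (u x) (u'' x) - 1 / 2 * z'' x * ‖u x‖ ^ 2) x := by
    intro x
    have e1 : HasDerivAt (fun x => inner ℝ (u x) (u' x))
        (inner ℝ (u x) (u'' x) + inner ℝ (u' x) (u' x)) x := (hu x).inner ℝ (hu' x)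
    have e2 : HasDerivAt (fun x => ‖u x‖ ^ 2) (2 * inner ℝ (u x) (u' x)) x := (hu x).norm_sq
    have e3 := ((hz x).mul e1).sub (((hz' x).mul e2).const_mul (1 / 2))
    refine e3.congr_deriv ?_
    rw [real_inner_self_eq_norm_sq]
    ring
  have hint := integral_eq_sub_of_hasDerivAt (a := p) (b := q) (fun x _ => hd x)
    (by
      apply Continuous.intervalIntegrable
      fun_prop)
  rw [h1, h2, h3, h4] at hint
  simp only [zero_mul, mul_zero, sub_zero] at hint
  have e1 : ∫ x in p..q, (z x * ‖u' x‖ ^ 2 + z x * inner ℝ (u x) (u'' x) -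
      1 / 2 * z'' x * ‖u x‖ ^ 2) = ∫ x in p..q, (z x * ‖u' x‖ ^ 2 -
        (1 / 2 * z'' x * ‖u x‖ ^ 2 + μ * (z x * ‖u x‖ ^ 2) -
          z x * inner ℝ (u x) (u'' x + (μ : ℂ) * u x))) := by
    refine integral_congr fun x _ => ?_
    rw [hg x]
    ring
  rw [e1, integral_sub (by apply Continuous.intervalIntegrable; fun_prop)
    (by apply Continuous.intervalIntegrable; fun_prop)] at hint
  linarith

/-- bound of the inner product -/
theorem inner_bd (x c : ℝ) (hc0 : 0 ≤ c) :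
    -(c * inner ℝ (u x) (u'' x + (μ : ℂ) * u x)) ≤ c * (‖u x‖ * ‖u'' x + (μ : ℂ) * u x‖) := by
  rw [← mul_neg]
  refine mul_le_mul_of_nonneg_left ?_ hc0
  have := abs_real_inner_le_norm (u x) (u'' x + (μ : ℂ) * u x)
  exact (neg_le_abs _).trans this

theorem case1 {r : ℝ} (hr : 0 < r) (hμ : μ ≤ 1 / (16 * r ^ 2)) :
    ∫ x in (-r)..r, ‖u x‖ ^ 2 ≤ 2000 * ((∫ x in r..(2 * r), ‖u x‖ ^ 2) +
      (∫ x in (-(2 * r))..(-r), ‖u x‖ ^ 2) +
      r ^ 4 * ∫ x in (-(2 * r))..(2 * r), ‖u'' x + (μ : ℂ) * u x‖ ^ 2) := by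
  have cu := cont_u hu hu' hc
  have cu' := cont_u' hu hu' hc
  have cg := cont_g (μ := μ) hu hu' hc
  have hid := ident (μ := μ) hu hu' hc (p := -(2 * r)) (q := 2 * r)
    (z := fun x => (4 * r ^ 2 - x ^ 2) ^ 2) (z' := fun x => -4 * x * (4 * r ^ 2 - x ^ 2))
    (z'' := fun x => 12 * x ^ 2 - 16 * r ^ 2)
    (fun x => by
      have := (((hasDerivAt_pow 2 x).const_sub (4 * r ^ 2)).pow 2)
      refine this.congr_deriv ?_
      push_cast
      ring)
    (fun x => by
      have h1 : HasDerivAt (fun x : ℝ => -4 * x) (-4) x := by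
        simpa using (hasDerivAt_id x).const_mul (-4 : ℝ)
      have := h1.mul ((hasDerivAt_pow 2 x).const_sub (4 * r ^ 2))
      refine this.congr_deriv ?_
      push_cast
      ring)
    (by fun_prop) (by ring) (by ring) (by ring) (by ring)
  have h0 : 0 ≤ ∫ x in (-(2 * r))..(2 * r), (4 * r ^ 2 - x ^ 2) ^ 2 * ‖u' x‖ ^ 2 :=
    integral_nonneg (by linarith) fun x _ => by positivity
  rw [hid] at h0
  set F : ℝ → ℝ := fun x => 1 / 2 * (12 * x ^ 2 - 16 * r ^ 2) * ‖u x‖ ^ 2 +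
      μ * ((4 * r ^ 2 - x ^ 2) ^ 2 * ‖u x‖ ^ 2) -
      (4 * r ^ 2 - x ^ 2) ^ 2 * inner ℝ (u x) (u'' x + (μ : ℂ) * u x) with hF
  have cF : Continuous F := by
    rw [hF]
    fun_prop
  set G : ℝ → ℝ := fun x => ‖u'' x + (μ : ℂ) * u x‖ ^ 2 with hG
  have cG : Continuous G := by
    rw [hG]
    fun_prop
  have cA : Continuous fun x => ‖u x‖ ^ 2 := by fun_prop
  -- pointwise bounds
  have hpt : ∀ x : ℝ, |x| ≤ 2 * r → ∀ cst : ℝ,
      1 / 2 * (12 * x ^ 2 - 16 * r ^ 2) + (4 * r ^ 2 - x ^ 2) ^ 2 / (16 * r ^ 2) ≤ cst →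
      F x ≤ (cst + r ^ 2 / 2) * ‖u x‖ ^ 2 + 128 * r ^ 6 * G x := by
    intro x hx cst hcst
    have hx2 : x ^ 2 ≤ 4 * r ^ 2 := by
      have := abs_le.1 hx
      nlinarith
    have hz0 : 0 ≤ (4 * r ^ 2 - x ^ 2) ^ 2 := by positivity
    have hz1 : (4 * r ^ 2 - x ^ 2) ^ 2 ≤ 16 * r ^ 4 := by
      nlinarith [sq_nonneg x]
    have e1 : μ * ((4 * r ^ 2 - x ^ 2) ^ 2 * ‖u x‖ ^ 2) ≤
        (4 * r ^ 2 - x ^ 2) ^ 2 / (16 * r ^ 2) * ‖u x‖ ^ 2 := by
      calc _ ≤ 1 / (16 * r ^ 2) * ((4 * r ^ 2 - x ^ 2) ^ 2 * ‖u x‖ ^ 2) := by gcongr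
        _ = _ := by ring
    have e2 := inner_bd (μ := μ) hu hu' hc x _ hz0
    have e3 : (4 * r ^ 2 - x ^ 2) ^ 2 * (‖u x‖ * ‖u'' x + (μ : ℂ) * u x‖) ≤
        r ^ 2 / 2 * ‖u x‖ ^ 2 + 128 * r ^ 6 * G x := by
      calc _ ≤ 16 * r ^ 4 * (‖u x‖ * ‖u'' x + (μ : ℂ) * u x‖) := by gcongr
        _ ≤ _ := by
            simp only [hG]
            nlinarith [sq_nonneg (r * ‖u x‖ - 16 * r ^ 3 * ‖u'' x + (μ : ℂ) * u x‖)]
    have e4 : (1 / 2 * (12 * x ^ 2 - 16 * r ^ 2) + (4 * r ^ 2 - x ^ 2) ^ 2 / (16 * r ^ 2)) *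
        ‖u x‖ ^ 2 ≤ cst * ‖u x‖ ^ 2 := by gcongr
    simp only [hF]
    nlinarith
  have hlay : ∀ x : ℝ, r ≤ |x| → |x| ≤ 2 * r →
      F x ≤ 35 / 2 * r ^ 2 * ‖u x‖ ^ 2 + 128 * r ^ 6 * G x := by
    intro x hx1 hx2
    have hx2' : x ^ 2 ≤ 4 * r ^ 2 := by
      rw [← sq_abs]
      nlinarith [abs_nonneg x]
    have hx1' : r ^ 2 ≤ x ^ 2 := by
      rw [← sq_abs x]
      nlinarith
    have := hpt x hx2 (17 * r ^ 2) (by
      have e1 : (4 * r ^ 2 - x ^ 2) ^ 2 / (16 * r ^ 2) ≤ r ^ 2 := by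
        rw [div_le_iff₀ (by positivity)]
        nlinarith
      nlinarith)
    nlinarith
  have hcore : ∀ x : ℝ, |x| ≤ r → F x ≤ -(r ^ 2 / 2) * ‖u x‖ ^ 2 + 128 * r ^ 6 * G x := by
    intro x hx1
    have hx1' : x ^ 2 ≤ r ^ 2 := by
      rw [← sq_abs x]
      nlinarith [abs_nonneg x]
    have := hpt x (by linarith) (-r ^ 2) (by
      have e1 : (4 * r ^ 2 - x ^ 2) ^ 2 / (16 * r ^ 2) ≤ r ^ 2 := by
        rw [div_le_iff₀ (by positivity)]
        nlinarith [sq_nonneg x]
      nlinarith)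
    nlinarith
  -- split the integral
  have s1 : ∫ x in (-(2 * r))..(2 * r), F x = (∫ x in (-(2 * r))..(-r), F x) +
      (∫ x in (-r)..r, F x) + ∫ x in r..(2 * r), F x := by
    rw [integral_add_adjacent_intervals (cF.intervalIntegrable _ _) (cF.intervalIntegrable _ _),
      integral_add_adjacent_intervals (cF.intervalIntegrable _ _) (cF.intervalIntegrable _ _)]
  have s2 : ∫ x in (-(2 * r))..(2 * r), G x = (∫ x in (-(2 * r))..(-r), G x) +
      (∫ x in (-r)..r, G x) + ∫ x in r..(2 * r), G x := by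
    rw [integral_add_adjacent_intervals (cG.intervalIntegrable _ _) (cG.intervalIntegrable _ _),
      integral_add_adjacent_intervals (cG.intervalIntegrable _ _) (cG.intervalIntegrable _ _)]
  have hlin : ∀ p q c1 c2 : ℝ, ∫ x in p..q, (c1 * ‖u x‖ ^ 2 + c2 * G x) =
      c1 * (∫ x in p..q, ‖u x‖ ^ 2) + c2 * ∫ x in p..q, G x := by
    intro p q c1 c2
    rw [integral_add (by apply Continuous.intervalIntegrable; fun_prop)
      (by apply Continuous.intervalIntegrable; fun_prop), integral_const_mul, integral_const_mul]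
  have t1 : ∫ x in (-(2 * r))..(-r), F x ≤ 35 / 2 * r ^ 2 * (∫ x in (-(2 * r))..(-r), ‖u x‖ ^ 2) +
      128 * r ^ 6 * ∫ x in (-(2 * r))..(-r), G x := by
    rw [← hlin]
    refine integral_mono_on (by linarith) (cF.intervalIntegrable _ _)
      (by apply Continuous.intervalIntegrable; fun_prop) fun x hx => ?_
    refine hlay x ?_ ?_
    · rw [le_abs]; right; linarith [hx.2]
    · rw [abs_le]; constructor <;> linarith [hx.1, hx.2]
  have t2 : ∫ x in (-r)..r, F x ≤ -(r ^ 2 / 2) * (∫ x in (-r)..r, ‖u x‖ ^ 2) +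
      128 * r ^ 6 * ∫ x in (-r)..r, G x := by
    rw [← hlin]
    refine integral_mono_on (by linarith) (cF.intervalIntegrable _ _)
      (by apply Continuous.intervalIntegrable; fun_prop) fun x hx => ?_
    exact hcore x (abs_le.2 ⟨hx.1, hx.2⟩)
  have t3 : ∫ x in r..(2 * r), F x ≤ 35 / 2 * r ^ 2 * (∫ x in r..(2 * r), ‖u x‖ ^ 2) +
      128 * r ^ 6 * ∫ x in r..(2 * r), G x := by
    rw [← hlin]
    refine integral_mono_on (by linarith) (cF.intervalIntegrable _ _)
      (by apply Continuous.intervalIntegrable; fun_prop) fun x hx => ?_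
    refine hlay x ?_ ?_
    · rw [le_abs]; left; linarith [hx.1]
    · rw [abs_le]; constructor <;> linarith [hx.1, hx.2]
  have n1 : 0 ≤ ∫ x in (-(2 * r))..(-r), ‖u x‖ ^ 2 :=
    integral_nonneg (by linarith) fun x _ => by positivity
  have n3 : 0 ≤ ∫ x in r..(2 * r), ‖u x‖ ^ 2 :=
    integral_nonneg (by linarith) fun x _ => by positivity
  have n4 : 0 ≤ ∫ x in (-(2 * r))..(2 * r), G x :=
    integral_nonneg (by linarith) fun x _ => by
      simp only [hG]
      positivity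
  rw [s1] at h0
  have hr2 : 0 < r ^ 2 := by positivity
  have fin : r ^ 2 / 2 * (∫ x in (-r)..r, ‖u x‖ ^ 2) ≤ r ^ 2 / 2 * (35 * ((∫ x in r..(2 * r),
      ‖u x‖ ^ 2) + ∫ x in (-(2 * r))..(-r), ‖u x‖ ^ 2) +
      256 * r ^ 4 * ∫ x in (-(2 * r))..(2 * r), G x) := by
    rw [s2]
    have : r ^ 6 = r ^ 2 * r ^ 4 := by ring
    nlinarith
  have fin2 := le_of_mul_le_mul_left fin (by positivity)
  have n5 : 0 ≤ r ^ 4 * ∫ x in (-(2 * r))..(2 * r), G x := by positivity
  nlinarith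

theorem case2 {r : ℝ} (hr : 0 < r) (hμ : 1 / (16 * r ^ 2) ≤ μ) :
    ∫ x in (-r)..r, ‖u x‖ ^ 2 ≤ 2000 * ((∫ x in r..(2 * r), ‖u x‖ ^ 2) +
      (∫ x in (-(2 * r))..(-r), ‖u x‖ ^ 2) +
      r ^ 4 * ∫ x in (-(2 * r))..(2 * r), ‖u'' x + (μ : ℂ) * u x‖ ^ 2) := by
  have cu := cont_u hu hu' hc
  have cu' := cont_u' hu hu' hc
  have cg := cont_g (μ := μ) hu hu' hc
  have hμ0 : 0 < μ := lt_of_lt_of_le (by positivity) hμ
  have hμi : 1 / μ ≤ 16 * r ^ 2 := by
    rw [div_le_iff₀ hμ0]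
    rw [div_le_iff₀ (by positivity)] at hμ
    linarith
  set G : ℝ → ℝ := fun x => ‖u'' x + (μ : ℂ) * u x‖ ^ 2 with hG
  have cG : Continuous G := by
    rw [hG]
    fun_prop
  set E : ℝ → ℝ := fun x => ‖u' x‖ ^ 2 + μ * ‖u x‖ ^ 2 with hE
  have cE : Continuous E := by
    rw [hE]
    fun_prop
  have hG0 : ∀ x, 0 ≤ G x := fun x => by
    simp only [hG]
    positivity
  have hdE : ∀ x, HasDerivAt E (2 * inner ℝ (u' x) (u'' x + (μ : ℂ) * u x)) x := by
    intro x
    have e1 : HasDerivAt (fun x => ‖u x‖ ^ 2) (2 * inner ℝ (u x) (u' x)) x := (hu x).norm_sq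
    have e2 : HasDerivAt (fun x => ‖u' x‖ ^ 2) (2 * inner ℝ (u' x) (u'' x)) x := (hu' x).norm_sq
    have e3 := e2.add (e1.const_mul μ)
    refine e3.congr_deriv ?_
    rw [inner_add_right]
    have : (μ : ℂ) * u x = μ • u x := by rw [Complex.real_smul]
    rw [this, inner_smul_right, real_inner_comm (u x) (u' x)]
    ring
  -- the maximum
  obtain ⟨x0, hx0, hmax⟩ := (isCompact_Icc (a := -(2 * r)) (b := 2 * r)).exists_isMaxOn
    ⟨0, by constructor <;> linarith⟩ cE.continuousOn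
  set M := E x0 with hM
  have hMx : ∀ x ∈ Icc (-(2 * r)) (2 * r), E x ≤ M := fun x hx => hmax hx
  have hM0 : 0 ≤ M := by
    simp only [hM, hE]
    positivity
  set Kf : ℝ → ℝ := fun x => M / (8 * r) + 8 * r * G x with hKf
  have cK : Continuous Kf := by
    rw [hKf]
    fun_prop
  have hK0 : ∀ x, 0 ≤ Kf x := fun x => by
    have := hG0 x
    simp only [hKf]
    positivity
  have hEd : ∀ x ∈ Icc (-(2 * r)) (2 * r),
      |2 * inner ℝ (u' x) (u'' x + (μ : ℂ) * u x)| ≤ Kf x := by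
    intro x hx
    have e1 := abs_real_inner_le_norm (u' x) (u'' x + (μ : ℂ) * u x)
    have e2 : ‖u' x‖ ^ 2 ≤ M := by
      have := hMx x hx
      simp only [hE] at this
      have h0 : 0 ≤ μ * ‖u x‖ ^ 2 := by positivity
      linarith
    rw [abs_mul, abs_two]
    have e3 : 2 * (‖u' x‖ * ‖u'' x + (μ : ℂ) * u x‖) ≤ ‖u' x‖ ^ 2 / (8 * r) + 8 * r * G x := by
      simp only [hG]
      have e4 : 0 ≤ (‖u' x‖ - 8 * r * ‖u'' x + (μ : ℂ) * u x‖) ^ 2 / (8 * r) := by positivity
      have e5 : (‖u' x‖ - 8 * r * ‖u'' x + (μ : ℂ) * u x‖) ^ 2 / (8 * r) =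
          ‖u' x‖ ^ 2 / (8 * r) - 2 * (‖u' x‖ * ‖u'' x + (μ : ℂ) * u x‖) +
            8 * r * ‖u'' x + (μ : ℂ) * u x‖ ^ 2 := by
        field_simp
        ring
      linarith
    have e6 : ‖u' x‖ ^ 2 / (8 * r) ≤ M / (8 * r) := by gcongr
    simp only [hKf]
    linarith
  have hKint : ∫ x in (-(2 * r))..(2 * r), Kf x = M / 2 + 8 * r * ∫ x in (-(2 * r))..(2 * r), G x := by
    simp only [hKf]
    rw [integral_add (by apply Continuous.intervalIntegrable; fun_prop)
      (by apply Continuous.intervalIntegrable; fun_prop), integral_const_mul, integral_const]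
    congr 1
    rw [smul_eq_mul]
    field_simp
    ring
  have cdE : Continuous fun x => 2 * inner ℝ (u' x) (u'' x + (μ : ℂ) * u x) := by fun_prop
  -- oscillation
  have hosc : ∀ y ∈ Icc (-(2 * r)) (2 * r), M ≤ 2 * E y + 16 * r * ∫ x in (-(2 * r))..(2 * r), G x := by
    intro y hy
    have key : E x0 - E y ≤ ∫ x in (-(2 * r))..(2 * r), Kf x := by
      rcases le_total y x0 with h | h
      · have e1 := integral_eq_sub_of_hasDerivAt (a := y) (b := x0) (fun x _ => hdE x)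
          (cdE.intervalIntegrable _ _)
        rw [← e1]
        calc _ ≤ ∫ x in y..x0, Kf x := by
              refine integral_mono_on h (cdE.intervalIntegrable _ _) (cK.intervalIntegrable _ _)
                fun x hx => ?_
              exact (le_abs_self _).trans (hEd x ⟨hy.1.trans hx.1, hx.2.trans hx0.2⟩)
          _ ≤ _ := integral_mono_interval hy.1 h hx0.2 (Eventually.of_forall hK0)
              (cK.intervalIntegrable _ _)
      · have e1 := integral_eq_sub_of_hasDerivAt (a := x0) (b := y) (fun x _ => hdE x)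
          (cdE.intervalIntegrable _ _)
        have e2 : E x0 - E y = ∫ x in x0..y, -(2 * inner ℝ (u' x) (u'' x + (μ : ℂ) * u x)) := by
          rw [integral_neg, e1]
          ring
        rw [e2]
        calc _ ≤ ∫ x in x0..y, Kf x := by
              refine integral_mono_on h (cdE.neg.intervalIntegrable _ _) (cK.intervalIntegrable _ _)
                fun x hx => ?_
              exact (neg_le_abs _).trans (hEd x ⟨hx0.1.trans hx.1, hx.2.trans hy.2⟩)
          _ ≤ _ := integral_mono_interval hx0.1 h hy.2 (Eventually.of_forall hK0)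
              (cK.intervalIntegrable _ _)
    rw [hKint] at key
    linarith
  -- weight
  set z : ℝ → ℝ := fun x => (x - r) ^ 2 * (2 * r - x) ^ 2 with hz
  have cz : Continuous z := by
    rw [hz]
    fun_prop
  have hid := ident (μ := μ) hu hu' hc (p := r) (q := 2 * r)
    (z := z) (z' := fun x => 2 * (x - r) * (2 * r - x) * (3 * r - 2 * x))
    (z'' := fun x => 2 * (3 * r - 2 * x) ^ 2 - 4 * (x - r) * (2 * r - x))
    (fun x => by
      have h1 : HasDerivAt (fun x : ℝ => x - r) 1 x := (hasDerivAt_id x).sub_const r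
      have h2 : HasDerivAt (fun x : ℝ => 2 * r - x) (-1) x := (hasDerivAt_id x).const_sub (2 * r)
      have := (h1.pow 2).mul (h2.pow 2)
      refine this.congr_deriv ?_
      push_cast
      simp only [Pi.pow_apply]
      ring)
    (fun x => by
      have h1 : HasDerivAt (fun x : ℝ => x - r) 1 x := (hasDerivAt_id x).sub_const r
      have h2 : HasDerivAt (fun x : ℝ => 2 * r - x) (-1) x := (hasDerivAt_id x).const_sub (2 * r)
      have h3 : HasDerivAt (fun x : ℝ => 3 * r - 2 * x) (-2) x := by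
        have := ((hasDerivAt_id x).const_mul (2 : ℝ)).const_sub (3 * r)
        simpa using this
      have := ((h1.const_mul 2).mul h2).mul h3
      refine this.congr_deriv ?_
      simp only [Pi.mul_apply]
      ring)
    (by fun_prop) (by simp [hz]) (by simp [hz]) (by ring) (by ring)
  have hzint : ∫ x in r..(2 * r), z x = r ^ 5 / 30 := by
    have hd : ∀ x, HasDerivAt (fun x : ℝ => r ^ 2 * (x - r) ^ 3 / 3 - r * (x - r) ^ 4 / 2 +
        (x - r) ^ 5 / 5) (z x) x := by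
      intro x
      have h1 : HasDerivAt (fun x : ℝ => x - r) 1 x := (hasDerivAt_id x).sub_const r
      have := ((((h1.pow 3).const_mul (r ^ 2)).div_const 3).sub
        (((h1.pow 4).const_mul r).div_const 2)).add ((h1.pow 5).div_const 5)
      refine this.congr_deriv ?_
      simp only [hz]
      push_cast
      ring
    rw [integral_eq_sub_of_hasDerivAt (fun x _ => hd x) (cz.intervalIntegrable _ _)]
    ring
  have hz0 : ∀ x, 0 ≤ z x := fun x => by
    simp only [hz]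
    positivity
  have hz1 : ∀ x ∈ Icc r (2 * r), z x ≤ r ^ 4 / 16 := by
    intro x hx
    simp only [hz]
    have e1 : 0 ≤ (x - r) * (2 * r - x) := mul_nonneg (by linarith [hx.1]) (by linarith [hx.2])
    have e2 : (x - r) * (2 * r - x) ≤ r ^ 2 / 4 := by nlinarith [sq_nonneg (2 * x - 3 * r)]
    have e3 : ((x - r) * (2 * r - x)) ^ 2 ≤ (r ^ 2 / 4) ^ 2 := pow_le_pow_left₀ e1 e2 2
    calc _ = ((x - r) * (2 * r - x)) ^ 2 := by ring
      _ ≤ _ := e3
      _ = _ := by ring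
  set L := ∫ x in r..(2 * r), ‖u x‖ ^ 2 with hL
  set S := ∫ x in (-(2 * r))..(2 * r), G x with hS
  set Q := ∫ x in r..(2 * r), ‖u x‖ * ‖u'' x + (μ : ℂ) * u x‖ with hQ
  have hL0 : 0 ≤ L := integral_nonneg (by linarith) fun x _ => by positivity
  have hS0 : 0 ≤ S := integral_nonneg (by linarith) fun x _ => hG0 x
  have hQ0 : 0 ≤ Q := integral_nonneg (by linarith) fun x _ => by positivity
  -- `M r^5/30 ≤ 2 ∫ z E + ...`
  have a1 : M * (r ^ 5 / 30) ≤ 2 * (∫ x in r..(2 * r), z x * E x) + 16 * r * S * (r ^ 5 / 30) := by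
    have e1 : ∫ x in r..(2 * r), M * z x ≤ ∫ x in r..(2 * r), (2 * (z x * E x) + 16 * r * S * z x) := by
      refine integral_mono_on (by linarith) ((continuous_const.mul cz).intervalIntegrable _ _)
        (by apply Continuous.intervalIntegrable; fun_prop) fun x hx => ?_
      have := hosc x ⟨by linarith [hx.1], hx.2⟩
      have := mul_le_mul_of_nonneg_right this (hz0 x)
      nlinarith
    rw [integral_const_mul, integral_add (by apply Continuous.intervalIntegrable; fun_prop)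
      (by apply Continuous.intervalIntegrable; fun_prop), integral_const_mul, integral_const_mul,
      hzint] at e1
    exact e1
  have a2 : ∫ x in r..(2 * r), z x * E x ≤ r ^ 2 * L + 2 * μ * (r ^ 4 / 16 * L) + r ^ 4 / 16 * Q := by
    have e1 : ∫ x in r..(2 * r), z x * E x = (∫ x in r..(2 * r), z x * ‖u' x‖ ^ 2) +
        ∫ x in r..(2 * r), μ * (z x * ‖u x‖ ^ 2) := by
      rw [← integral_add (by apply Continuous.intervalIntegrable; fun_prop)
        (by apply Continuous.intervalIntegrable; fun_prop)]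
      refine integral_congr fun x _ => ?_
      simp only [hE]
      ring
    rw [e1, hid, ← integral_add (by apply Continuous.intervalIntegrable; fun_prop)
      (by apply Continuous.intervalIntegrable; fun_prop)]
    have e2 : r ^ 2 * L + 2 * μ * (r ^ 4 / 16 * L) + r ^ 4 / 16 * Q = ∫ x in r..(2 * r),
        ((r ^ 2 + 2 * μ * (r ^ 4 / 16)) * ‖u x‖ ^ 2 +
          r ^ 4 / 16 * (‖u x‖ * ‖u'' x + (μ : ℂ) * u x‖)) := by
      rw [integral_add (by apply Continuous.intervalIntegrable; fun_prop)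
        (by apply Continuous.intervalIntegrable; fun_prop), integral_const_mul, integral_const_mul]
      ring
    rw [e2]
    refine integral_mono_on (by linarith) (by apply Continuous.intervalIntegrable; fun_prop)
      (by apply Continuous.intervalIntegrable; fun_prop) fun x hx => ?_
    have e3 := inner_bd (μ := μ) hu hu' hc x _ (hz0 x)
    have e4 : z x * (‖u x‖ * ‖u'' x + (μ : ℂ) * u x‖) ≤
        r ^ 4 / 16 * (‖u x‖ * ‖u'' x + (μ : ℂ) * u x‖) :=
      mul_le_mul_of_nonneg_right (hz1 x hx) (by positivity)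
    have e5 : μ * (z x * ‖u x‖ ^ 2) ≤ μ * (r ^ 4 / 16 * ‖u x‖ ^ 2) := by
      have := hz1 x hx
      gcongr
    have e6 : 1 / 2 * (2 * (3 * r - 2 * x) ^ 2 - 4 * (x - r) * (2 * r - x)) * ‖u x‖ ^ 2 ≤
        r ^ 2 * ‖u x‖ ^ 2 := by
      have : 1 / 2 * (2 * (3 * r - 2 * x) ^ 2 - 4 * (x - r) * (2 * r - x)) ≤ r ^ 2 := by
        nlinarith [hx.1, hx.2, mul_nonneg (sub_nonneg.2 hx.1) (sub_nonneg.2 hx.2)]
      gcongr
    nlinarith
  -- the core
  have a3 : ∫ x in (-r)..r, ‖u x‖ ^ 2 ≤ 2 * r * (M / μ) := by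
    have e1 : ∫ x in (-r)..r, ‖u x‖ ^ 2 ≤ ∫ x in (-r)..r, M / μ := by
      refine integral_mono_on (by linarith) (by apply Continuous.intervalIntegrable; fun_prop)
        (continuous_const.intervalIntegrable _ _) fun x hx => ?_
      rw [le_div_iff₀ hμ0]
      have := hMx x ⟨by linarith [hx.1], by linarith [hx.2]⟩
      simp only [hE] at this
      nlinarith [sq_nonneg ‖u' x‖]
    refine e1.trans (le_of_eq ?_)
    rw [integral_const, smul_eq_mul]
    ring
  -- Q
  have a4 : r ^ 2 * Q ≤ 1 / 2 * L + r ^ 4 / 2 * S := by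
    have e1 : r ^ 2 * Q ≤ ∫ x in r..(2 * r), (1 / 2 * ‖u x‖ ^ 2 + r ^ 4 / 2 * G x) := by
      rw [hQ, ← integral_const_mul]
      refine integral_mono_on (by linarith) (by apply Continuous.intervalIntegrable; fun_prop)
        (by apply Continuous.intervalIntegrable; fun_prop) fun x hx => ?_
      simp only [hG]
      nlinarith [sq_nonneg (‖u x‖ - r ^ 2 * ‖u'' x + (μ : ℂ) * u x‖)]
    rw [integral_add (by apply Continuous.intervalIntegrable; fun_prop)
      (by apply Continuous.intervalIntegrable; fun_prop), integral_const_mul,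
      integral_const_mul] at e1
    have e2 : ∫ x in r..(2 * r), G x ≤ S :=
      integral_mono_interval (by linarith) (by linarith) le_rfl (Eventually.of_forall hG0)
        (cG.intervalIntegrable _ _)
    have hr4 : 0 ≤ r ^ 4 / 2 := by positivity
    nlinarith
  have n1 : 0 ≤ ∫ x in (-(2 * r))..(-r), ‖u x‖ ^ 2 :=
    integral_nonneg (by linarith) fun x _ => by positivity
  -- combine
  have hr5 : 0 < r ^ 5 := by positivity
  have b1 : M ≤ 60 / r ^ 5 * (r ^ 2 * L + 2 * μ * (r ^ 4 / 16 * L) + r ^ 4 / 16 * Q) + 16 * r * S := by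
    have : M * (r ^ 5 / 30) ≤ (60 / r ^ 5 * (r ^ 2 * L + 2 * μ * (r ^ 4 / 16 * L) + r ^ 4 / 16 * Q) +
        16 * r * S) * (r ^ 5 / 30) := by
      have e : (60 / r ^ 5 * (r ^ 2 * L + 2 * μ * (r ^ 4 / 16 * L) + r ^ 4 / 16 * Q) +
        16 * r * S) * (r ^ 5 / 30) = 2 * (r ^ 2 * L + 2 * μ * (r ^ 4 / 16 * L) + r ^ 4 / 16 * Q) +
          16 * r * S * (r ^ 5 / 30) := by
        field_simp
        ring
      rw [e]
      linarith
    exact le_of_mul_le_mul_right this (by positivity)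
  have b2 : 2 * r * (M / μ) ≤ 1935 * L + 120 * (r ^ 2 * Q) + 512 * (r ^ 4 * S) := by
    have e1 : M / μ ≤ (60 / r ^ 5 * (r ^ 2 * L + 2 * μ * (r ^ 4 / 16 * L) + r ^ 4 / 16 * Q) +
        16 * r * S) / μ := by gcongr
    have e2 : (60 / r ^ 5 * (r ^ 2 * L + 2 * μ * (r ^ 4 / 16 * L) + r ^ 4 / 16 * Q) +
        16 * r * S) / μ = (1 / μ) * (60 / r ^ 5 * (r ^ 2 * L) + 60 / r ^ 5 * (r ^ 4 / 16 * Q) +
          16 * r * S) + 60 / r ^ 5 * (2 * (r ^ 4 / 16 * L)) := by
      field_simp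
      ring
    have e3 : (1 / μ) * (60 / r ^ 5 * (r ^ 2 * L) + 60 / r ^ 5 * (r ^ 4 / 16 * Q) +
          16 * r * S) ≤ 16 * r ^ 2 * (60 / r ^ 5 * (r ^ 2 * L) + 60 / r ^ 5 * (r ^ 4 / 16 * Q) +
          16 * r * S) := by
      have : 0 ≤ 60 / r ^ 5 * (r ^ 2 * L) + 60 / r ^ 5 * (r ^ 4 / 16 * Q) + 16 * r * S := by
        positivity
      gcongr
    have e4 : 2 * r * (M / μ) ≤ 2 * r * (16 * r ^ 2 * (60 / r ^ 5 * (r ^ 2 * L) +
        60 / r ^ 5 * (r ^ 4 / 16 * Q) + 16 * r * S) + 60 / r ^ 5 * (2 * (r ^ 4 / 16 * L))) := by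
      have := e1.trans_eq e2
      have h2r : 0 ≤ 2 * r := by positivity
      exact mul_le_mul_of_nonneg_left (by linarith) h2r
    refine e4.trans (le_of_eq ?_)
    field_simp
    ring
  have n5 : 0 ≤ r ^ 4 * S := by positivity
  nlinarith

end

theorem main : TaskT1 := by
  intro r μ u u' u'' hr hu hu' hc
  rcases le_total μ (1 / (16 * r ^ 2)) with h | h
  · exact case1 hu hu' hc hr h
  · exact case2 hu hu' hc hr h

end Pool.Agent.W741.ER7
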