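import Pool.Agent.W805.ER.Defs

/-! Tensoring with `exp (2 π i m y)` on the two-torus. -/

open MeasureTheory Complex Filter Topology Set
open scoped ENNReal Real

namespace Pool.Agent.W741.ER9

open Pool.Agent.W805.ER

noncomputable section

local instance : MeasureSpace UnitAddCircle := ⟨AddCircle.haarAddCircle⟩
local instance : IsProbabilityMeasure (volume : Measure UnitAddCircle) :=
  inferInstanceAs (IsProbabilityMeasure AddCircle.haarAddCircle)

/-- the function `(x, y) ↦ u x * exp (2 π i m y)` -/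
def pf (m : ℤ) (u : UnitAddCircle → ℂ) (x : T2) : ℂ := u (x 0) * fourier m (x 1)

lemma mpe (i : Fin 2) : MeasurePreserving (fun x : T2 => x i) volume volume :=
  measurePreserving_eval (fun _ : Fin 2 => (volume : Measure UnitAddCircle)) i

lemma ev_ae {p : UnitAddCircle → Prop} (h : ∀ᵐ x, p x) : ∀ᵐ x : T2, p (x 0) :=
  (mpe 0).quasiMeasurePreserving.tendsto_ae.eventually h

lemma pf_memLp (m : ℤ) {u : UnitAddCircle → ℂ} (hu : MemLp u 2 volume) :
    MemLp (pf m u) 2 (volume : Measure T2) := by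
  have h1 : MemLp (fun x : T2 => u (x 0)) 2 (volume : Measure T2) :=
    hu.comp_measurePreserving (mpe 0)
  refine MemLp.of_le h1 ?_ ?_
  · refine h1.1.mul ?_
    have hc : Continuous (fun x : T2 => (fourier m (x 1) : ℂ)) :=
      (fourier m).continuous.comp (continuous_apply 1)
    exact hc.aestronglyMeasurable
  · refine Eventually.of_forall fun x => ?_
    simp only [pf, norm_mul, fourier_apply, Circle.norm_coe, mul_one, le_refl]

lemma pf_congr (m : ℤ) {u v : UnitAddCircle → ℂ} (h : u =ᵐ[volume] v) :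
    pf m u =ᵐ[(volume : Measure T2)] pf m v := by
  filter_upwards [ev_ae h] with x hx
  simp only [pf, hx]

/-- the embedding -/
def J (m : ℤ) : L1 →ₗ[ℂ] L2 where
  toFun u := (pf_memLp m (Lp.memLp u)).toLp
  map_add' u v := by
    rw [← MemLp.toLp_add]
    apply MemLp.toLp_congr
    filter_upwards [ev_ae (Lp.coeFn_add u v)] with x hx
    simp only [pf, hx, Pi.add_apply, add_mul]
  map_smul' c u := by
    rw [RingHom.id_apply, ← MemLp.toLp_const_smul]
    apply MemLp.toLp_congr
    filter_upwards [ev_ae (Lp.coeFn_smul c u)] with x hx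
    simp only [pf, hx, Pi.smul_apply, smul_eq_mul, mul_assoc]

lemma J_coe (m : ℤ) (u : L1) : (J m u : T2 → ℂ) =ᵐ[volume] pf m u :=
  MemLp.coeFn_toLp (pf_memLp m (Lp.memLp u))

lemma fourier_int (m : ℤ) : ∫ x : UnitAddCircle, fourier m x = if m = 0 then 1 else 0 := by
  have h := fourierCoeff_fourier (T := 1) m
  have h2 := congrFun h 0
  rw [fourierCoeff] at h2
  simp only [neg_zero, fourier_zero, one_smul] at h2
  have h3 : ∫ x : UnitAddCircle, fourier m x = (Pi.single m (1 : ℂ) : ℤ → ℂ) 0 := h2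
  rw [h3, Pi.single_apply]
  simp only [eq_comm]

lemma prodint (F G : UnitAddCircle → ℂ) :
    ∫ x : T2, F (x 0) * G (x 1) = (∫ x, F x) * ∫ x, G x := by
  have h := MeasureTheory.integral_fintype_prod_volume_eq_prod (𝕜 := ℂ) (ι := Fin 2)
    (E := fun _ => UnitAddCircle) ![F, G]
  simp only [Fin.prod_univ_two, Matrix.cons_val_zero, Matrix.cons_val_one] at h
  exact h

lemma J_inner (m m' : ℤ) (u v : L1) :
    inner ℂ (J m u) (J m' v) = if m = m' then inner ℂ u v else 0 := by
  rw [MeasureTheory.L2.inner_def]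
  have h1 : ∫ x : T2, inner ℂ ((J m u : T2 → ℂ) x) ((J m' v : T2 → ℂ) x) =
      ∫ x : T2, (inner ℂ ((u : UnitAddCircle → ℂ) (x 0)) ((v : UnitAddCircle → ℂ) (x 0))) *
        fourier (m' - m) (x 1) := by
    apply integral_congr_ae
    filter_upwards [J_coe m u, J_coe m' v] with x hx hy
    rw [hx, hy]
    simp only [pf, RCLike.inner_apply, map_mul]
    rw [sub_eq_add_neg, fourier_add, fourier_neg]
    ring
  rw [h1, prodint (fun x => inner ℂ (u x) (v x)) (fun x => fourier (m' - m) x), fourier_int]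
  by_cases h : m = m'
  · subst h
    simp [MeasureTheory.L2.inner_def]
  · have h' : m' - m ≠ 0 := fun h2 => h (by omega)
    simp [h, h']

lemma J_repr (m : ℤ) (u : L1) (k : Fin 2 → ℤ) :
    e2.repr (J m u) k = if k 1 = m then e1.repr u (k 0) else 0 := by
  have h1 : e2.repr (J m u) k = UnitAddTorus.mFourierCoeff (J m u) k :=
    UnitAddTorus.mFourierBasis_repr (J m u) k
  have h2 : e1.repr u (k 0) = fourierCoeff (u : UnitAddCircle → ℂ) (k 0) :=
    fourierBasis_repr u (k 0)
  rw [h1, h2, UnitAddTorus.mFourierCoeff, fourierCoeff]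
  have h3 : ∫ t : T2, UnitAddTorus.mFourier (-k) t • (J m u : T2 → ℂ) t =
      ∫ x : T2, (fourier (-(k 0)) (x 0) • (u : UnitAddCircle → ℂ) (x 0)) *
        fourier (m - k 1) (x 1) := by
    apply integral_congr_ae
    filter_upwards [J_coe m u] with x hx
    rw [hx]
    simp only [pf, UnitAddTorus.mFourier, ContinuousMap.coe_mk, Fin.prod_univ_two, smul_eq_mul,
      Pi.neg_apply]
    rw [sub_eq_add_neg, fourier_add]
    ring
  rw [h3, prodint (fun x => fourier (-(k 0)) x • (u : UnitAddCircle → ℂ) x)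
    (fun x => fourier (m - k 1) x), fourier_int]
  by_cases h : k 1 = m
  · subst h
    simp only [sub_self, if_true, mul_one]
    rfl
  · have h' : m - k 1 ≠ 0 := fun h2 => h (by omega)
    simp [h, h']

lemma mulOp_coe {α : Type} [MeasurableSpace α] (μ : Measure α) [IsFiniteMeasure μ] (b : α → ℝ)
    (M : ℝ) (hb : Measurable b) (hM : ∀ x, |b x| ≤ M) (u : Lp ℂ 2 μ) :
    (mulOp μ b u : α → ℂ) =ᵐ[μ] fun x => (b x : ℂ) * u x := by
  have h : MemLp (fun x => (b x : ℂ)) ∞ μ := by
    refine memLp_top_of_bound (Complex.measurable_ofReal.comp hb).aestronglyMeasurable M ?_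
    refine Eventually.of_forall fun x => ?_
    simpa using hM x
  have h1 : mulOp μ b u = (ContinuousLinearMap.mul ℂ ℂ).holder 2 (h.toLp) u := by
    unfold mulOp
    rw [dif_pos h]
    rfl
  rw [h1]
  filter_upwards [(ContinuousLinearMap.mul ℂ ℂ).coeFn_holder (r := 2) (h.toLp) u,
    h.coeFn_toLp] with x hx hy
  rw [hx, hy]
  rfl

theorem main : Pool.Agent.W805.ER.TaskJ := by
  refine ⟨J, J_inner, J_repr, ?_⟩
  intro m u β M hβ hM
  apply Lp.ext
  have h1 := mulOp_coe (volume : Measure T2) (fun x : T2 => β (x 0)) M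
    (hβ.comp (measurable_pi_apply 0)) (fun x => hM (x 0)) (J m u)
  have h2 := mulOp_coe (volume : Measure UnitAddCircle) β M hβ hM u
  filter_upwards [h1, J_coe m u, J_coe m (mulOp volume β u), ev_ae h2] with x a1 a2 a3 a4
  rw [a1, a2, a3]
  simp only [pf]
  rw [a4]
  ring

end

end Pool.Agent.W741.ER9
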