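import Pool.Agent.W805.ER.Defs

/-! Coordinates in a Hilbert basis. -/

set_option autoImplicit false

open MeasureTheory Complex Filter Topology Set
open scoped ENNReal Real

namespace Pool.Agent.W741.ER

open Pool.Agent.W805.ER

section
variable {ι H : Type} [NormedAddCommGroup H] [InnerProductSpace ℂ H] [CompleteSpace H]
  (e : HilbertBasis ι ℂ H)

theorem hasSum_sq (x : H) : HasSum (fun k => ‖e.repr x k‖ ^ 2) (‖x‖ ^ 2) := by
  have h := lp.hasSum_norm (p := 2) (by norm_num) (e.repr x)
  rw [LinearIsometryEquiv.norm_map] at h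
  simpa using h

theorem norm_le_of_coord {M : ℝ} (hM : 0 ≤ M) (x y : H)
    (h : ∀ k, ‖e.repr x k‖ ≤ M * ‖e.repr y k‖) : ‖x‖ ≤ M * ‖y‖ := by
  have h1 := hasSum_sq e x
  have h2 := (hasSum_sq e y).mul_left (M ^ 2)
  have h3 : ‖x‖ ^ 2 ≤ M ^ 2 * ‖y‖ ^ 2 := by
    refine hasSum_le (fun k => ?_) h1 h2
    rw [← mul_pow]
    exact pow_le_pow_left₀ (norm_nonneg _) (h k) 2
  rw [← mul_pow] at h3
  exact le_of_sq_le_sq h3 (by positivity) |> fun h => h

theorem coord_ext {x y : H} (h : ∀ k, e.repr x k = e.repr y k) : x = y := by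
  apply e.repr.injective
  ext k
  exact h k

theorem exists_mult (m : ι → ℝ) {M : ℝ} (hm : ∀ k, |m k| ≤ M) (u : H) :
    ∃ z : H, Mult e m u z := by
  have hs : Memℓp (fun k => (m k : ℂ) * e.repr u k) 2 := by
    rw [memℓp_gen_iff (by norm_num)]
    have h2 := (hasSum_sq e u).summable.mul_left (M ^ 2)
    refine Summable.of_nonneg_of_le (fun k => by positivity) (fun k => ?_) h2
    simp only [ENNReal.toReal_ofNat, Real.rpow_ofNat]
    rw [norm_mul, Complex.norm_real, Real.norm_eq_abs, mul_pow]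
    have := hm k
    have h0 := abs_nonneg (m k)
    gcongr
  refine ⟨e.repr.symm ⟨fun k => (m k : ℂ) * e.repr u k, hs⟩, fun k => ?_⟩
  rw [LinearIsometryEquiv.apply_symm_apply]

theorem inner_eq (x y : H) : HasSum (fun k => (starRingEnd ℂ) (e.repr x k) * e.repr y k)
    (inner ℂ x y) := by
  have h := e.hasSum_inner_mul_inner x y
  have e1 : (fun k => (starRingEnd ℂ) (e.repr x k) * e.repr y k) =
      fun k => inner ℂ x (e k) * inner ℂ (e k) y := by
    funext k
    rw [e.repr_apply_apply, e.repr_apply_apply, inner_conj_symm]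
  rw [e1]
  exact h

theorem inner_mult {d : ι → ℝ} {a w g h : H} (hw : Mult e d w h) (ha : Mult e d a g) :
    inner ℂ w g = inner ℂ h a := by
  have h1 := inner_eq e w g
  have h2 := inner_eq e h a
  refine h1.unique ?_
  have e1 : (fun k => (starRingEnd ℂ) (e.repr w k) * e.repr g k) =
      fun k => (starRingEnd ℂ) (e.repr h k) * e.repr a k := by
    funext k
    rw [hw k, ha k, map_mul, Complex.conj_ofReal]
    ring
  rw [e1]
  exact h2

end

end Pool.Agent.W741.ER
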