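import Pool.Agent.W564.MY.Defs

/-! Sub-task MY-2: windows, elementary facts. -/

set_option autoImplicit false

noncomputable section

namespace Pool.Agent.W741.MY

open MeasureTheory Metric Set Filter Topology
open scoped ENNReal ContDiff ComplexConjugate
open Pool.Agent.W564.MY

theorem ang_nonpos {x : ℝ} (h : x ≤ 0) : ang x = 0 := by
  unfold ang
  rw [Real.smoothTransition.zero_of_nonpos h, mul_zero]

theorem ang_one {x : ℝ} (h : 1 ≤ x) : ang x = Real.pi / 2 := by
  unfold ang
  rw [Real.smoothTransition.one_of_one_le h, mul_one]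

theorem ang_nonneg (x : ℝ) : 0 ≤ ang x := by
  unfold ang
  have := Real.smoothTransition.nonneg x
  positivity

theorem ang_le (x : ℝ) : ang x ≤ Real.pi / 2 := by
  unfold ang
  have := Real.smoothTransition.le_one x
  have h := Real.pi_pos
  nlinarith

theorem ang_smooth : ContDiff ℝ ((⊤ : ℕ∞) : WithTop ℕ∞) ang := by
  unfold ang
  exact contDiff_const.mul Real.smoothTransition.contDiff

theorem sin_ang_nonneg (x : ℝ) : 0 ≤ Real.sin (ang x) :=
  Real.sin_nonneg_of_nonneg_of_le_pi (ang_nonneg x) (by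
    have := ang_le x
    have h := Real.pi_pos
    linarith)

theorem cos_ang_nonneg (x : ℝ) : 0 ≤ Real.cos (ang x) :=
  Real.cos_nonneg_of_mem_Icc ⟨by
    have := ang_nonneg x
    have h := Real.pi_pos
    linarith, ang_le x⟩

theorem Wf_smooth (u l' : ℝ) : ContDiff ℝ ((⊤ : ℕ∞) : WithTop ℕ∞) (Wf u l') := by
  unfold Wf
  exact (Real.contDiff_sin.comp (ang_smooth.comp (contDiff_id.div_const u))).mul
    (Real.contDiff_cos.comp (ang_smooth.comp ((contDiff_id.sub contDiff_const).div_const u)))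

theorem bf_smooth (u : ℝ) : ContDiff ℝ ((⊤ : ℕ∞) : WithTop ℕ∞) (bf u) := by
  unfold bf
  exact (Real.contDiff_sin.comp (ang_smooth.comp ((contDiff_id.div_const u).add contDiff_const))).mul
    (Real.contDiff_cos.comp (ang_smooth.comp (contDiff_id.div_const u)))

theorem Bf_smooth (J : ℕ) (u : ℝ) : ContDiff ℝ ((⊤ : ℕ∞) : WithTop ℕ∞) (Bf J u) := by
  unfold Bf
  exact ContDiff.sum fun i _ => contDiff_const.mul
    ((bf_smooth u).comp (contDiff_id.sub contDiff_const))

theorem bulk_smooth (J : ℕ) (u : ℝ) (i : ℕ) (k : ℤ) :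
    ContDiff ℝ ((⊤ : ℕ∞) : WithTop ℕ∞) (bulk J u i k) := by
  unfold bulk
  have h1 : ContDiff ℝ ((⊤ : ℕ∞) : WithTop ℕ∞)
      fun s : ℝ => (Wf u (1 / J - u) (s - i / J) : ℂ) :=
    Complex.ofRealCLM.contDiff.comp ((Wf_smooth u _).comp (contDiff_id.sub contDiff_const))
  have h2 : ContDiff ℝ ((⊤ : ℕ∞) : WithTop ℕ∞)
      fun s : ℝ => Complex.exp ((2 * Real.pi * k / (1 / J - u) * (s - i / J) : ℝ) * Complex.I) :=
    ((Complex.ofRealCLM.contDiff.comp
      (contDiff_const.mul (contDiff_id.sub contDiff_const))).mul contDiff_const).cexp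
  exact (h1.mul h2).div_const _

theorem skel_smooth (J : ℕ) (u : ℝ) (m : ℤ) :
    ContDiff ℝ ((⊤ : ℕ∞) : WithTop ℕ∞) (skel J u m) := by
  unfold skel
  refine ContDiff.div_const (ContDiff.sum fun i _ => ?_) _
  have h1 : ContDiff ℝ ((⊤ : ℕ∞) : WithTop ℕ∞)
      fun s : ℝ => (((-1 : ℝ) ^ i * bf u (s - i / J) : ℝ) : ℂ) :=
    Complex.ofRealCLM.contDiff.comp
      (contDiff_const.mul ((bf_smooth u).comp (contDiff_id.sub contDiff_const)))
  have h2 : ContDiff ℝ ((⊤ : ℕ∞) : WithTop ℕ∞)
      fun s : ℝ => Complex.exp ((2 * Real.pi * m / (J * u) * (i * u + (s - i / J)) : ℝ) *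
        Complex.I) :=
    ((Complex.ofRealCLM.contDiff.comp (contDiff_const.mul
      (contDiff_const.add (contDiff_id.sub contDiff_const)))).mul contDiff_const).cexp
  exact h1.mul h2

/-! ### values of the windows -/

theorem Wf_left {u l' t : ℝ} (hu : 0 < u) (hul : u ≤ l') (ht : t ≤ u) :
    Wf u l' t = Real.sin (ang (t / u)) := by
  unfold Wf
  rw [ang_nonpos (x := (t - l') / u) (div_nonpos_of_nonpos_of_nonneg (by linarith) hu.le),
    Real.cos_zero, mul_one]

theorem Wf_mid {u l' t : ℝ} (hu : 0 < u) (ht : u ≤ t) (ht' : t ≤ l') : Wf u l' t = 1 := by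
  unfold Wf
  rw [ang_nonpos (x := (t - l') / u) (div_nonpos_of_nonpos_of_nonneg (by linarith) hu.le),
    Real.cos_zero, mul_one, ang_one ((one_le_div hu).2 ht), Real.sin_pi_div_two]

theorem Wf_right {u l' t : ℝ} (hu : 0 < u) (hul : u ≤ l') (ht : 0 ≤ t) :
    Wf u l' (t + l') = Real.cos (ang (t / u)) := by
  unfold Wf
  rw [ang_one (x := (t + l') / u) ((one_le_div hu).2 (by linarith)), Real.sin_pi_div_two, one_mul,
    add_sub_cancel_right]

theorem Wf_zero_left {u l' t : ℝ} (hu : 0 < u) (ht : t ≤ 0) : Wf u l' t = 0 := by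
  unfold Wf
  rw [ang_nonpos (div_nonpos_of_nonpos_of_nonneg ht hu.le), Real.sin_zero, zero_mul]

theorem Wf_zero_right {u l' t : ℝ} (hu : 0 < u) (ht : l' + u ≤ t) : Wf u l' t = 0 := by
  unfold Wf
  rw [ang_one (x := (t - l') / u) ((one_le_div hu).2 (by linarith)), Real.cos_pi_div_two, mul_zero]

theorem Wf_supp {u l' t : ℝ} (hu : 0 < u) (h : Wf u l' t ≠ 0) : 0 < t ∧ t < l' + u := by
  constructor
  · by_contra h'
    exact h (Wf_zero_left hu (not_lt.1 h'))
  · by_contra h'
    exact h (Wf_zero_right hu (not_lt.1 h'))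

theorem bf_zero {u x : ℝ} (hu : 0 < u) (hx : u ≤ |x|) : bf u x = 0 := by
  unfold bf
  rcases le_abs.1 hx with h | h
  · rw [ang_one (x := x / u) ((one_le_div hu).2 h), Real.cos_pi_div_two, mul_zero]
  · rw [ang_nonpos (x := x / u + 1), Real.sin_zero, zero_mul]
    have : x / u ≤ -1 := by
      rw [div_le_iff₀ hu]
      linarith
    linarith

theorem bf_nonneg (u x : ℝ) : 0 ≤ bf u x := mul_nonneg (sin_ang_nonneg _) (cos_ang_nonneg _)

theorem bf_le_one (u x : ℝ) : bf u x ≤ 1 := by
  unfold bf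
  calc _ ≤ (1 : ℝ) * 1 := mul_le_mul (Real.sin_le_one _) (Real.cos_le_one _) (cos_ang_nonneg _)
        zero_le_one
    _ = 1 := by norm_num

theorem deriv_bf_zero {u x : ℝ} (hu : 0 < u) (hx : u ≤ |x|) : deriv (bf u) x = 0 := by
  have h0 := bf_zero hu hx
  refine IsLocalMin.deriv_eq_zero (Eventually.of_forall fun y => ?_)
  rw [h0]
  exact bf_nonneg u y

theorem bf_right {u t : ℝ} (hu : 0 < u) (ht : 0 ≤ t) : bf u t = Real.cos (ang (t / u)) := by
  unfold bf
  have : 0 ≤ t / u := div_nonneg ht hu.le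
  rw [ang_one (x := t / u + 1) (by linarith), Real.sin_pi_div_two, one_mul]

theorem bf_left {u t : ℝ} (hu : 0 < u) (ht : t ≤ u) : bf u (t - u) = Real.sin (ang (t / u)) := by
  unfold bf
  have h1 : (t - u) / u + 1 = t / u := by
    field_simp
    ring
  have h2 : (t - u) / u ≤ 0 := div_nonpos_of_nonpos_of_nonneg (by linarith) hu.le
  rw [h1, ang_nonpos h2, Real.cos_zero, mul_one]

/-- at most one bump is active. -/
theorem active_unique {J : ℕ} {u s : ℝ} (hJ : 0 < J) (h2 : 2 * u ≤ 1 / J) {i j : ℕ}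
    (hi : |s - i / J| < u) (hj : |s - j / J| < u) : i = j := by
  have hJ' : (0 : ℝ) < J := by exact_mod_cast hJ
  have h1 : |(i : ℝ) / J - j / J| < 1 / J := by
    have e : (i : ℝ) / J - j / J = (s - j / J) - (s - i / J) := by ring
    rw [e]
    calc _ ≤ |s - j / J| + |s - i / J| := abs_sub _ _
      _ < u + u := add_lt_add hj hi
      _ ≤ _ := by linarith
  rw [← sub_div, abs_div, abs_of_pos hJ', div_lt_div_iff_of_pos_right hJ'] at h1
  have h3 : |((i : ℤ) - (j : ℤ) : ℤ)| < 1 := by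
    have : ((|((i : ℤ) - (j : ℤ) : ℤ)| : ℤ) : ℝ) < 1 := by
      push_cast
      exact h1
    exact_mod_cast this
  have h4 := Int.abs_lt_one_iff.1 h3
  omega

/-- either no bump is active or exactly one. -/
theorem active_cases {J : ℕ} {u : ℝ} (hJ : 0 < J) (h2 : 2 * u ≤ 1 / J) (s : ℝ) :
    (∀ i ∈ Finset.range (J + 1), u ≤ |s - (i : ℝ) / J|) ∨
    ∃ i ∈ Finset.range (J + 1), ∀ j ∈ Finset.range (J + 1), j ≠ i → u ≤ |s - (j : ℝ) / J| := by
  by_cases h : ∀ i ∈ Finset.range (J + 1), u ≤ |s - (i : ℝ) / J|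
  · exact Or.inl h
  · push Not at h
    obtain ⟨i, hi, hi'⟩ := h
    refine Or.inr ⟨i, hi, fun j _ hji => ?_⟩
    by_contra h'
    exact hji (active_unique hJ h2 (not_le.1 h') hi')

theorem deriv_Bf (J : ℕ) (u s : ℝ) :
    deriv (Bf J u) s = ∑ i ∈ Finset.range (J + 1), (-1 : ℝ) ^ i * deriv (bf u) (s - i / J) := by
  have h : HasDerivAt (Bf J u)
      (∑ i ∈ Finset.range (J + 1), (-1 : ℝ) ^ i * deriv (bf u) (s - i / J)) s := by
    unfold Bf
    refine HasDerivAt.fun_sum fun i _ => ?_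
    refine HasDerivAt.const_mul _ ?_
    have h1 : HasDerivAt (bf u) (deriv (bf u) (s - i / J)) (s - i / J) :=
      ((bf_smooth u).differentiable (by simp) _).hasDerivAt
    exact h1.comp_sub_const s (i / J)
  exact h.deriv

theorem Bf_le {J : ℕ} {u : ℝ} (hJ : 0 < J) (hu : 0 < u) (h2 : 2 * u ≤ 1 / J) (s : ℝ) :
    |Bf J u s| ≤ 1 := by
  unfold Bf
  rcases active_cases hJ h2 s with h | ⟨i, hi, h⟩
  · rw [Finset.sum_eq_zero fun i hi => by rw [bf_zero hu (h i hi), mul_zero]]
    simp
  · rw [Finset.sum_eq_single_of_mem i hi fun j hj hji => by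
      rw [bf_zero hu (h j hj hji), mul_zero], abs_mul, abs_pow, abs_neg, abs_one, one_pow, one_mul,
      abs_of_nonneg (bf_nonneg _ _)]
    exact bf_le_one _ _

theorem Bf_active {J : ℕ} {u s : ℝ} (hu : 0 < u) (h : Bf J u s ≠ 0) :
    ∃ i : ℕ, i ≤ J ∧ |s - i / J| < u := by
  by_contra h'
  push Not at h'
  apply h
  unfold Bf
  refine Finset.sum_eq_zero fun i hi => ?_
  rw [bf_zero hu (h' i (by rw [Finset.mem_range] at hi; omega)), mul_zero]

/-- the derivative of `ang` is bounded. -/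
theorem ang_deriv_bound : ∃ C : ℝ, 0 < C ∧ ∀ x, |deriv ang x| ≤ C := by
  have hc : Continuous (deriv ang) := ang_smooth.continuous_deriv (by simp)
  obtain ⟨M, hM⟩ := (isCompact_Icc (a := (0 : ℝ)) (b := 1)).exists_bound_of_continuousOn
    hc.continuousOn
  refine ⟨max M 1, by positivity, fun x => ?_⟩
  by_cases hx : x ∈ Icc (0 : ℝ) 1
  · exact (hM x hx).trans (le_max_left _ _)
  · have h0 : deriv ang x = 0 := by
      rw [mem_Icc, not_and_or, not_le, not_le] at hx
      rcases hx with hx | hx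
      · refine IsLocalMin.deriv_eq_zero (Eventually.of_forall fun y => ?_)
        rw [ang_nonpos hx.le]
        exact ang_nonneg y
      · refine IsLocalMax.deriv_eq_zero (Eventually.of_forall fun y => ?_)
        rw [ang_one hx.le]
        exact ang_le y
    rw [h0, abs_zero]
    positivity

theorem deriv_bounds : ∃ C : ℝ, 0 < C ∧ ∀ u l' t : ℝ, 0 < u →
    |deriv (Wf u l') t| ≤ C / u ∧ |deriv (bf u) t| ≤ C / u := by
  obtain ⟨C, hC, h⟩ := ang_deriv_bound
  refine ⟨2 * C, by positivity, fun u l' t hu => ?_⟩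
  -- the derivative of `ang ((t - a)/u)`
  have hA : ∀ a : ℝ, HasDerivAt (fun t : ℝ => ang ((t - a) / u)) (deriv ang ((t - a) / u) / u) t := by
    intro a
    have h1 : HasDerivAt ang (deriv ang ((t - a) / u)) ((t - a) / u) :=
      (ang_smooth.differentiable (by simp) _).hasDerivAt
    have h2 : HasDerivAt (fun t : ℝ => (t - a) / u) (1 / u) t :=
      ((hasDerivAt_id t).sub_const a).div_const u
    have h3 := h1.comp t h2
    rw [mul_one_div] at h3
    exact h3
  have hgen : ∀ a b : ℝ, |deriv (fun t => Real.sin (ang ((t - a) / u)) *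
      Real.cos (ang ((t - b) / u))) t| ≤ 2 * C / u := by
    intro a b
    have h1 := ((hA a).sin).mul ((hA b).cos)
    have h2 : deriv (fun t => Real.sin (ang ((t - a) / u)) *
      Real.cos (ang ((t - b) / u))) t = _ := h1.deriv
    rw [h2]
    have k1 : |deriv ang ((t - a) / u) / u| ≤ C / u := by
      rw [abs_div, abs_of_pos hu]
      exact div_le_div_of_nonneg_right (h _) hu.le
    have k2 : |deriv ang ((t - b) / u) / u| ≤ C / u := by
      rw [abs_div, abs_of_pos hu]
      exact div_le_div_of_nonneg_right (h _) hu.le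
    have hCu : 0 ≤ C / u := by positivity
    calc _ ≤ |Real.cos (ang ((t - a) / u)) * (deriv ang ((t - a) / u) / u) *
            Real.cos (ang ((t - b) / u))| + |Real.sin (ang ((t - a) / u)) *
            (-Real.sin (ang ((t - b) / u)) * (deriv ang ((t - b) / u) / u))| := abs_add_le _ _
      _ ≤ 1 * (C / u) * 1 + 1 * (1 * (C / u)) := by
          simp only [abs_mul, abs_neg]
          gcongr
          · exact Real.abs_cos_le_one _
          · exact Real.abs_cos_le_one _
          · exact Real.abs_sin_le_one _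
          · exact Real.abs_sin_le_one _
      _ = 2 * C / u := by ring
  constructor
  · have e : Wf u l' = fun t => Real.sin (ang ((t - 0) / u)) * Real.cos (ang ((t - l') / u)) := by
      funext t
      simp only [Wf, sub_zero]
    rw [e]
    exact hgen 0 l'
  · have e : bf u = fun t => Real.sin (ang ((t - (-u)) / u)) * Real.cos (ang ((t - 0) / u)) := by
      funext t
      have : (t - (-u)) / u = t / u + 1 := by
        field_simp
        ring
      simp only [bf, sub_zero, this]
    rw [e]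
    exact hgen (-u) 0

theorem bounds : ∃ C : ℝ, 0 < C ∧ ∀ (J : ℕ) (u l' t : ℝ), 0 < J → 0 < u → 2 * u ≤ 1 / J →
    |Wf u l' t| ≤ 1 ∧ |Bf J u t| ≤ 1 ∧ |deriv (Wf u l') t| ≤ C / u ∧
      |deriv (Bf J u) t| ≤ C / u := by
  obtain ⟨C, hC, h⟩ := deriv_bounds
  refine ⟨C, hC, fun J u l' t hJ hu h2 => ⟨?_, Bf_le hJ hu h2 t, (h u l' t hu).1, ?_⟩⟩
  · unfold Wf
    rw [abs_mul]
    calc _ ≤ (1 : ℝ) * 1 := mul_le_mul (Real.abs_sin_le_one _) (Real.abs_cos_le_one _)
          (abs_nonneg _) zero_le_one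
      _ = 1 := by norm_num
  · rw [deriv_Bf]
    rcases active_cases hJ h2 t with h' | ⟨i, hi, h'⟩
    · rw [Finset.sum_eq_zero fun i hi => by rw [deriv_bf_zero hu (h' i hi), mul_zero], abs_zero]
      positivity
    · rw [Finset.sum_eq_single_of_mem i hi fun j hj hji => by
        rw [deriv_bf_zero hu (h' j hj hji), mul_zero], abs_mul, abs_pow, abs_neg, abs_one, one_pow,
        one_mul]
      exact (h u l' _ hu).2

/-! ### the functions are window times a phase, and their derivatives -/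

theorem hasDerivAt_phase (c d s : ℝ) :
    HasDerivAt (fun s : ℝ => Complex.exp ((c * (s + d) : ℝ) * Complex.I))
      (((c : ℝ) : ℂ) * Complex.I * Complex.exp ((c * (s + d) : ℝ) * Complex.I)) s := by
  have h1 : HasDerivAt (fun s : ℝ => c * (s + d)) c s := by
    have := ((hasDerivAt_id s).add_const d).const_mul c
    simpa using this
  have h2 : HasDerivAt (fun s : ℝ => ((c * (s + d) : ℝ) : ℂ) * Complex.I) ((c : ℂ) * Complex.I) s :=
    (h1.ofReal_comp).mul_const _
  have h3 := h2.cexp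
  refine h3.congr_deriv ?_
  ring

theorem bulk_deriv (J : ℕ) (u : ℝ) (i : ℕ) (k : ℤ) (s : ℝ) : ∃ z : ℂ, ‖z‖ = 1 ∧
      bulk J u i k s = (Wf u (1 / J - u) (s - i / J) : ℂ) * z / ((Real.sqrt (1 / J - u) : ℝ) : ℂ) ∧
      HasDerivAt (bulk J u i k)
        ((((deriv (Wf u (1 / J - u)) (s - i / J) : ℝ) : ℂ) + (2 * Real.pi * k / (1 / J - u) *
          Wf u (1 / J - u) (s - i / J) : ℝ) * Complex.I) * z /
            ((Real.sqrt (1 / J - u) : ℝ) : ℂ)) s := by
  refine ⟨Complex.exp ((2 * Real.pi * k / (1 / J - u) * (s - i / J) : ℝ) * Complex.I),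
    Complex.norm_exp_ofReal_mul_I _, rfl, ?_⟩
  have h1 : HasDerivAt (fun s : ℝ => ((Wf u (1 / J - u) (s - i / J) : ℝ) : ℂ))
      ((deriv (Wf u (1 / J - u)) (s - i / J) : ℝ) : ℂ) s := by
    have h0 : HasDerivAt (Wf u (1 / J - u)) (deriv (Wf u (1 / J - u)) (s - i / J)) (s - i / J) :=
      ((Wf_smooth u _).differentiable (by simp) _).hasDerivAt
    exact (h0.comp_sub_const s (i / J)).ofReal_comp
  have h2 := hasDerivAt_phase (2 * Real.pi * k / (1 / J - u)) (-(i / J)) s
  simp only [← sub_eq_add_neg] at h2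
  have h3 := (h1.mul h2).div_const ((Real.sqrt (1 / J - u) : ℝ) : ℂ)
  refine h3.congr_deriv ?_
  push_cast
  ring

theorem skel_deriv {J : ℕ} {u : ℝ} (hJ : 0 < J) (hu : 0 < u) (h2 : 2 * u ≤ 1 / J) (m : ℤ) (s : ℝ) :
    ∃ z : ℂ, ‖z‖ = 1 ∧
      skel J u m s = (Bf J u s : ℂ) * z / ((Real.sqrt (J * u) : ℝ) : ℂ) ∧
      HasDerivAt (skel J u m)
        ((((deriv (Bf J u) s : ℝ) : ℂ) + (2 * Real.pi * m / (J * u) * Bf J u s : ℝ) * Complex.I) * z /
          ((Real.sqrt (J * u) : ℝ) : ℂ)) s := by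
  -- general derivative
  have hd : HasDerivAt (skel J u m)
      ((∑ i ∈ Finset.range (J + 1), ((((-1 : ℝ) ^ i * deriv (bf u) (s - i / J) : ℝ) : ℂ) +
        (((2 * Real.pi * m / (J * u) : ℝ) : ℂ) * (((-1 : ℝ) ^ i * bf u (s - i / J) : ℝ) : ℂ)) *
          Complex.I) *
        Complex.exp ((2 * Real.pi * m / (J * u) * (i * u + (s - i / J)) : ℝ) * Complex.I)) /
          ((Real.sqrt (J * u) : ℝ) : ℂ)) s := by
    unfold skel
    refine HasDerivAt.div_const (HasDerivAt.fun_sum fun i _ => ?_) _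
    have h1 : HasDerivAt (fun s : ℝ => (((-1 : ℝ) ^ i * bf u (s - i / J) : ℝ) : ℂ))
        (((-1 : ℝ) ^ i * deriv (bf u) (s - i / J) : ℝ) : ℂ) s := by
      have h0 : HasDerivAt (bf u) (deriv (bf u) (s - i / J)) (s - i / J) :=
        ((bf_smooth u).differentiable (by simp) _).hasDerivAt
      exact ((h0.comp_sub_const s (i / J)).const_mul _).ofReal_comp
    have h3 := hasDerivAt_phase (2 * Real.pi * m / (J * u)) (i * u - i / J) s
    have e : (fun s : ℝ => Complex.exp ((2 * Real.pi * m / (J * u) * (i * u + (s - i / J)) : ℝ) *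
        Complex.I)) = fun s : ℝ => Complex.exp ((2 * Real.pi * m / (J * u) *
          (s + (i * u - i / J)) : ℝ) * Complex.I) := by
      funext s
      congr 3
      ring
    have h4 : HasDerivAt (fun s : ℝ => Complex.exp ((2 * Real.pi * m / (J * u) *
        (i * u + (s - i / J)) : ℝ) * Complex.I))
        (((2 * Real.pi * m / (J * u) : ℝ) : ℂ) * Complex.I *
          Complex.exp ((2 * Real.pi * m / (J * u) * (i * u + (s - i / J)) : ℝ) * Complex.I)) s := by
      rw [e]
      refine h3.congr_deriv ?_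
      congr 4
      ring
    refine (h1.mul h4).congr_deriv ?_
    ring
  rcases active_cases hJ h2 s with h | ⟨i, hi, h⟩
  · refine ⟨1, norm_one, ?_, ?_⟩
    · have hB : Bf J u s = 0 := by
        unfold Bf
        exact Finset.sum_eq_zero fun i hi => by rw [bf_zero hu (h i hi), mul_zero]
      rw [hB]
      unfold skel
      rw [Finset.sum_eq_zero fun i hi => by rw [bf_zero hu (h i hi), mul_zero]; simp]
      simp
    · have hB : Bf J u s = 0 := by
        unfold Bf
        exact Finset.sum_eq_zero fun i hi => by rw [bf_zero hu (h i hi), mul_zero]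
      have hB' : deriv (Bf J u) s = 0 := by
        rw [deriv_Bf]
        exact Finset.sum_eq_zero fun i hi => by rw [deriv_bf_zero hu (h i hi), mul_zero]
      refine hd.congr_deriv ?_
      rw [Finset.sum_eq_zero fun i hi => by
        rw [bf_zero hu (h i hi), deriv_bf_zero hu (h i hi), mul_zero]; simp, hB, hB']
      simp
  · refine ⟨Complex.exp ((2 * Real.pi * m / (J * u) * (i * u + (s - i / J)) : ℝ) * Complex.I),
      Complex.norm_exp_ofReal_mul_I _, ?_, ?_⟩
    · have hB : Bf J u s = (-1 : ℝ) ^ i * bf u (s - i / J) := by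
        unfold Bf
        exact Finset.sum_eq_single_of_mem i hi fun j hj hji => by
          rw [bf_zero hu (h j hj hji), mul_zero]
      rw [hB]
      unfold skel
      rw [Finset.sum_eq_single_of_mem i hi fun j hj hji => by
        rw [bf_zero hu (h j hj hji), mul_zero]; simp]
    · have hB : Bf J u s = (-1 : ℝ) ^ i * bf u (s - i / J) := by
        unfold Bf
        exact Finset.sum_eq_single_of_mem i hi fun j hj hji => by
          rw [bf_zero hu (h j hj hji), mul_zero]
      have hB' : deriv (Bf J u) s = (-1 : ℝ) ^ i * deriv (bf u) (s - i / J) := by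
        rw [deriv_Bf]
        exact Finset.sum_eq_single_of_mem i hi fun j hj hji => by
          rw [deriv_bf_zero hu (h j hj hji), mul_zero]
      refine hd.congr_deriv ?_
      rw [Finset.sum_eq_single_of_mem i hi fun j hj hji => by
        rw [bf_zero hu (h j hj hji), deriv_bf_zero hu (h j hj hji), mul_zero]; simp, hB, hB']
      push_cast
      ring

end Pool.Agent.W741.MY
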