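import Pool.Agent.W784.PS.Defs
import Pool.Agent.Helper88.RB.P_param_C2

/-! Subtask PS-4: the logarithmic potential is `C²` and harmonic off the support. -/

set_option autoImplicit false
open MeasureTheory Set Filter Topology
open scoped ENNReal NNReal

namespace Pool.Agent.W741.PS

open Pool.Agent.Helper88.RB Pool.Agent.W784.PS

theorem LR_smooth {S : Set P2} (hS : IsCompact S) {μ : Measure P2} [IsFiniteMeasure μ]
    (hμ : μ Sᶜ = 0) (x : P2) (hx : x ∉ S) (e : P2) :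
    ContDiffAt ℝ 2 (fun ε : ℝ => LR μ (x + ε • e)) 0 ∧
    deriv (deriv (fun ε : ℝ => LR μ (x + ε • e))) 0 =
      ∫ w, (-(‖e‖ ^ 2) / ‖x - w‖ ^ 2 + 2 * (inner ℝ (x - w) e) ^ 2 / (‖x - w‖ ^ 2) ^ 2) ∂μ := by
  obtain ⟨ρ, hρ⟩ : ∃ ρ : ℝ → P2 → ℝ, ∀ ε w, ρ ε w = ‖x + ε • e - w‖ ^ 2 :=
    ⟨_, fun _ _ => rfl⟩
  obtain ⟨A, hA⟩ : ∃ A : ℝ → P2 → ℝ, ∀ ε w, A ε w = inner ℝ (x + ε • e - w) e :=
    ⟨_, fun _ _ => rfl⟩
  obtain ⟨k0, hk0⟩ : ∃ k0 : ℝ → P2 → ℝ, ∀ ε w, k0 ε w = -(1 / 2) * Real.log (ρ ε w) :=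
    ⟨_, fun _ _ => rfl⟩
  obtain ⟨k1, hk1⟩ : ∃ k1 : ℝ → P2 → ℝ, ∀ ε w, k1 ε w = - A ε w / ρ ε w :=
    ⟨_, fun _ _ => rfl⟩
  obtain ⟨k2, hk2⟩ : ∃ k2 : ℝ → P2 → ℝ, ∀ ε w, k2 ε w =
      -(‖e‖ ^ 2) / ρ ε w + 2 * (A ε w) ^ 2 / (ρ ε w) ^ 2 :=
    ⟨_, fun _ _ => rfl⟩
  have fk0 : k0 = fun ε w => -(1 / 2) * Real.log (ρ ε w) :=
    funext fun ε => funext fun w => hk0 ε w
  have fk1 : k1 = fun ε w => - A ε w / ρ ε w :=
    funext fun ε => funext fun w => hk1 ε w
  have fk2 : k2 = fun ε w => -(‖e‖ ^ 2) / ρ ε w + 2 * (A ε w) ^ 2 / (ρ ε w) ^ 2 :=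
    funext fun ε => funext fun w => hk2 ε w
  have hρc : Continuous (fun p : ℝ × P2 => ρ p.1 p.2) := by
    simp only [hρ]
    fun_prop
  have hAc : Continuous (fun p : ℝ × P2 => A p.1 p.2) := by
    simp only [hA]
    fun_prop
  have hpos0 : ∀ w ∈ S, 0 < ρ 0 w := by
    intro w hw
    simp only [hρ, zero_smul, add_zero]
    have : x - w ≠ 0 := by
      intro h
      rw [sub_eq_zero] at h
      exact hx (h ▸ hw)
    have h1 : 0 < ‖x - w‖ := norm_pos_iff.2 this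
    positivity
  obtain ⟨r, hr, hrpos⟩ : ∃ r : ℝ, 0 < r ∧ ∀ ε, |ε| ≤ r → ∀ w ∈ S, 0 < ρ ε w := by
    have hopen : IsOpen {p : ℝ × P2 | 0 < ρ p.1 p.2} := isOpen_lt continuous_const hρc
    obtain ⟨u, v, hu, hv, h0u, hSv, huv⟩ := generalized_tube_lemma (isCompact_singleton (x := (0 : ℝ))) hS
      hopen (by
        rintro ⟨a, w⟩ ⟨ha, hw⟩
        simp only [mem_singleton_iff] at ha
        simp only [Set.mem_ofPred_eq]
        rw [ha]
        exact hpos0 w hw)
    have h0 : (0 : ℝ) ∈ u := h0u rfl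
    obtain ⟨r, hr, hru⟩ := Metric.isOpen_iff.1 hu 0 h0
    refine ⟨r / 2, by positivity, ?_⟩
    intro ε hε w hw
    have h1 : ε ∈ u := by
      apply hru
      rw [Metric.mem_ball, Real.dist_eq, sub_zero]
      linarith
    exact huv (Set.mk_mem_prod h1 (hSv hw))
  have hK : IsCompact (Set.Icc (-r) r ×ˢ S) := isCompact_Icc.prod hS
  have hKpos : ∀ p ∈ Set.Icc (-r) r ×ˢ S, 0 < ρ p.1 p.2 := by
    rintro ⟨a, w⟩ ⟨ha, hw⟩
    exact hrpos a (abs_le.2 ha) w hw
  have c0 : ContinuousOn (fun q : ℝ × P2 => k0 q.1 q.2) (Set.Icc (-r) r ×ˢ S) := by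
    simp only [hk0]
    exact continuousOn_const.mul (hρc.continuousOn.log fun q hq => (hKpos q hq).ne')
  have c1 : ContinuousOn (fun q : ℝ × P2 => k1 q.1 q.2) (Set.Icc (-r) r ×ˢ S) := by
    simp only [hk1]
    exact hAc.neg.continuousOn.div hρc.continuousOn fun q hq => (hKpos q hq).ne'
  have c2' : ContinuousOn (fun q : ℝ × P2 => k2 q.1 q.2) (Set.Icc (-r) r ×ˢ S) := by
    simp only [hk2]
    exact (continuousOn_const.div hρc.continuousOn fun q hq => (hKpos q hq).ne').add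
      ((continuousOn_const.mul (hAc.continuousOn.pow 2)).div (hρc.continuousOn.pow 2)
        fun q hq => (pow_pos (hKpos q hq) 2).ne')
  obtain ⟨M0, hM0⟩ := hK.exists_bound_of_continuousOn c0
  obtain ⟨M1, hM1⟩ := hK.exists_bound_of_continuousOn c1
  obtain ⟨M2, hM2⟩ := hK.exists_bound_of_continuousOn c2'
  have hae : ∀ᵐ w ∂μ, w ∈ S := by
    rw [ae_iff]
    exact hμ
  have hρm : ∀ ε, Measurable (ρ ε) := by
    intro ε
    have : Continuous (ρ ε) := hρc.comp (by fun_prop : Continuous (fun w : P2 => (ε, w)))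
    exact this.measurable
  have hAm : ∀ ε, Measurable (A ε) := by
    intro ε
    have : Continuous (A ε) := hAc.comp (by fun_prop : Continuous (fun w : P2 => (ε, w)))
    exact this.measurable
  have hlin : ∀ w : P2, ∀ ε : ℝ, HasDerivAt (fun ε : ℝ => x + ε • e - w) e ε := by
    intro w ε
    have h1 : HasDerivAt (fun ε : ℝ => ε • e) ((1 : ℝ) • e) ε := (hasDerivAt_id ε).smul_const e
    rw [one_smul] at h1
    exact (h1.const_add x).sub_const w
  have hρd : ∀ w : P2, ∀ ε : ℝ, HasDerivAt (fun ε => ρ ε w) (2 * A ε w) ε := by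
    intro w ε
    have h1 := (hlin w ε).norm_sq
    have e1 : (fun ε => ρ ε w) = fun ε => ‖x + ε • e - w‖ ^ 2 :=
      funext fun ε => hρ ε w
    rw [e1, hA]
    exact h1
  have hAd : ∀ w : P2, ∀ ε : ℝ, HasDerivAt (fun ε => A ε w) (‖e‖ ^ 2) ε := by
    intro w ε
    have h1 := (hlin w ε).inner ℝ (hasDerivAt_const ε e)
    have e1 : (fun ε => A ε w) = fun ε => inner ℝ (x + ε • e - w) e :=
      funext fun ε => hA ε w
    rw [e1]
    refine h1.congr_deriv ?_
    rw [inner_zero_right, real_inner_self_eq_norm_sq]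
    ring
  have m0 : ∀ ε, |ε| < r → AEStronglyMeasurable (k0 ε) μ := by
    intro ε _
    rw [fk0]
    exact ((hρm ε).log.const_mul _).aestronglyMeasurable
  have m1 : ∀ ε, |ε| < r → AEStronglyMeasurable (k1 ε) μ := by
    intro ε _
    rw [fk1]
    exact ((hAm ε).neg.div (hρm ε)).aestronglyMeasurable
  have m2 : ∀ ε, |ε| < r → AEStronglyMeasurable (k2 ε) μ := by
    intro ε _
    rw [fk2]
    exact ((measurable_const.div (hρm ε)).add
      ((((hAm ε).pow_const 2).const_mul _).div ((hρm ε).pow_const 2))).aestronglyMeasurable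
  have d0 : ∀ᵐ w ∂μ, ∀ ε, |ε| < r → HasDerivAt (fun ε => k0 ε w) (k1 ε w) ε := by
    filter_upwards [hae] with w hw
    intro ε hε
    have hp := hrpos ε hε.le w hw
    have h1 := ((hρd w ε).log hp.ne').const_mul (-(1 / 2 : ℝ))
    have e1 : (fun ε => k0 ε w) = fun ε => -(1 / 2) * Real.log (ρ ε w) :=
      funext fun ε => hk0 ε w
    rw [e1, hk1]
    refine h1.congr_deriv ?_
    field_simp
  have d1 : ∀ᵐ w ∂μ, ∀ ε, |ε| < r → HasDerivAt (fun ε => k1 ε w) (k2 ε w) ε := by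
    filter_upwards [hae] with w hw
    intro ε hε
    have hp := hrpos ε hε.le w hw
    have h2 := (hAd w ε).neg.div (hρd w ε) hp.ne'
    have e1 : (fun ε => k1 ε w) = fun ε => - A ε w / ρ ε w :=
      funext fun ε => hk1 ε w
    rw [e1, hk2]
    refine h2.congr_deriv ?_
    simp only [Pi.neg_apply]
    field_simp
    ring
  have c2 : ∀ᵐ w ∂μ, ∀ ε, |ε| < r → ContinuousAt (fun ε => k2 ε w) ε := by
    filter_upwards [hae] with w hw
    intro ε hε
    have hp := hrpos ε hε.le w hw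
    have d1 := (hρd w ε).continuousAt
    have d3 := (hAd w ε).continuousAt
    simp only [hk2]
    exact (continuousAt_const.div d1 hp.ne').add
      ((continuousAt_const.mul (d3.pow 2)).div (d1.pow 2) (pow_pos hp 2).ne')
  have bd : ∀ᵐ w ∂μ, ∀ ε, |ε| < r → |k0 ε w| ≤ max M0 (max M1 M2) ∧
      |k1 ε w| ≤ max M0 (max M1 M2) ∧ |k2 ε w| ≤ max M0 (max M1 M2) := by
    filter_upwards [hae] with w hw
    intro ε hε
    have hmem : (ε, w) ∈ Set.Icc (-r) r ×ˢ S := ⟨abs_le.1 hε.le, hw⟩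
    have b0 := hM0 _ hmem
    have b1 := hM1 _ hmem
    have b2 := hM2 _ hmem
    rw [Real.norm_eq_abs] at b0 b1 b2
    exact ⟨b0.trans (le_max_left _ _), b1.trans ((le_max_left _ _).trans (le_max_right _ _)),
      b2.trans ((le_max_right _ _).trans (le_max_right _ _))⟩
  have main := param_C2 hr m0 m1 m2 d0 d1 c2 bd
  have hU : (fun ε : ℝ => LR μ (x + ε • e)) = fun ε => ∫ w, k0 ε w ∂μ := by
    funext ε
    unfold LR
    simp only [hk0, hρ]
  rw [hU]
  refine ⟨main.1, ?_⟩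
  rw [main.2.2]
  simp only [hk2, hA, hρ, zero_smul, add_zero]

theorem LR_lap {S : Set P2} (hS : IsCompact S) {μ : Measure P2} [IsFiniteMeasure μ]
    (hμ : μ Sᶜ = 0) (x : P2) (hx : x ∉ S) :
    ∑ j : Fin 2, deriv (deriv (fun ε : ℝ => LR μ (x + ε • EuclideanSpace.single j (1 : ℝ)))) 0
      = 0 := by
  have hρpos : ∀ w ∈ S, 0 < ‖x - w‖ ^ 2 := by
    intro w hw
    have : x - w ≠ 0 := fun h => hx (by rw [sub_eq_zero.1 h]; exact hw)
    have := norm_pos_iff.2 this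
    positivity
  have hae : ∀ᵐ w ∂μ, w ∈ S := by
    rw [ae_iff]; exact hμ
  have hres : μ.restrict S = μ := Measure.restrict_eq_self_of_ae_mem hae
  have hρc : Continuous (fun w : P2 => ‖x - w‖ ^ 2) := by fun_prop
  have hint : ∀ f : P2 → ℝ, ContinuousOn f S → Integrable f μ := by
    intro f hf
    have := hf.integrableOn_compact (μ := μ) hS
    rwa [IntegrableOn, hres] at this
  have hj := fun j : Fin 2 => (LR_smooth hS hμ x hx (EuclideanSpace.single j (1 : ℝ))).2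
  simp only [EuclideanSpace.norm_single, norm_one, one_pow,
    EuclideanSpace.inner_single_right, one_mul, conj_trivial] at hj
  rw [Finset.sum_congr rfl fun j _ => hj j]
  have hc2 : ∀ j : Fin 2, Continuous fun w : P2 => (x - w).ofLp j := by
    intro j
    fun_prop
  have hFj : ∀ j : Fin 2, Integrable (fun w : P2 =>
      -1 / ‖x - w‖ ^ 2 + 2 * (x - w).ofLp j ^ 2 / (‖x - w‖ ^ 2) ^ 2) μ := by
    intro j
    refine hint _ ?_
    exact (continuousOn_const.div hρc.continuousOn fun w hw => (hρpos w hw).ne').add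
      ((continuousOn_const.mul ((hc2 j).continuousOn.pow 2)).div (hρc.continuousOn.pow 2)
        fun w hw => (pow_pos (hρpos w hw) 2).ne')
  rw [← integral_finsetSum _ (fun j _ => hFj j)]
  have h0 : ∀ᵐ w ∂μ, ∑ j : Fin 2,
      (-1 / ‖x - w‖ ^ 2 + 2 * (x - w).ofLp j ^ 2 / (‖x - w‖ ^ 2) ^ 2) = 0 := by
    filter_upwards [hae] with w hw
    have hρ := hρpos w hw
    have e2 : ‖x - w‖ ^ 2 = (x - w).ofLp 0 ^ 2 + (x - w).ofLp 1 ^ 2 := by
      rw [EuclideanSpace.norm_sq_eq]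
      simp
    rw [Fin.sum_univ_two]
    obtain ⟨ρ, hρd⟩ : ∃ ρ, ρ = ‖x - w‖ ^ 2 := ⟨_, rfl⟩
    rw [← hρd] at hρ e2 ⊢
    have e3 : (x - w).ofLp 1 ^ 2 = ρ - (x - w).ofLp 0 ^ 2 := by rw [e2]; ring
    rw [e3]
    field_simp
    ring
  rw [integral_congr_ae h0, integral_zero]

theorem LR_cont {S : Set P2} (hS : IsCompact S) {μ : Measure P2} [IsFiniteMeasure μ]
    (hμ : μ Sᶜ = 0) : ContinuousOn (LR μ) Sᶜ := by
  intro x hx
  refine ContinuousAt.continuousWithinAt ?_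
  have hae : ∀ᵐ w ∂μ, w ∈ S := by
    rw [ae_iff]; exact hμ
  -- a compact neighbourhood of `x` off `S`
  have hopen : IsOpen Sᶜ := hS.isClosed.isOpen_compl
  obtain ⟨r, hr, hrS⟩ := Metric.nhds_basis_closedBall.mem_iff.1 (hopen.mem_nhds hx)
  have hK : IsCompact (Metric.closedBall x r ×ˢ S) := (isCompact_closedBall x r).prod hS
  have hKpos : ∀ p ∈ Metric.closedBall x r ×ˢ S, 0 < ‖p.1 - p.2‖ ^ 2 := by
    rintro ⟨a, w⟩ ⟨ha, hw⟩
    have : a - w ≠ 0 := by
      intro h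
      rw [sub_eq_zero] at h
      simp only at ha hw
      exact hrS ha (h ▸ hw)
    have h1 : 0 < ‖a - w‖ := norm_pos_iff.2 this
    simp only
    positivity
  have hc : ContinuousOn (fun p : P2 × P2 => -(1 / 2) * Real.log (‖p.1 - p.2‖ ^ 2))
      (Metric.closedBall x r ×ˢ S) := by
    refine continuousOn_const.mul (ContinuousOn.log ?_ fun q hq => (hKpos q hq).ne')
    fun_prop
  obtain ⟨M, hM⟩ := hK.exists_bound_of_continuousOn hc
  have hmem : Metric.closedBall x r ∈ 𝓝 x := Metric.closedBall_mem_nhds x hr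
  unfold LR
  refine continuousAt_of_dominated (bound := fun _ => M) ?_ ?_ (integrable_const M) ?_
  · refine Eventually.of_forall fun a => ?_
    have : Measurable (fun w : P2 => ‖a - w‖ ^ 2) := by fun_prop
    exact (this.log.const_mul _).aestronglyMeasurable
  · filter_upwards [hmem] with a ha
    filter_upwards [hae] with w hw
    exact hM (a, w) ⟨ha, hw⟩
  · filter_upwards [hae] with w hw
    have h1 := hKpos (x, w) ⟨Metric.mem_closedBall_self hr.le, hw⟩
    refine continuousAt_const.mul (ContinuousAt.log ?_ h1.ne')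
    fun_prop

end Pool.Agent.W741.PS
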