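import Pool.Agent.W741.SqGeo

/-! Primitive of a rapidly decaying holomorphic function by integration along vertical rays. -/

set_option autoImplicit false

namespace Pool.Agent.W741.Sq

open Complex MeasureTheory Filter Topology Set Bornology
open Pool.Agent.W759

/-- the primitive -/
noncomputable def prim (g : ℂ → ℂ) (z : ℂ) : ℂ := -I * ∫ t in Ioi (0 : ℝ), g (z + t * I)

section
variable {g : ℂ → ℂ} (hd : ∀ z ∈ Om1, DifferentiableAt ℂ g z) {K0 T0 : ℝ}
  (hdec : ∀ z : ℂ, T0 ≤ z.im → ‖g z‖ ≤ K0 * Real.exp (-z.im))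

theorem ray_cont {z : ℂ} (hz : z ∈ Om1) (hg : ∀ w ∈ Om1, ContinuousAt g w) :
    ContinuousOn (fun t : ℝ => g (z + t * I)) (Ici 0) := by
  intro t ht
  have h1 : ContinuousAt g (z + t * I) := hg _ (Om1_up hz ht)
  have h2 : ContinuousAt (fun t : ℝ => z + t * I) t := by fun_prop
  exact (ContinuousAt.comp (f := fun t : ℝ => z + t * I) h1 h2).continuousWithinAt

include hd hdec

theorem unif_bound {z0 : ℂ} (hz0 : z0 ∈ Om1) : ∃ ρ K : ℝ, 0 < ρ ∧ 0 ≤ K ∧
    ∀ w ∈ Metric.closedBall z0 ρ, ∀ t : ℝ, 0 ≤ t →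
      w + t * I ∈ Om1 ∧ ‖g (w + t * I)‖ ≤ K * Real.exp (-t) := by
  obtain ⟨ρ, hρ, hρ'⟩ := Metric.nhds_basis_closedBall.mem_iff.1 (isOpen_Om1.mem_nhds hz0)
  have hO : ∀ w ∈ Metric.closedBall z0 ρ, ∀ t : ℝ, 0 ≤ t → w + t * I ∈ Om1 := fun w hw t ht =>
    Om1_up (hρ' hw) ht
  set T := max T0 0 with hT
  have hK : IsCompact (Metric.closedBall z0 ρ ×ˢ Icc (0 : ℝ) T) :=
    (isCompact_closedBall z0 ρ).prod isCompact_Icc
  have hc : ContinuousOn (fun p : ℂ × ℝ => g (p.1 + p.2 * I))
      (Metric.closedBall z0 ρ ×ˢ Icc (0 : ℝ) T) := by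
    rintro ⟨w, t⟩ ⟨hw, ht⟩
    have h1 : ContinuousAt g (w + t * I) := (hd _ (hO w hw t ht.1)).continuousAt
    have h2 : ContinuousAt (fun p : ℂ × ℝ => p.1 + p.2 * I) (w, t) := by fun_prop
    exact (ContinuousAt.comp (f := fun p : ℂ × ℝ => p.1 + p.2 * I) h1 h2).continuousWithinAt
  obtain ⟨M, hM⟩ := hK.exists_bound_of_continuousOn hc
  refine ⟨ρ, max (|M| * Real.exp T) |K0|, hρ, le_trans (abs_nonneg _) (le_max_right _ _), fun w hw t ht => ⟨hO w hw t ht, ?_⟩⟩
  by_cases h : t ≤ T
  · have h1 := hM (w, t) ⟨hw, ht, h⟩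
    have h2 : (1 : ℝ) ≤ Real.exp T * Real.exp (-t) := by
      rw [← Real.exp_add]
      exact Real.one_le_exp (by linarith)
    calc ‖g (w + t * I)‖ ≤ M := h1
      _ ≤ |M| * 1 := by rw [mul_one]; exact le_abs_self M
      _ ≤ |M| * (Real.exp T * Real.exp (-t)) := by gcongr
      _ = (|M| * Real.exp T) * Real.exp (-t) := by ring
      _ ≤ _ := by gcongr; exact le_max_left _ _
  · push Not at h
    have hw0 := Om1_im (hρ' hw)
    have h1 := hdec (w + t * I) (by
      rw [add_I_im]
      have := le_max_left T0 0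
      linarith)
    rw [add_I_im] at h1
    calc ‖g (w + t * I)‖ ≤ K0 * Real.exp (-(w.im + t)) := h1
      _ ≤ |K0| * Real.exp (-(w.im + t)) := by gcongr; exact le_abs_self _
      _ ≤ |K0| * Real.exp (-t) := by gcongr; linarith
      _ ≤ _ := by gcongr; exact le_max_right _ _

theorem prim_deriv {z0 : ℂ} (hz0 : z0 ∈ Om1) : HasDerivAt (prim g) (g z0) z0 := by
  have hdo : DifferentiableOn ℂ g Om1 := fun z hz => (hd z hz).differentiableWithinAt
  have han : AnalyticOnNhd ℂ g Om1 := hdo.analyticOnNhd isOpen_Om1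
  have hcont : ∀ w ∈ Om1, ContinuousAt g w := fun w hw => (hd w hw).continuousAt
  have hcont' : ∀ w ∈ Om1, ContinuousAt (deriv g) w := fun w hw =>
    (han.deriv w hw).continuousAt
  obtain ⟨ρ, K, hρ, hK, hb⟩ := unif_bound hd hdec hz0
  have hint : IntegrableOn (fun t : ℝ => Real.exp (-t)) (Ioi 0) := integrableOn_exp_neg_Ioi 0
  have hball : Metric.ball z0 (ρ / 2) ∈ 𝓝 z0 := Metric.ball_mem_nhds _ (by positivity)
  have hmemO : ∀ z ∈ Metric.ball z0 (ρ / 2), z ∈ Metric.closedBall z0 ρ := by
    intro z hz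
    rw [Metric.mem_ball] at hz
    rw [Metric.mem_closedBall]
    linarith
  have hzO : ∀ z ∈ Metric.ball z0 (ρ / 2), z ∈ Om1 := by
    intro z hz
    have := (hb z (hmemO z hz) 0 le_rfl).1
    simpa using this
  -- Cauchy estimate
  have hder : ∀ z ∈ Metric.ball z0 (ρ / 2), ∀ t : ℝ, 0 ≤ t →
      ‖deriv g (z + t * I)‖ ≤ K * Real.exp (-t) / (ρ / 2) := by
    intro z hz t ht
    have hsub : ∀ w ∈ Metric.closedBall (z + t * I) (ρ / 2), ∃ w' ∈ Metric.closedBall z0 ρ,
        w = w' + t * I := by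
      intro w hw
      refine ⟨w - t * I, ?_, by ring⟩
      rw [Metric.mem_closedBall] at hw ⊢
      rw [Metric.mem_ball] at hz
      have h1 : dist (w - t * I) z ≤ ρ / 2 := by
        have : dist (w - t * I) z = dist w (z + t * I) := by
          rw [dist_eq_norm, dist_eq_norm]
          congr 1
          ring
        rw [this]
        exact hw
      calc dist (w - t * I) z0 ≤ dist (w - t * I) z + dist z z0 := dist_triangle _ _ _
        _ ≤ ρ / 2 + ρ / 2 := by linarith
        _ = ρ := by ring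
    refine norm_deriv_le_of_forall_mem_sphere_norm_le (by positivity) ?_ ?_
    · apply DifferentiableOn.diffContOnCl
      intro w hw
      obtain ⟨w', hw', rfl⟩ := hsub w (Metric.closure_ball_subset_closedBall hw)
      exact (hd _ (hb w' hw' t ht).1).differentiableWithinAt
    · intro w hw
      obtain ⟨w', hw', rfl⟩ := hsub w (Metric.sphere_subset_closedBall hw)
      exact (hb w' hw' t ht).2
  have hmeas : ∀ z ∈ Om1, AEStronglyMeasurable (fun t : ℝ => g (z + t * I))
      (volume.restrict (Ioi 0)) := fun z hz =>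
    ((ray_cont hz hcont).mono Ioi_subset_Ici_self).aestronglyMeasurable measurableSet_Ioi
  have hmeas' : AEStronglyMeasurable (fun t : ℝ => deriv g (z0 + t * I))
      (volume.restrict (Ioi 0)) :=
    ((ray_cont hz0 hcont').mono Ioi_subset_Ici_self).aestronglyMeasurable measurableSet_Ioi
  have h1 := hasDerivAt_integral_of_dominated_loc_of_deriv_le (μ := volume.restrict (Ioi (0 : ℝ)))
    (F := fun z t => g (z + (t : ℝ) * I)) (F' := fun z t => deriv g (z + (t : ℝ) * I))
    (bound := fun t => K * Real.exp (-t) / (ρ / 2)) hball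
    (by filter_upwards [hball] with z hz using hmeas z (hzO z hz))
    (by
      refine Integrable.mono' (hint.const_mul K) (hmeas z0 hz0) ?_
      rw [ae_restrict_iff' measurableSet_Ioi]
      refine Eventually.of_forall fun t ht => ?_
      exact (hb z0 (Metric.mem_closedBall_self hρ.le) t (le_of_lt ht)).2)
    hmeas'
    (by
      rw [ae_restrict_iff' measurableSet_Ioi]
      refine Eventually.of_forall fun t ht z hz => ?_
      exact hder z hz t (le_of_lt ht))
    ((hint.const_mul K).div_const _)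
    (by
      rw [ae_restrict_iff' measurableSet_Ioi]
      refine Eventually.of_forall fun t ht z hz => ?_
      have h2 : HasDerivAt g (deriv g (z + t * I)) (z + t * I) :=
        (hd _ (hb z (hmemO z hz) t (le_of_lt ht)).1).hasDerivAt
      exact h2.comp_add_const z (t * I))
  -- the value of the integral
  have h2 : ∫ t in Ioi (0 : ℝ), deriv g (z0 + t * I) = 0 - (-I * g (z0 + (0 : ℝ) * I)) := by
    refine integral_Ioi_of_hasDerivAt_of_tendsto' (f := fun t : ℝ => -I * g (z0 + t * I)) ?_ h1.1 ?_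
    · intro t ht
      have h3 : HasDerivAt g (deriv g (z0 + t * I)) (z0 + t * I) :=
        (hd _ (Om1_up hz0 ht)).hasDerivAt
      have h4 : HasDerivAt (fun t : ℝ => z0 + t * I) I t := by
        have := ((hasDerivAt_id t).ofReal_comp.mul_const I).const_add z0
        simpa using this
      have h5 : HasDerivAt (fun t : ℝ => g (z0 + t * I)) (deriv g (z0 + t * I) * I) t :=
        h3.comp t h4
      have h6 := h5.const_mul (-I)
      refine h6.congr_deriv ?_
      have : I * I = -1 := I_mul_I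
      linear_combination (-(deriv g (z0 + t * I))) * this
    · have h3 : Tendsto (fun t : ℝ => K * Real.exp (-t)) atTop (𝓝 0) := by
        have := (Real.tendsto_exp_neg_atTop_nhds_zero).const_mul K
        simpa using this
      refine squeeze_zero_norm' ?_ h3
      filter_upwards [eventually_ge_atTop 0] with t ht
      rw [norm_mul, norm_neg, norm_I, one_mul]
      exact (hb z0 (Metric.mem_closedBall_self hρ.le) t ht).2
  have h3 := h1.2.const_mul (-I)
  rw [h2] at h3
  have e : -I * (0 - (-I * g (z0 + (0 : ℝ) * I))) = g z0 := by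
    have : I * I = -1 := I_mul_I
    simp only [ofReal_zero, zero_mul, add_zero]
    linear_combination (-(g z0)) * this
  rw [e] at h3
  exact h3

end

end Pool.Agent.W741.Sq
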