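import Pool.Agent.W759.Stmts
import Pool.Agent.W741.SqMax
import Pool.Agent.W741.SqPrim

/-! There is no nonzero cusp form of weight 3/2 on the theta group (local form). -/

set_option autoImplicit false

namespace Pool.Agent.W741.Sq

open Complex MeasureTheory Filter Topology Set Bornology
open Pool.Agent.W759

/-! ### the theta function -/

theorem theta_S {z : ℂ} (hz : 0 < z.im) : jacobiTheta (-z⁻¹) = J z * jacobiTheta z := by
  have h := jacobiTheta_S_smul (⟨z, hz⟩ : UpperHalfPlane)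
  rw [UpperHalfPlane.modular_S_smul] at h
  have e : (((UpperHalfPlane.mk (-((⟨z, hz⟩ : UpperHalfPlane) : ℂ))⁻¹
      (UpperHalfPlane.im_inv_neg_coe_pos _)) : UpperHalfPlane) : ℂ) = -z⁻¹ := by
    show (-z)⁻¹ = -z⁻¹
    rw [inv_neg]
  rw [e] at h
  exact h

theorem theta_per (z : ℂ) : jacobiTheta (z + 2) = jacobiTheta z := by
  rw [add_comm, jacobiTheta_two_add]

theorem J_pow (z : ℂ) : J z ^ 4 = -z ^ 2 := by
  have h : J z ^ 2 = -I * z := by
    unfold J
    have := Complex.cpow_nat_inv_pow (-I * z) (n := 2) two_ne_zero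
    rw [← this]
    congr 2
    push_cast
    norm_num
  have e : J z ^ 4 = (J z ^ 2) ^ 2 := by ring
  rw [e, h, mul_pow, neg_sq, I_sq]
  ring

theorem theta_near_one {z : ℂ} (hz : 1 ≤ z.im) : ‖jacobiTheta z - 1‖ ≤ 2 / 3 := by
  have h := norm_jacobiTheta_sub_one_le (τ := z) (by linarith)
  have h1 : Real.exp (-Real.pi * z.im) ≤ 1 / 4 := by
    have h2 : (4 : ℝ) ≤ Real.exp (Real.pi * z.im) := by
      have h3 := Real.add_one_le_exp (Real.pi * z.im)
      have h4 := Real.pi_gt_three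
      nlinarith
    rw [neg_mul, Real.exp_neg, one_div]
    exact inv_anti₀ (by norm_num) h2
  refine h.trans ?_
  set a := Real.exp (-Real.pi * z.im)
  have ha : 0 < a := Real.exp_pos _
  rw [div_mul_eq_mul_div, div_le_iff₀ (by linarith)]
  linarith

theorem theta_ne_zero {z : ℂ} (hz : 1 ≤ z.im) : jacobiTheta z ≠ 0 := by
  intro h
  have := theta_near_one hz
  rw [h] at this
  norm_num at this

theorem theta_bdd {z : ℂ} (hz : 1 ≤ z.im) : ‖jacobiTheta z‖ ≤ 2 := by
  have h := theta_near_one hz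
  calc ‖jacobiTheta z‖ = ‖(jacobiTheta z - 1) + 1‖ := by rw [sub_add_cancel]
    _ ≤ ‖jacobiTheta z - 1‖ + ‖(1 : ℂ)‖ := norm_add_le _ _
    _ ≤ 2 / 3 + 1 := by
        rw [norm_one]
        linarith
    _ ≤ 2 := by norm_num

/-! ### exponential decay at the cusp `i∞` -/

theorem decay_inf (g : ℂ → ℂ) (hd : ∀ z ∈ Om1, DifferentiableAt ℂ g z)
    (hper : ∀ z ∈ Om, g (z + 2) = g z)
    (h0 : ∀ δ > 0, ∃ T : ℝ, ∀ z : ℂ, T ≤ z.im → ‖g z‖ ≤ δ) :
    ∃ K0 T0 : ℝ, ∀ z : ℂ, T0 ≤ z.im → ‖g z‖ ≤ K0 * Real.exp (-z.im) := by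
  classical
  let Q : ℂ → ℂ := fun z => if 1 < z.im then g z else 0
  have hQ : Function.Periodic Q ((2 : ℝ) : ℂ) := by
    intro w
    simp only [Q]
    by_cases hw : 1 < w.im
    · have hw' : 1 < (w + ((2 : ℝ) : ℂ)).im := by simpa using hw
      rw [if_pos hw, if_pos hw']
      have := hper w (high_Om hw)
      push_cast
      exact this
    · have hw' : ¬ 1 < (w + ((2 : ℝ) : ℂ)).im := by simpa using hw
      rw [if_neg hw, if_neg hw']
  have hev : ∀ T : ℝ, ∀ᶠ z : ℂ in comap Complex.im atTop, T < z.im := fun T =>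
    tendsto_comap.eventually (eventually_gt_atTop T)
  have hhol : ∀ᶠ z in comap Complex.im atTop, DifferentiableAt ℂ Q z := by
    filter_upwards [hev 1] with z hz
    have h1 : Q =ᶠ[𝓝 z] g := by
      filter_upwards [(Complex.continuous_im.tendsto z).eventually (lt_mem_nhds hz)] with w hw
      simp only [Q]
      rw [if_pos hw]
    exact (hd z (high_Om1 hz)).congr_of_eventuallyEq h1
  have hzero : Filter.ZeroAtFilter (comap Complex.im atTop) Q := by
    unfold Filter.ZeroAtFilter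
    rw [Metric.tendsto_nhds]
    intro ε hε
    obtain ⟨T, hT⟩ := h0 (ε / 2) (by positivity)
    filter_upwards [hev T, hev 1] with z hz hz1
    rw [dist_zero_right]
    simp only [Q]
    rw [if_pos hz1]
    have := hT z hz.le
    linarith
  have hO := Function.Periodic.exp_decay_of_zero_at_inf (h := 2) (by norm_num) hQ hhol hzero
  obtain ⟨C, hC⟩ := hO.bound
  rw [Filter.eventually_comap] at hC
  obtain ⟨T, hT⟩ := Filter.eventually_atTop.1 hC
  refine ⟨|C|, max T 2, fun z hz => ?_⟩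
  have hz1 : T ≤ z.im := (le_max_left _ _).trans hz
  have hz2 : 2 ≤ z.im := (le_max_right _ _).trans hz
  have h1 := hT z.im hz1 z rfl
  simp only [Q] at h1
  rw [if_pos (by linarith : 1 < z.im), Real.norm_eq_abs, abs_of_pos (Real.exp_pos _)] at h1
  calc ‖g z‖ ≤ C * Real.exp (-2 * Real.pi * z.im / 2) := h1
    _ ≤ |C| * Real.exp (-2 * Real.pi * z.im / 2) := by gcongr; exact le_abs_self _
    _ ≤ |C| * Real.exp (-z.im) := by
        gcongr
        have := Real.pi_gt_three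
        nlinarith

/-! ### near the cusps `±1` -/

theorem geom_cusp {z : ℂ} (hz : z ∈ D) {s : ℝ} (hs : s = 1 ∨ s = -1) (h1 : ‖z - s‖ ≤ 1) :
    0 < ‖z - s‖ ∧ ‖z - s‖ ≤ 2 * z.im ∧ 1 / (2 * ‖z - s‖) ≤ (-(z - s)⁻¹).im := by
  obtain ⟨hy, hx, hn⟩ := hz
  rw [one_le_norm] at hn
  have him : (z - s).im = z.im := by simp
  have hre : (z - s).re = z.re - s := by simp
  have hne : z - s ≠ 0 := ne_zero_of_im (by rw [him]; exact hy)
  have hpos : 0 < ‖z - s‖ := norm_pos_iff.2 hne
  have hsq : ‖z - s‖ ^ 2 = (z.re - s) ^ 2 + z.im ^ 2 := by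
    rw [Complex.sq_norm, Complex.normSq_apply, him, hre]
    ring
  have hle1 : (z.re - s) ^ 2 + z.im ^ 2 ≤ 1 := by
    rw [← hsq]
    nlinarith
  have hxx := abs_le.1 hx
  have key : ‖z - s‖ ^ 2 ≤ (2 * z.im) ^ 2 := by
    rw [hsq]
    rcases hs with rfl | rfl
    · have ha : 1 - z.re ≤ 1 / 2 := by nlinarith
      nlinarith
    · have ha : 1 + z.re ≤ 1 / 2 := by nlinarith
      nlinarith
  have h2 : ‖z - s‖ ≤ 2 * z.im := by
    have := abs_le_of_sq_le_sq' key (by positivity)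
    exact this.2
  refine ⟨hpos, h2, ?_⟩
  rw [im_neg_inv, him, Complex.normSq_eq_norm_sq, div_le_div_iff₀ (by positivity) (by positivity)]
  nlinarith

/-- bound for `g` near the cusps -/
theorem cusp_bound (W : ℂ → ℂ) (Cθ CW : ℝ)
    (hθ : ∀ τ : ℂ, 1 / 2 ≤ (-τ⁻¹).im →
      ‖jacobiTheta (1 + τ)‖ ≤ Cθ * ‖τ‖ ^ (-1 / 2 : ℝ) * Real.exp (-(Real.pi / 4) * (-τ⁻¹).im))
    (hW : ∀ z ∈ D, z.im ≤ 2 → ‖W z‖ ≤ CW * z.im ^ (-1 / 2 : ℝ))
    {z : ℂ} (hz : z ∈ D) {s : ℝ} (hs : s = 1 ∨ s = -1) (h1 : ‖z - s‖ ≤ 1) :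
    ‖W z * jacobiTheta z‖ ≤ |CW| * |Cθ| * 8 := by
  obtain ⟨hpos, h2, h3⟩ := geom_cusp hz hs h1
  set ρ := ‖z - s‖ with hρ
  have hth : jacobiTheta z = jacobiTheta (1 + (z - s)) := by
    rcases hs with rfl | rfl
    · congr 1
      push_cast
      ring
    · have : (1 : ℂ) + (z - ((-1 : ℝ) : ℂ)) = 2 + z := by
        push_cast
        ring
      rw [this, jacobiTheta_two_add]
  have him : z.im ≤ ρ := by
    have := Complex.abs_im_le_norm (z - s)
    have h4 : (z - s).im = z.im := by simp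
    rw [h4, abs_of_pos hz.1] at this
    exact this
  have hhalf : 1 / 2 ≤ (-(z - (s : ℂ))⁻¹).im := by
    refine le_trans ?_ h3
    rw [div_le_div_iff₀ (by norm_num) (by positivity)]
    linarith
  have hA := hθ (z - s) hhalf
  rw [← hth] at hA
  have hB := hW z hz (by linarith)
  have hρh : 0 < ρ / 2 := by positivity
  have hy : z.im ^ (-1 / 2 : ℝ) ≤ (ρ / 2) ^ (-1 / 2 : ℝ) :=
    Real.rpow_le_rpow_of_nonpos hρh (by linarith) (by norm_num)
  have hE : Real.exp (-(Real.pi / 4) * (-(z - (s : ℂ))⁻¹).im) ≤ 8 * ρ / Real.pi := by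
    have hx : Real.pi / (8 * ρ) ≤ (Real.pi / 4) * (-(z - (s : ℂ))⁻¹).im := by
      have : Real.pi / (8 * ρ) = (Real.pi / 4) * (1 / (2 * ρ)) := by
        field_simp
        norm_num
      rw [this]
      have := Real.pi_pos
      gcongr
    have hx2 : Real.pi / (8 * ρ) ≤ Real.exp ((Real.pi / 4) * (-(z - (s : ℂ))⁻¹).im) := by
      have := Real.add_one_le_exp ((Real.pi / 4) * (-(z - (s : ℂ))⁻¹).im)
      linarith
    rw [neg_mul, Real.exp_neg]
    have hp := Real.pi_pos
    have e : 8 * ρ / Real.pi = (Real.pi / (8 * ρ))⁻¹ := by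
      rw [inv_div]
    rw [e]
    exact inv_anti₀ (by positivity) hx2
  have hrp : (ρ / 2) ^ (-1 / 2 : ℝ) * ρ ^ (-1 / 2 : ℝ) ≤ 2 * ρ⁻¹ := by
    rw [Real.div_rpow hpos.le (by norm_num)]
    have e1 : ρ ^ (-1 / 2 : ℝ) * ρ ^ (-1 / 2 : ℝ) = ρ⁻¹ := by
      rw [← Real.rpow_add hpos]
      norm_num
      exact Real.rpow_neg_one ρ
    have e2 : (1 / 2 : ℝ) ≤ (2 : ℝ) ^ (-1 / 2 : ℝ) := by
      have : (1 / 2 : ℝ) = (2 : ℝ) ^ (-1 : ℝ) := by
        rw [Real.rpow_neg_one]
        norm_num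
      rw [this]
      exact Real.rpow_le_rpow_of_exponent_le (by norm_num) (by norm_num)
    have e3 : ρ ^ (-1 / 2 : ℝ) / 2 ^ (-1 / 2 : ℝ) * ρ ^ (-1 / 2 : ℝ) =
        ρ⁻¹ / 2 ^ (-1 / 2 : ℝ) := by
      rw [div_mul_eq_mul_div, e1]
    rw [e3, div_le_iff₀ (by positivity)]
    have h0 : 0 < ρ⁻¹ := by positivity
    nlinarith
  rw [norm_mul]
  have hp := Real.pi_gt_three
  calc ‖W z‖ * ‖jacobiTheta z‖
      ≤ (|CW| * (ρ / 2) ^ (-1 / 2 : ℝ)) * (|Cθ| * ρ ^ (-1 / 2 : ℝ) * (8 * ρ / Real.pi)) := by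
        apply mul_le_mul
        · calc ‖W z‖ ≤ CW * z.im ^ (-1 / 2 : ℝ) := hB
            _ ≤ |CW| * z.im ^ (-1 / 2 : ℝ) := by
                have := hz.1
                gcongr
                exact le_abs_self _
            _ ≤ _ := by gcongr
        · calc ‖jacobiTheta z‖ ≤ Cθ * ρ ^ (-1 / 2 : ℝ) *
                Real.exp (-(Real.pi / 4) * (-(z - (s : ℂ))⁻¹).im) := hA
            _ ≤ |Cθ| * ρ ^ (-1 / 2 : ℝ) *
                Real.exp (-(Real.pi / 4) * (-(z - (s : ℂ))⁻¹).im) := by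
                gcongr
                exact le_abs_self _
            _ ≤ _ := by gcongr
        · exact norm_nonneg _
        · positivity
    _ = |CW| * |Cθ| * ((ρ / 2) ^ (-1 / 2 : ℝ) * ρ ^ (-1 / 2 : ℝ)) * (8 * ρ / Real.pi) := by ring
    _ ≤ |CW| * |Cθ| * (2 * ρ⁻¹) * (8 * ρ / Real.pi) := by gcongr
    _ = |CW| * |Cθ| * (16 / Real.pi) := by
        field_simp
        ring
    _ ≤ |CW| * |Cθ| * 8 := by
        gcongr
        rw [div_le_iff₀ (by linarith)]
        linarith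

/-- uniform decay on the fundamental domain -/
theorem D_bound (g : ℂ → ℂ) (hd : ∀ z ∈ Om1, DifferentiableAt ℂ g z) (K0 T0 K1 : ℝ)
    (hdec : ∀ z : ℂ, T0 ≤ z.im → ‖g z‖ ≤ K0 * Real.exp (-z.im))
    (hcusp : ∀ z ∈ D, ∀ s : ℝ, s = 1 ∨ s = -1 → ‖z - s‖ ≤ 1 → ‖g z‖ ≤ K1) :
    ∃ K : ℝ, 0 ≤ K ∧ ∀ z ∈ D, ‖g z‖ ≤ K * Real.exp (-z.im) := by
  let C : Set ℂ := {z | 0 ≤ z.im ∧ z.im ≤ T0 ∧ |z.re| ≤ 1 ∧ 1 ≤ ‖z‖ ∧ 1 ≤ ‖z - 1‖ ∧ 1 ≤ ‖z + 1‖}
  have hCc : IsCompact C := by
    apply Metric.isCompact_of_isClosed_isBounded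
    · refine (isClosed_le continuous_const Complex.continuous_im).inter
        ((isClosed_le Complex.continuous_im continuous_const).inter
          ((isClosed_le (continuous_abs.comp Complex.continuous_re) continuous_const).inter
            ((isClosed_le continuous_const continuous_norm).inter
              ((isClosed_le continuous_const
                (continuous_norm.comp (continuous_id.sub continuous_const))).inter
                (isClosed_le continuous_const
                  (continuous_norm.comp (continuous_id.add continuous_const)))))))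
    · refine (Metric.isBounded_closedBall (x := (0 : ℂ)) (r := 1 + T0)).subset fun z hz => ?_
      rw [mem_closedBall_zero_iff]
      have h1 := Complex.norm_le_abs_re_add_abs_im z
      have h2 : |z.im| ≤ T0 := by
        rw [abs_of_nonneg hz.1]
        exact hz.2.1
      linarith [hz.2.2.1]
  have hCD : C ⊆ D := by
    rintro z ⟨h1, _, h3, h4, h5, h6⟩
    refine ⟨?_, h3, h4⟩
    rcases eq_or_lt_of_le h1 with h | h
    · exfalso
      rw [one_le_norm] at h4 h5 h6
      simp only [sub_re, one_re, sub_im, one_im, sub_zero, add_re, add_im, add_zero] at h5 h6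
      rw [← h] at h4 h5 h6
      have hx := abs_le.1 h3
      have h7 : z.re = 1 ∨ z.re = -1 := by
        have : (z.re - 1) * (z.re + 1) = 0 := by nlinarith
        rcases mul_eq_zero.1 this with h | h
        · left; linarith
        · right; linarith
      rcases h7 with h7 | h7
      · rw [h7] at h5
        norm_num at h5
      · rw [h7] at h6
        norm_num at h6
    · exact h
  have hcont : ContinuousOn g C := fun z hz =>
    (hd z (D_sub_Om1 (hCD hz))).continuousAt.continuousWithinAt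
  obtain ⟨M, hM⟩ := hCc.exists_bound_of_continuousOn hcont
  refine ⟨max |K0| (max (|K1| * Real.exp 1) (|M| * Real.exp T0)),
    le_trans (abs_nonneg _) (le_max_left _ _), fun z hz => ?_⟩
  by_cases h1 : T0 ≤ z.im
  · calc ‖g z‖ ≤ K0 * Real.exp (-z.im) := hdec z h1
      _ ≤ |K0| * Real.exp (-z.im) := by gcongr; exact le_abs_self _
      _ ≤ _ := by gcongr; exact le_max_left _ _
  push Not at h1
  have hcase : ∀ s : ℝ, s = 1 ∨ s = -1 → ‖z - s‖ ≤ 1 →
      ‖g z‖ ≤ max |K0| (max (|K1| * Real.exp 1) (|M| * Real.exp T0)) * Real.exp (-z.im) := by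
    intro s hs h
    have him : z.im ≤ 1 := by
      have := Complex.abs_im_le_norm (z - s)
      have h4 : (z - s).im = z.im := by simp
      rw [h4, abs_of_pos hz.1] at this
      linarith
    have h2 : (1 : ℝ) ≤ Real.exp 1 * Real.exp (-z.im) := by
      rw [← Real.exp_add]
      exact Real.one_le_exp (by linarith)
    calc ‖g z‖ ≤ K1 := hcusp z hz s hs h
      _ ≤ |K1| * 1 := by rw [mul_one]; exact le_abs_self _
      _ ≤ |K1| * (Real.exp 1 * Real.exp (-z.im)) := by gcongr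
      _ = (|K1| * Real.exp 1) * Real.exp (-z.im) := by ring
      _ ≤ _ := by
          gcongr
          exact (le_max_left _ _).trans (le_max_right _ _)
  by_cases h2 : ‖z - 1‖ ≤ 1
  · exact hcase 1 (Or.inl rfl) (by simpa using h2)
  by_cases h3 : ‖z + 1‖ ≤ 1
  · exact hcase (-1) (Or.inr rfl) (by simpa using h3)
  push Not at h2 h3
  have h4 : z ∈ C := ⟨hz.1.le, h1.le, hz.2.1, hz.2.2, h2.le, h3.le⟩
  have h5 : (1 : ℝ) ≤ Real.exp T0 * Real.exp (-z.im) := by
    rw [← Real.exp_add]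
    exact Real.one_le_exp (by linarith)
  calc ‖g z‖ ≤ M := hM z h4
    _ ≤ |M| * 1 := by rw [mul_one]; exact le_abs_self _
    _ ≤ |M| * (Real.exp T0 * Real.exp (-z.im)) := by gcongr
    _ = (|M| * Real.exp T0) * Real.exp (-z.im) := by ring
    _ ≤ _ := by
        gcongr
        exact (le_max_right _ _).trans (le_max_right _ _)

/-- the limit of the primitive at the cusps -/
theorem prim_tendsto (g : ℂ → ℂ) (hd : ∀ z ∈ Om1, DifferentiableAt ℂ g z) (K : ℝ) (hK : 0 ≤ K)
    (hb : ∀ z ∈ D, ‖g z‖ ≤ K * Real.exp (-z.im)) (s : ℝ) (hs : s = 1 ∨ s = -1) :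
    Tendsto (prim g) (𝓝[D] (s : ℂ)) (𝓝 (prim g (s : ℂ))) := by
  have hcont : ∀ w ∈ Om1, ContinuousAt g w := fun w hw => (hd w hw).continuousAt
  unfold prim
  refine Tendsto.const_mul _ ?_
  refine tendsto_integral_filter_of_dominated_convergence (fun t => K * Real.exp (-t)) ?_ ?_
    ((integrableOn_exp_neg_Ioi 0).const_mul K) ?_
  · filter_upwards [self_mem_nhdsWithin] with z hz
    exact ((ray_cont (D_sub_Om1 hz) hcont).mono Ioi_subset_Ici_self).aestronglyMeasurable
      measurableSet_Ioi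
  · filter_upwards [self_mem_nhdsWithin] with z hz
    rw [ae_restrict_iff' measurableSet_Ioi]
    refine Eventually.of_forall fun t ht => ?_
    have ht' : 0 ≤ t := le_of_lt ht
    have h1 := hb _ (D_up hz ht')
    rw [add_I_im] at h1
    refine h1.trans ?_
    have := hz.1
    gcongr
    linarith
  · rw [ae_restrict_iff' measurableSet_Ioi]
    refine Eventually.of_forall fun t ht => ?_
    have ht' : 0 < t := ht
    have hmem : (s : ℂ) + t * I ∈ D := by
      refine ⟨?_, ?_, ?_⟩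
      · rw [add_I_im]
        simpa using ht'
      · rw [add_I_re, ofReal_re]
        rcases hs with rfl | rfl <;> norm_num
      · rw [one_le_norm, add_I_re, add_I_im, ofReal_re, ofReal_im]
        rcases hs with rfl | rfl <;> nlinarith
    have h1 : ContinuousAt g ((s : ℂ) + t * I) := hcont _ (D_sub_Om1 hmem)
    have h2 : ContinuousAt (fun z : ℂ => z + t * I) (s : ℂ) := by fun_prop
    exact (ContinuousAt.comp (f := fun z : ℂ => z + t * I) h1 h2).tendsto.mono_left
      nhdsWithin_le_nhds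

theorem D_near {z : ℂ} (hz : z ∈ D) {r : ℝ} (hr : r ≤ 1) (h : z.im ≤ r) :
    dist z ((1 : ℝ) : ℂ) ≤ 2 * r ∨ dist z ((-1 : ℝ) : ℂ) ≤ 2 * r := by
  obtain ⟨hy, hx, hn⟩ := hz
  rw [one_le_norm] at hn
  have hxx := abs_le.1 hx
  have h1 : 1 - z.im ≤ |z.re| := by
    by_contra hcon
    push Not at hcon
    nlinarith [sq_abs z.re, abs_nonneg z.re]
  rcases le_total 0 z.re with h0 | h0
  · left
    rw [abs_of_nonneg h0] at h1
    rw [dist_eq_norm]
    calc _ ≤ |(z - ((1 : ℝ) : ℂ)).re| + |(z - ((1 : ℝ) : ℂ)).im| :=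
          Complex.norm_le_abs_re_add_abs_im _
      _ ≤ r + r := by
          simp only [sub_re, ofReal_re, sub_im, ofReal_im, sub_zero]
          rw [abs_of_nonpos (by linarith), abs_of_pos hy]
          linarith
      _ = 2 * r := by ring
  · right
    rw [abs_of_nonpos h0] at h1
    rw [dist_eq_norm]
    calc _ ≤ |(z - ((-1 : ℝ) : ℂ)).re| + |(z - ((-1 : ℝ) : ℂ)).im| :=
          Complex.norm_le_abs_re_add_abs_im _
      _ ≤ r + r := by
          simp only [sub_re, ofReal_re, sub_im, ofReal_im, sub_zero]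
          rw [abs_of_nonneg (by linarith), abs_of_pos hy]
          linarith
      _ = 2 * r := by ring

end Pool.Agent.W741.Sq
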